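import Mathlib

/-!
# The Poisson line Cox process: concrete model

The plane is `ℂ`.  The line with parameters `(p, θ)` is `{z | z.re * cos θ + z.im * sin θ = p}`;
its point with arc-length coordinate `s` is `linePt p θ s`.
-/

open MeasureTheory ProbabilityTheory Set
open scoped NNReal ENNReal

namespace Pool.Agent.Lib.MP_3e2d90_pr

/-- The standard construction of a Poisson process with intensity measure `r • μ`, where `μ` is a
probability measure: a Poisson(`r`) number `n` and an independent i.i.d. sequence `x` of law `μ`.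
The pair `(n, x)` encodes the configuration `x 0, …, x (n - 1)`. -/
noncomputable def finPoisson {E : Type*} [MeasurableSpace E] (r : ℝ≥0) (μ : Measure E) :
    Measure (ℕ × (ℕ → E)) :=
  (poissonMeasure r).prod (Measure.infinitePi fun _ : ℕ => μ)

/-- The uniform distribution on `[m, m + 1)`. -/
noncomputable def cellLaw (m : ℤ) : Measure ℝ := volume.restrict (Ico (m : ℝ) (m + 1))

/-- The uniform distribution on `[0, π)`. -/
noncomputable def angleLaw : Measure ℝ :=
  (ENNReal.ofReal Real.pi)⁻¹ • volume.restrict (Ico 0 Real.pi)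

/-- A configuration of lines: for each `m : ℤ` the parameters `(p, θ)` of the lines with
`p ∈ [m, m + 1)`. -/
abbrev LineConf := ℤ → ℕ × (ℕ → ℝ × ℝ)

/-- A configuration of points on the lines: for the `i`-th line of cell `m` and each `k : ℤ`, the
arc-length coordinates of the points with coordinate in `[k, k + 1)`. -/
abbrev MarkConf := ℤ × ℕ × ℤ → ℕ × (ℕ → ℝ)

/-- The law of the Poisson line process of intensity `γ dp dθ / π`. -/
noncomputable def lineLaw (γ : ℝ≥0) : Measure LineConf :=
  Measure.infinitePi fun m : ℤ => finPoisson γ ((cellLaw m).prod angleLaw)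

/-- The law of independent Poisson processes of intensity `l` on countably many copies of the real
line. -/
noncomputable def markLaw (l : ℝ≥0) : Measure MarkConf :=
  Measure.infinitePi fun a : ℤ × ℕ × ℤ => finPoisson l (cellLaw a.2.2)

/-- The law of lines and points. -/
noncomputable def coxLaw (γ l : ℝ≥0) : Measure (LineConf × MarkConf) :=
  (lineLaw γ).prod (markLaw l)

/-- The point with arc-length coordinate `s` on the line with parameters `(p, θ)`. -/
noncomputable def linePt (p θ s : ℝ) : ℂ :=
  ⟨p * Real.cos θ - s * Real.sin θ, p * Real.sin θ + s * Real.cos θ⟩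

/-- The Poisson line Cox process (as a random subset of the plane). -/
def points (ω : LineConf × MarkConf) : Set ℂ :=
  {z | ∃ (m : ℤ) (i : ℕ) (k : ℤ) (r : ℕ), i < (ω.1 m).1 ∧ r < (ω.2 (m, i, k)).1 ∧
    z = linePt ((ω.1 m).2 i).1 ((ω.1 m).2 i).2 ((ω.2 (m, i, k)).2 r)}

/-- The occupied set: union of the closed unit discs centred at the points. -/
def occupied (ω : LineConf × MarkConf) : Set ℂ := ⋃ x ∈ points ω, Metric.closedBall x 1

/-- The vacant set. -/
def vacant (ω : LineConf × MarkConf) : Set ℂ := (occupied ω)ᶜ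

/-- A set percolates if it has an unbounded connected component. -/
def Percolates (A : Set ℂ) : Prop :=
  ∃ x ∈ A, ¬ Bornology.IsBounded (connectedComponentIn A x)

/-- The threshold `λ_c(γ) = inf {l > 0 | P(O_l percolates) > 0}`. -/
noncomputable def lambdaC (γ : ℝ≥0) : ℝ≥0∞ :=
  sInf {l : ℝ≥0∞ | ∃ l' : ℝ≥0, l = l' ∧ 0 < l' ∧
    0 < coxLaw γ l' {ω | Percolates (occupied ω)}}

/-- The threshold `λ_c^V(γ) = sup {l > 0 | P(V_l percolates) > 0}`. -/
noncomputable def lambdaCV (γ : ℝ≥0) : ℝ≥0∞ :=
  sSup {l : ℝ≥0∞ | ∃ l' : ℝ≥0, l = l' ∧ 0 < l' ∧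
    0 < coxLaw γ l' {ω | Percolates (vacant ω)}}

end Pool.Agent.Lib.MP_3e2d90_pr
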