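import Mathlib
import Pool.Agent.Lib.MP_3e2d90_pr.Model

/-!
# Multiscale nodes, bad events, the recursive bound functional, the Poisson operator
-/

open MeasureTheory ProbabilityTheory Set
open scoped NNReal ENNReal

namespace Pool.Agent.Lib.MP_3e2d90_pr

/-- `x_k = X ^ (3 ^ k)`. -/
def xs (X k : ℕ) : ℕ := X ^ (3 ^ k)

/-- The scales `L_k = x_k ^ 5`, so that `L_{k+1} = L_k ^ 3`. -/
def Ls (X k : ℕ) : ℕ := xs X k ^ 5

lemma xs_succ (X k : ℕ) : xs X (k + 1) = xs X k ^ 3 := by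
  rw [xs, xs, pow_succ, pow_mul]

lemma Ls_succ (X k : ℕ) : Ls X (k + 1) = Ls X k ^ 3 := by
  rw [Ls, Ls, xs_succ]; ring

lemma le_xs (X k : ℕ) : X ≤ xs X k := by
  rw [xs]
  exact Nat.le_self_pow (by positivity) X

lemma xs_le_Ls (X k : ℕ) : xs X k ≤ Ls X k := by
  rw [Ls]
  exact Nat.le_self_pow (by norm_num) _

/-- Location of the level-`k` node with index `a`. -/
noncomputable def loc (X k : ℕ) (a : ℤ × ℤ) : ℂ := ⟨(Ls X k : ℝ) * a.1, (Ls X k : ℝ) * a.2⟩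

/-- Level-`k` nodes close to the `m`-th circle around the level-`(k+1)` node `a`. -/
noncomputable def Circ (X k : ℕ) (m : Fin 85) (a : ℤ × ℤ) : Finset (ℤ × ℤ) :=
  open Classical in
  ((Finset.Icc (a.1 * (Ls X k : ℤ) ^ 2 - 3 * (Ls X k : ℤ) ^ 2)
      (a.1 * (Ls X k : ℤ) ^ 2 + 3 * (Ls X k : ℤ) ^ 2)) ×ˢ
    (Finset.Icc (a.2 * (Ls X k : ℤ) ^ 2 - 3 * (Ls X k : ℤ) ^ 2)
      (a.2 * (Ls X k : ℤ) ^ 2 + 3 * (Ls X k : ℤ) ^ 2))).filter
    (fun b => |dist (loc X k b) (loc X (k + 1) a) - Ls X (k + 1) * (1 + (m : ℝ) / 85)| ≤ Ls X k)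

/-- Bad nodes: a level-`(k+1)` node is bad if every one of its 85 circles carries a bad level-`k`
node. -/
def Bad {Ω : Type*} (X : ℕ) (B : ℤ × ℤ → Set Ω) : ℕ → ℤ × ℤ → Set Ω
  | 0 => B
  | (k + 1) => fun a => ⋂ m : Fin 85, ⋃ b ∈ Circ X k m a, Bad X B k b

/-- The recursive bound for the probability of a bad node. -/
noncomputable def Fk (X : ℕ) (f : ℤ × ℤ → ℝ≥0∞) : ℕ → ℤ × ℤ → ℝ≥0∞
  | 0 => f
  | (k + 1) => fun a =>
      min 1 (⨅ m : Fin 4 ↪ Fin 85, ∏ j, ∑ b ∈ Circ X k (m j) a, Fk X f k b)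

/-- `z · u(θ)`, `u(θ) = (cos θ, sin θ)`. -/
noncomputable def pr (θ : ℝ) (z : ℂ) : ℝ := z.re * Real.cos θ + z.im * Real.sin θ

/-- `z · u^⊥(θ)`, `u^⊥(θ) = (- sin θ, cos θ)`. -/
noncomputable def tr (θ : ℝ) (z : ℂ) : ℝ := z.im * Real.cos θ - z.re * Real.sin θ

lemma pr_sq_add_tr_sq (θ : ℝ) (z : ℂ) : pr θ z ^ 2 + tr θ z ^ 2 = ‖z‖ ^ 2 := by
  rw [← Complex.normSq_eq_norm_sq, Complex.normSq_apply, pr, tr]
  have := Real.cos_sq_add_sin_sq θ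
  linear_combination (z.re ^ 2 + z.im ^ 2) * this

lemma pr_sub (θ : ℝ) (z w : ℂ) : pr θ (z - w) = pr θ z - pr θ w := by
  simp only [pr, Complex.sub_re, Complex.sub_im]; ring

lemma tr_sub (θ : ℝ) (z w : ℂ) : tr θ (z - w) = tr θ z - tr θ w := by
  simp only [tr, Complex.sub_re, Complex.sub_im]; ring

lemma abs_pr_le (θ : ℝ) (z : ℂ) : |pr θ z| ≤ ‖z‖ := by
  have := pr_sq_add_tr_sq θ z
  rw [← abs_norm]
  exact sq_le_sq.1 (by nlinarith [sq_nonneg (tr θ z)])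

lemma abs_tr_le (θ : ℝ) (z : ℂ) : |tr θ z| ≤ ‖z‖ := by
  have := pr_sq_add_tr_sq θ z
  rw [← abs_norm]
  exact sq_le_sq.1 (by nlinarith [sq_nonneg (pr θ z)])

/-- The line `q = (p, θ)` comes within `r` of the point `z`. -/
def Near (r : ℝ) (z : ℂ) : Set (ℝ × ℝ) := {q | |q.1 - pr q.2 z| ≤ r}

/-- Nearly horizontal (`t = false`) or nearly vertical (`t = true`) lines through the core of the
box of side `Ls X 0` around the level-0 node `z`. -/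
def Tset (X : ℕ) (t : Bool) (z : ℤ × ℤ) : Set (ℝ × ℝ) :=
  {q | |q.1 - pr q.2 (loc X 0 z)| ≤ Ls X 0 / 8 ∧
    |if t then Real.sin q.2 else Real.cos q.2| ≤ 1 / 5}

/-- The intensity measure of the lines with `p` in the cells `S`. -/
noncomputable def nuS (γ : ℝ≥0) (S : Finset ℤ) : Measure (ℝ × ℝ) :=
  ∑ m ∈ S, γ • ((volume.restrict (Ico (m : ℝ) (m + 1))).prod
    ((ENNReal.ofReal Real.pi)⁻¹ • volume.restrict (Ico 0 Real.pi)))

/-! ### The Poisson operator -/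

/-- one-step operator -/
noncomputable def stepA {E M : Type*} [MeasurableSpace E] [AddCommMonoid M] (ν : Measure E)
    (h : E → M) (F : M → ℝ≥0∞) (n : M) : ℝ≥0∞ :=
  ∫⁻ q, F (n + h q) ∂ν

/-- `Phi ν h F n` is the expectation of `F (n + sum of h over a Poisson process of intensity ν)`. -/
noncomputable def Phi {E M : Type*} [MeasurableSpace E] [AddCommMonoid M] (ν : Measure E)
    (h : E → M) (F : M → ℝ≥0∞) (n : M) : ℝ≥0∞ :=
  ENNReal.ofReal (Real.exp (-(ν univ).toReal)) *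
    ∑' k : ℕ, ((k.factorial : ℝ≥0∞))⁻¹ * ((stepA ν h)^[k] F) n

/-! ### Hitting counts -/

/-- the vector of hitting indicators -/
noncomputable def hit {α : Type*} (W : Finset α) (H : α → Set (ℝ × ℝ)) (q : ℝ × ℝ) : W → ℕ :=
  open Classical in fun z => if q ∈ H z then 1 else 0

/-- extension by zero -/
noncomputable def ext {α : Type*} {W : Finset α} (n : W → ℕ) (z : α) : ℕ :=
  open Classical in if hz : z ∈ W then n ⟨z, hz⟩ else 0

/-! ### Small `λ` -/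

/-- level-0 bad event for small `λ`: some non-empty arc cell near the node `z`. -/
def BAC (X : ℕ) (z : ℤ × ℤ) : Set (LineConf × MarkConf) :=
  {w | ∃ (m : ℤ) (i : ℕ) (k : ℤ), i < (w.1 m).1 ∧ 0 < (w.2 (m, i, k)).1 ∧
    (w.1 m).2 i ∈ Near (3 * Ls X 0) (loc X 0 z) ∧
    |(k : ℝ) - tr ((w.1 m).2 i).2 (loc X 0 z)| ≤ 3 * Ls X 0}

noncomputable def fAC (c : ℝ≥0∞) {W : Finset (ℤ × ℤ)} (n : W → ℕ) (z : ℤ × ℤ) : ℝ≥0∞ :=
  min 1 (c * ext n z)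

noncomputable def hAC (X : ℕ) (W : Finset (ℤ × ℤ)) : ℝ × ℝ → (W → ℕ) :=
  hit W (fun z => Near (3 * Ls X 0) (loc X 0 z))

/-! ### Large `λ` -/

/-- there is a covered line of type `t` at node `z`. -/
def Cov (X : ℕ) (t : Bool) (z : ℤ × ℤ) : Set (LineConf × MarkConf) :=
  {w | ∃ (m : ℤ) (i : ℕ), i < (w.1 m).1 ∧ (w.1 m).2 i ∈ Tset X t z ∧
    ∀ k : ℤ, |(k : ℝ) - tr ((w.1 m).2 i).2 (loc X 0 z)| ≤ 3 * Ls X 0 → 0 < (w.2 (m, i, k)).1}

/-- the 25 nodes at sup-distance at most 2 -/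
noncomputable def nb (z : ℤ × ℤ) : Finset (ℤ × ℤ) :=
  (Finset.Icc (z.1 - 2) (z.1 + 2)) ×ˢ (Finset.Icc (z.2 - 2) (z.2 + 2))

/-- level-0 bad event for large `λ`: some box nearby has no covered line of some type. -/
def BBD (X : ℕ) (z : ℤ × ℤ) : Set (LineConf × MarkConf) :=
  {w | ∃ z' ∈ nb z, ∃ t, w ∉ Cov X t z'}

noncomputable def fBD {W : Finset ((ℤ × ℤ) × Bool)} (n : W → ℕ) (z : ℤ × ℤ) : ℝ≥0∞ :=
  min 1 (∑ z' ∈ nb z, ∑ t : Bool, (2⁻¹ : ℝ≥0∞) ^ ext n (z', t))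

noncomputable def hBD (X : ℕ) (W : Finset ((ℤ × ℤ) × Bool)) : ℝ × ℝ → (W → ℕ) :=
  hit W (fun z => Tset X z.2 z.1)

/-! ### `ℤ²` and the plane -/

def nnAdj (u v : ℤ × ℤ) : Prop := |u.1 - v.1| + |u.2 - v.2| = 1

/-- equal or adjacent (including diagonally) -/
def starAdj (u v : ℤ × ℤ) : Prop := |u.1 - v.1| ≤ 1 ∧ |u.2 - v.2| ≤ 1

/-- `S` is connected in the nearest-neighbour graph -/
def NNConn (S : Set (ℤ × ℤ)) : Prop :=
  ∀ u ∈ S, ∀ v ∈ S, Relation.ReflTransGen (fun x y => nnAdj x y ∧ x ∈ S ∧ y ∈ S) u v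

/-- the closed box of side `Ls X 0` centred at the node `z` -/
def box (X : ℕ) (z : ℤ × ℤ) : Set ℂ :=
  {x | |x.re - (loc X 0 z).re| ≤ Ls X 0 / 2 ∧ |x.im - (loc X 0 z).im| ≤ Ls X 0 / 2}

/-- part of the line `q` inside the triple box: `t = false` horizontal, `t = true` vertical -/
def seg (X : ℕ) (t : Bool) (z : ℤ × ℤ) (q : ℝ × ℝ) : Set ℂ :=
  {x | pr q.2 x = q.1 ∧
    |if t then x.im - (loc X 0 z).im else x.re - (loc X 0 z).re| ≤ 3 / 2 * Ls X 0}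

end Pool.Agent.Lib.MP_3e2d90_pr
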