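import Mathlib
import Pool.Agent.Lib.MP_3e2d90_pr.Nodes

/-!
# Elementary facts about scales, nodes and children
-/

open MeasureTheory ProbabilityTheory Set
open scoped NNReal ENNReal

namespace Pool.Agent.Lib.MP_3e2d90_pr

lemma Ls_ge {X : ℕ} (hX : 100 ≤ X) (k : ℕ) : 10 ^ 10 ≤ Ls X k := by
  have h1 : X ≤ xs X k := le_xs X k
  rw [Ls]
  calc 10 ^ 10 = 100 ^ 5 := by norm_num
    _ ≤ xs X k ^ 5 := Nat.pow_le_pow_left (hX.trans h1) 5

lemma Ls_ge_real {X : ℕ} (hX : 100 ≤ X) (k : ℕ) : (10 : ℝ) ^ 10 ≤ Ls X k := by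
  exact_mod_cast Ls_ge hX k

lemma Ls_succ_real (X k : ℕ) : (Ls X (k + 1) : ℝ) = (Ls X k : ℝ) ^ 3 := by
  rw [Ls_succ]; push_cast; ring

lemma big_le {X : ℕ} (hX : 100 ≤ X) (k : ℕ) : (10 : ℝ) ^ 20 * Ls X k ≤ Ls X (k + 1) := by
  rw [Ls_succ_real]
  have h := Ls_ge_real hX k
  have h0 : (0 : ℝ) ≤ Ls X k := by positivity
  have h2 : ((10 : ℝ) ^ 10) ^ 2 ≤ (Ls X k : ℝ) ^ 2 := pow_le_pow_left₀ (by norm_num) h 2
  nlinarith

lemma Ls_mono_zero {X : ℕ} (hX : 100 ≤ X) (k : ℕ) : (Ls X 0 : ℝ) ≤ Ls X k := by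
  induction k with
  | zero => exact le_rfl
  | succ k ih =>
    refine ih.trans ?_
    have := big_le hX k
    have h0 : (0 : ℝ) ≤ Ls X k := by positivity
    nlinarith

/-- the radius of the `m`-th circle -/
noncomputable def rad (X k : ℕ) (m : Fin 85) : ℝ := Ls X (k + 1) * (1 + (m : ℝ) / 85)

lemma mem_Circ {X k : ℕ} {m : Fin 85} {a b : ℤ × ℤ} : b ∈ Circ X k m a ↔
    (a.1 * (Ls X k : ℤ) ^ 2 - 3 * (Ls X k : ℤ) ^ 2 ≤ b.1 ∧
      b.1 ≤ a.1 * (Ls X k : ℤ) ^ 2 + 3 * (Ls X k : ℤ) ^ 2) ∧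
    (a.2 * (Ls X k : ℤ) ^ 2 - 3 * (Ls X k : ℤ) ^ 2 ≤ b.2 ∧
      b.2 ≤ a.2 * (Ls X k : ℤ) ^ 2 + 3 * (Ls X k : ℤ) ^ 2) ∧
    |dist (loc X k b) (loc X (k + 1) a) - rad X k m| ≤ Ls X k := by
  classical
  simp only [Circ, Finset.mem_filter, Finset.mem_product, Finset.mem_Icc, rad, and_assoc]

lemma rad_le (X k : ℕ) (m : Fin 85) : rad X k m ≤ 2 * Ls X (k + 1) := by
  have hm : ((m : ℕ) : ℝ) ≤ 84 := by exact_mod_cast Nat.le_of_lt_succ m.2
  have h0 : (0 : ℝ) ≤ Ls X (k + 1) := by positivity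
  rw [rad]
  have : (1 + (m : ℝ) / 85) ≤ 2 := by
    have : ((m : ℕ) : ℝ) / 85 ≤ 84 / 85 := by gcongr
    linarith
  nlinarith

lemma le_rad (X k : ℕ) (m : Fin 85) : (Ls X (k + 1) : ℝ) ≤ rad X k m := by
  have h0 : (0 : ℝ) ≤ Ls X (k + 1) := by positivity
  rw [rad]
  have : (0 : ℝ) ≤ (m : ℝ) / 85 := by positivity
  nlinarith

lemma rad_sub_rad {X k : ℕ} {m m' : Fin 85} (hm : m ≠ m') :
    (Ls X (k + 1) : ℝ) / 85 ≤ |rad X k m - rad X k m'| := by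
  have h0 : (0 : ℝ) ≤ Ls X (k + 1) := by positivity
  have h1 : (1 : ℝ) ≤ |((m : ℕ) : ℝ) - ((m' : ℕ) : ℝ)| := by
    have h2 : (m : ℕ) ≠ (m' : ℕ) := fun h => hm (Fin.ext h)
    have h3 : (1 : ℤ) ≤ |((m : ℕ) : ℤ) - ((m' : ℕ) : ℤ)| := by
      apply Int.one_le_abs
      omega
    exact_mod_cast h3
  have h2 : rad X k m - rad X k m' = Ls X (k + 1) / 85 * ((m : ℝ) - (m' : ℝ)) := by
    rw [rad, rad]; ring
  rw [h2, abs_mul, abs_of_nonneg (by positivity : (0 : ℝ) ≤ Ls X (k + 1) / 85)]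
  have h3 : (0 : ℝ) ≤ Ls X (k + 1) / 85 := by positivity
  nlinarith

theorem dist_child_le {X k : ℕ} {m : Fin 85} {a b : ℤ × ℤ} (hb : b ∈ Circ X k m a) :
    dist (loc X k b) (loc X (k + 1) a) ≤ 2 * Ls X (k + 1) + Ls X k := by
  have h := (mem_Circ.1 hb).2.2
  have h1 := rad_le X k m
  have h2 := (abs_le.1 h).2
  linarith

theorem dist_children {X : ℕ} (hX : 100 ≤ X) {k : ℕ} {m m' : Fin 85} {a b b' : ℤ × ℤ}
    (hm : m ≠ m') (hb : b ∈ Circ X k m a) (hb' : b' ∈ Circ X k m' a) :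
    (Ls X (k + 1) : ℝ) / 170 ≤ dist (loc X k b) (loc X k b') := by
  have h := (mem_Circ.1 hb).2.2
  have h' := (mem_Circ.1 hb').2.2
  have h1 := rad_sub_rad (X := X) (k := k) hm
  have h2 := big_le hX k
  have h3 : |dist (loc X k b) (loc X (k + 1) a) - dist (loc X k b') (loc X (k + 1) a)| ≤
      dist (loc X k b) (loc X k b') := abs_dist_sub_le _ _ _
  have h4 : |rad X k m - rad X k m'| ≤
      |dist (loc X k b) (loc X (k + 1) a) - rad X k m| +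
      |dist (loc X k b') (loc X (k + 1) a) - rad X k m'| +
      |dist (loc X k b) (loc X (k + 1) a) - dist (loc X k b') (loc X (k + 1) a)| := by
    have e : rad X k m - rad X k m' = -(dist (loc X k b) (loc X (k + 1) a) - rad X k m) +
      (dist (loc X k b') (loc X (k + 1) a) - rad X k m') +
      (dist (loc X k b) (loc X (k + 1) a) - dist (loc X k b') (loc X (k + 1) a)) := by ring
    rw [e]
    refine (abs_add_le _ _).trans (add_le_add ((abs_add_le _ _).trans ?_) le_rfl)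
    rw [abs_neg]
  have h0 : (0 : ℝ) ≤ Ls X k := by positivity
  have h5 : (10 : ℝ) ^ 20 * Ls X k ≥ 340 * Ls X k := by nlinarith
  linarith

theorem measurableSet_Bad {Ω : Type*} [MeasurableSpace Ω] (X : ℕ) {B : ℤ × ℤ → Set Ω}
    (hB : ∀ y, MeasurableSet (B y)) (k : ℕ) (a : ℤ × ℤ) : MeasurableSet (Bad X B k a) := by
  induction k generalizing a with
  | zero => exact hB a
  | succ k ih =>
    refine MeasurableSet.iInter fun m => ?_
    exact Finset.measurableSet_biUnion _ fun b _ => ih b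

theorem Fk_mono_local {X : ℕ} (hX : 100 ≤ X) {f g : ℤ × ℤ → ℝ≥0∞} (k : ℕ) (a : ℤ × ℤ)
    (h : ∀ z, dist (loc X 0 z) (loc X k a) ≤ 3 * Ls X k → f z ≤ g z) :
    Fk X f k a ≤ Fk X g k a := by
  induction k generalizing a with
  | zero => exact h a (by rw [dist_self]; positivity)
  | succ k ih =>
    refine min_le_min le_rfl (iInf_mono fun m => ?_)
    refine Finset.prod_le_prod' fun j _ => Finset.sum_le_sum fun b hb => ?_
    refine ih b fun z hz => h z ?_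
    have h1 := dist_child_le hb
    have h2 := dist_triangle (loc X 0 z) (loc X k b) (loc X (k + 1) a)
    have h3 := big_le hX k
    have h0 : (0 : ℝ) ≤ Ls X k := by positivity
    have h5 : (10 : ℝ) ^ 20 * Ls X k ≥ 340 * Ls X k := by nlinarith
    linarith

theorem Fk_congr {X : ℕ} (hX : 100 ≤ X) {f g : ℤ × ℤ → ℝ≥0∞} (k : ℕ) (a : ℤ × ℤ)
    (h : ∀ z, dist (loc X 0 z) (loc X k a) ≤ 3 * Ls X k → f z = g z) :
    Fk X f k a = Fk X g k a :=
  le_antisymm (Fk_mono_local hX k a fun z hz => (h z hz).le)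
    (Fk_mono_local hX k a fun z hz => (h z hz).ge)

theorem Fk_mono {X : ℕ} {f g : ℤ × ℤ → ℝ≥0∞} (h : ∀ z, f z ≤ g z) (k : ℕ) (a : ℤ × ℤ) :
    Fk X f k a ≤ Fk X g k a := by
  induction k generalizing a with
  | zero => exact h a
  | succ k ih =>
    refine min_le_min le_rfl (iInf_mono fun m => ?_)
    exact Finset.prod_le_prod' fun j _ => Finset.sum_le_sum fun b hb => ih b

theorem Fk_le_one {X : ℕ} {f : ℤ × ℤ → ℝ≥0∞} (h : ∀ z, f z ≤ 1) (k : ℕ) (a : ℤ × ℤ) :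
    Fk X f k a ≤ 1 := by
  cases k with
  | zero => exact h a
  | succ k => exact min_le_left _ _

end Pool.Agent.Lib.MP_3e2d90_pr
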