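import Mathlib
import Pool.Agent.Lib.MP_3e2d90_pr.Basic

/-!
# Counting nodes near circles and lines
-/

open MeasureTheory ProbabilityTheory Set
open scoped NNReal ENNReal

namespace Pool.Agent.Lib.MP_3e2d90_pr

theorem card_Circ_le {X : ℕ} (hX : 1 ≤ X) (k : ℕ) (m : Fin 85) (a : ℤ × ℤ) :
    (Circ X k m a).card ≤ 49 * Ls X k ^ 4 := by
  classical
  have hL : 1 ≤ Ls X k := (hX.trans (le_xs X k)).trans (xs_le_Ls X k)
  have h1 : ∀ c : ℤ, (Finset.Icc (c * (Ls X k : ℤ) ^ 2 - 3 * (Ls X k : ℤ) ^ 2)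
      (c * (Ls X k : ℤ) ^ 2 + 3 * (Ls X k : ℤ) ^ 2)).card ≤ 7 * Ls X k ^ 2 := by
    intro c
    rw [Int.card_Icc]
    have e : c * (Ls X k : ℤ) ^ 2 + 3 * (Ls X k : ℤ) ^ 2 + 1 -
        (c * (Ls X k : ℤ) ^ 2 - 3 * (Ls X k : ℤ) ^ 2) = ((6 * Ls X k ^ 2 + 1 : ℕ) : ℤ) := by
      push_cast; ring
    rw [e, Int.toNat_natCast]
    have : 1 ≤ Ls X k ^ 2 := Nat.one_le_pow _ _ hL
    omega
  unfold Circ
  refine (Finset.card_filter_le _ _).trans ?_
  rw [Finset.card_product]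
  refine (Nat.mul_le_mul (h1 _) (h1 _)).trans (le_of_eq ?_)
  ring

lemma norm_le_abs_pr_add_abs_tr (θ : ℝ) (z : ℂ) : ‖z‖ ≤ |pr θ z| + |tr θ z| := by
  have h := pr_sq_add_tr_sq θ z
  have h1 : ‖z‖ ^ 2 ≤ (|pr θ z| + |tr θ z|) ^ 2 := by
    rw [← h, add_sq, sq_abs, sq_abs]
    nlinarith [abs_nonneg (pr θ z), abs_nonneg (tr θ z), mul_nonneg (abs_nonneg (pr θ z))
      (abs_nonneg (tr θ z))]
  exact le_of_sq_le_sq h1 (by positivity)

/-- two points close to a circle and to a non-tangent line, on the same side, are close. -/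
lemma dist_le_of_near {L Λ R ρ θ : ℝ} {x x' : ℂ} (hL : 0 < L) (hΛ : (10 : ℝ) ^ 20 * L ≤ Λ)
    (hR1 : Λ ≤ R) (hR2 : R ≤ 2 * Λ) (hρ : Λ / 170 ≤ |(|ρ|) - R|)
    (h1 : |‖x‖ - R| ≤ L) (h1' : |‖x'‖ - R| ≤ L)
    (h2 : |ρ - pr θ x| ≤ 7 * L) (h2' : |ρ - pr θ x'| ≤ 7 * L)
    (h3 : 0 ≤ tr θ x * tr θ x') : dist x x' ≤ 476 * L := by
  have hΛ0 : 0 < Λ := lt_of_lt_of_le (by positivity) hΛ
  have hΛ1 : 10000000 * L ≤ Λ := le_trans (by nlinarith) hΛ
  have a1 := abs_le.1 h1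
  have a1' := abs_le.1 h1'
  have a2 := abs_le.1 h2
  have a2' := abs_le.1 h2'
  have b1 := abs_pr_le θ x
  have b1' := abs_pr_le θ x'
  -- the line crosses the disc
  have hρR : |ρ| ≤ R - Λ / 170 := by
    rcases le_total (|ρ|) R with h | h
    · rw [abs_of_nonpos (by linarith)] at hρ
      linarith
    · rw [abs_of_nonneg (by linarith)] at hρ
      have : |ρ| ≤ |pr θ x| + 7 * L := by
        have : |ρ| ≤ |pr θ x| + |ρ - pr θ x| := by
          have := abs_add_le (pr θ x) (ρ - pr θ x)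
          simpa using this
        linarith
      linarith
  have e := pr_sq_add_tr_sq θ x
  have e' := pr_sq_add_tr_sq θ x'
  have c : |pr θ x| ≤ |ρ| + 7 * L := by
    have := abs_sub_abs_le_abs_sub (pr θ x) ρ
    rw [abs_sub_comm] at this
    linarith
  have c' : |pr θ x'| ≤ |ρ| + 7 * L := by
    have := abs_sub_abs_le_abs_sub (pr θ x') ρ
    rw [abs_sub_comm] at this
    linarith
  have lower : ∀ y : ℂ, |‖y‖ - R| ≤ L → |pr θ y| ≤ |ρ| + 7 * L → Λ / 14 ≤ |tr θ y| := by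
    intro y hy hy'
    have hy1 := abs_le.1 hy
    have ey := pr_sq_add_tr_sq θ y
    have f1 : |pr θ y| ≤ R - Λ / 171 := by linarith
    have f2 : R - L ≤ ‖y‖ := by linarith
    have f3 : (R - L) ^ 2 ≤ ‖y‖ ^ 2 := pow_le_pow_left₀ (by linarith) f2 2
    have f4 : pr θ y ^ 2 ≤ (R - Λ / 171) ^ 2 := by
      rw [← sq_abs]
      exact pow_le_pow_left₀ (abs_nonneg _) f1 2
    have f5 : (Λ / 14) ^ 2 ≤ |tr θ y| ^ 2 := by
      rw [sq_abs]
      nlinarith
    exact le_of_sq_le_sq f5 (abs_nonneg _)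
  have g := lower x h1 c
  have g' := lower x' h1' c'
  -- difference of squares
  have d1 : |‖x‖ ^ 2 - ‖x'‖ ^ 2| ≤ 9 * L * Λ := by
    have : ‖x‖ ^ 2 - ‖x'‖ ^ 2 = (‖x‖ - ‖x'‖) * (‖x‖ + ‖x'‖) := by ring
    rw [this, abs_mul]
    have h1 : |‖x‖ - ‖x'‖| ≤ 2 * L := abs_le.2 ⟨by linarith, by linarith⟩
    have h2 : |‖x‖ + ‖x'‖| ≤ 4.5 * Λ := by
      rw [abs_of_nonneg (by positivity)]
      linarith
    calc |‖x‖ - ‖x'‖| * |‖x‖ + ‖x'‖| ≤ (2 * L) * (4.5 * Λ) :=
          mul_le_mul h1 h2 (abs_nonneg _) (by positivity)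
      _ = 9 * L * Λ := by ring
  have d2 : |pr θ x ^ 2 - pr θ x' ^ 2| ≤ 57 * L * Λ := by
    have : pr θ x ^ 2 - pr θ x' ^ 2 = (pr θ x - pr θ x') * (pr θ x + pr θ x') := by ring
    rw [this, abs_mul]
    have h1 : |pr θ x - pr θ x'| ≤ 14 * L := abs_le.2 ⟨by linarith, by linarith⟩
    have h2 : |pr θ x + pr θ x'| ≤ 57 / 14 * Λ := by
      refine (abs_add_le _ _).trans ?_
      linarith
    calc |pr θ x - pr θ x'| * |pr θ x + pr θ x'| ≤ (14 * L) * (57 / 14 * Λ) :=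
          mul_le_mul h1 h2 (abs_nonneg _) (by positivity)
      _ = 57 * L * Λ := by ring
  have d3 : |tr θ x ^ 2 - tr θ x' ^ 2| ≤ 66 * L * Λ := by
    have : tr θ x ^ 2 - tr θ x' ^ 2 = (‖x‖ ^ 2 - ‖x'‖ ^ 2) - (pr θ x ^ 2 - pr θ x' ^ 2) := by
      rw [← e, ← e']; ring
    rw [this]
    refine (abs_sub _ _).trans ?_
    linarith
  have d4 : |tr θ x + tr θ x'| = |tr θ x| + |tr θ x'| := by
    rcases mul_nonneg_iff.1 h3 with h | h
    · rw [abs_of_nonneg h.1, abs_of_nonneg h.2, abs_of_nonneg (add_nonneg h.1 h.2)]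
    · rw [abs_of_nonpos h.1, abs_of_nonpos h.2, abs_of_nonpos (add_nonpos h.1 h.2)]
      ring
  have d5 : |tr θ x - tr θ x'| ≤ 462 * L := by
    have : tr θ x ^ 2 - tr θ x' ^ 2 = (tr θ x - tr θ x') * (tr θ x + tr θ x') := by ring
    rw [this, abs_mul, d4] at d3
    have h1 : |tr θ x - tr θ x'| * (Λ / 7) ≤ 66 * L * Λ := by
      refine le_trans (mul_le_mul_of_nonneg_left ?_ (abs_nonneg _)) d3
      linarith
    have h2 : |tr θ x - tr θ x'| * Λ ≤ (462 * L) * Λ := by linarith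
    exact le_of_mul_le_mul_right h2 hΛ0
  rw [dist_eq_norm]
  refine (norm_le_abs_pr_add_abs_tr θ _).trans ?_
  rw [pr_sub, tr_sub]
  have h1 : |pr θ x - pr θ x'| ≤ 14 * L := abs_le.2 ⟨by linarith, by linarith⟩
  linarith

/-- `b` and `b'` are lattice-close if their locations are. -/
lemma abs_sub_le_of_dist {X k : ℕ} (hL : 0 < Ls X k) {b b' : ℤ × ℤ} {n : ℕ}
    (h : dist (loc X k b) (loc X k b') ≤ n * Ls X k) :
    |b.1 - b'.1| ≤ n ∧ |b.2 - b'.2| ≤ n := by
  have hL' : (0 : ℝ) < Ls X k := by exact_mod_cast hL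
  have h1 := Complex.abs_re_le_norm (loc X k b - loc X k b')
  have h2 := Complex.abs_im_le_norm (loc X k b - loc X k b')
  rw [← dist_eq_norm] at h1 h2
  have e1 : (loc X k b - loc X k b').re = Ls X k * ((b.1 - b'.1 : ℤ) : ℝ) := by
    simp only [loc, Complex.sub_re]; push_cast; ring
  have e2 : (loc X k b - loc X k b').im = Ls X k * ((b.2 - b'.2 : ℤ) : ℝ) := by
    simp only [loc, Complex.sub_im]; push_cast; ring
  rw [e1, abs_mul, abs_of_pos hL'] at h1
  rw [e2, abs_mul, abs_of_pos hL'] at h2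
  have h3 : Ls X k * |((b.1 - b'.1 : ℤ) : ℝ)| ≤ Ls X k * n := by linarith
  have h4 : Ls X k * |((b.2 - b'.2 : ℤ) : ℝ)| ≤ Ls X k * n := by linarith
  have h5 := le_of_mul_le_mul_left h3 hL'
  have h6 := le_of_mul_le_mul_left h4 hL'
  exact ⟨by exact_mod_cast h5, by exact_mod_cast h6⟩

/-- the constant `C1` may be changed. -/
def C1 : ℕ := 10 ^ 9

/-- the circle `m` is nearly tangent to the line `q`. -/
def Tang (X k : ℕ) (a : ℤ × ℤ) (q : ℝ × ℝ) (m : Fin 85) : Prop :=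
  |(|q.1 - pr q.2 (loc X (k + 1) a)|) - rad X k m| < Ls X (k + 1) / 170

open Classical in
lemma card_tang_le (X k : ℕ) (a : ℤ × ℤ) (q : ℝ × ℝ) :
    (Finset.univ.filter (fun m => Tang X k a q m)).card ≤ 1 := by
  rw [Finset.card_le_one]
  intro m hm m' hm'
  simp only [Finset.mem_filter, Finset.mem_univ, true_and, Tang] at hm hm'
  by_contra hne
  have h1 := rad_sub_rad (X := X) (k := k) hne
  have h2 : |rad X k m - rad X k m'| < Ls X (k + 1) / 85 := by
    have e : rad X k m - rad X k m' = -((|q.1 - pr q.2 (loc X (k + 1) a)|) - rad X k m) +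
      ((|q.1 - pr q.2 (loc X (k + 1) a)|) - rad X k m') := by ring
    rw [e]
    refine (abs_add_le _ _).trans_lt ?_
    rw [abs_neg]
    linarith
  linarith

open Classical in
lemma card_near_le {X : ℕ} (hX : 100 ≤ X) (k : ℕ) (a : ℤ × ℤ) (q : ℝ × ℝ) (m : Fin 85)
    (hm : ¬ Tang X k a q m) (s : Bool) :
    ((Circ X k m a).filter (fun b => q ∈ Near (7 * Ls X k) (loc X k b) ∧
      (if s then 0 ≤ tr q.2 (loc X k b - loc X (k + 1) a) else
        tr q.2 (loc X k b - loc X (k + 1) a) < 0))).card ≤ 10 ^ 6 := by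
  rcases Finset.eq_empty_or_nonempty ((Circ X k m a).filter
    (fun b => q ∈ Near (7 * Ls X k) (loc X k b) ∧
      (if s then 0 ≤ tr q.2 (loc X k b - loc X (k + 1) a) else
        tr q.2 (loc X k b - loc X (k + 1) a) < 0))) with h | ⟨b₀, hb₀⟩
  · rw [h]; simp
  have hL := Ls_ge hX k
  have hL' := Ls_ge_real hX k
  have hsub : ((Circ X k m a).filter (fun b => q ∈ Near (7 * Ls X k) (loc X k b) ∧
      (if s then 0 ≤ tr q.2 (loc X k b - loc X (k + 1) a) else
        tr q.2 (loc X k b - loc X (k + 1) a) < 0))) ⊆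
      (Finset.Icc (b₀.1 - 476) (b₀.1 + 476)) ×ˢ (Finset.Icc (b₀.2 - 476) (b₀.2 + 476)) := by
    intro b hb
    simp only [Finset.mem_filter, Near, Set.mem_ofPred_eq] at hb hb₀
    obtain ⟨hc, hn, hs⟩ := hb
    obtain ⟨hc₀, hn₀, hs₀⟩ := hb₀
    have hc := (mem_Circ.1 hc).2.2
    have hc₀ := (mem_Circ.1 hc₀).2.2
    rw [dist_eq_norm] at hc hc₀
    have key : dist (loc X k b - loc X (k + 1) a) (loc X k b₀ - loc X (k + 1) a) ≤
        476 * Ls X k := by
      refine dist_le_of_near (Λ := Ls X (k + 1)) (R := rad X k m)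
        (ρ := q.1 - pr q.2 (loc X (k + 1) a)) (θ := q.2) (by linarith)
        (big_le hX k) (le_rad X k m) (rad_le X k m) (not_lt.1 hm) hc hc₀ ?_ ?_ ?_
      · rw [pr_sub]
        convert hn using 2
        ring
      · rw [pr_sub]
        convert hn₀ using 2
        ring
      · cases s
        · simp only [Bool.false_eq_true, if_false] at hs hs₀
          exact (mul_pos_of_neg_of_neg hs hs₀).le
        · simp only [if_true] at hs hs₀
          exact mul_nonneg hs hs₀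
    rw [dist_sub_right] at key
    have h0 : 0 < Ls X k := lt_of_lt_of_le (by norm_num) hL
    have h1 := abs_sub_le_of_dist (n := 476) h0 (by exact_mod_cast key)
    have h2 := abs_le.1 h1.1
    have h3 := abs_le.1 h1.2
    simp only [Finset.mem_product, Finset.mem_Icc]
    push_cast at h2 h3
    omega
  refine (Finset.card_le_card hsub).trans ?_
  rw [Finset.card_product, Int.card_Icc, Int.card_Icc]
  have e1 : b₀.1 + 476 + 1 - (b₀.1 - 476) = 953 := by ring
  have e2 : b₀.2 + 476 + 1 - (b₀.2 - 476) = 953 := by ring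
  rw [e1, e2]
  change 953 * 953 ≤ 10 ^ 6
  norm_num

open Classical in
theorem exists_circles {X : ℕ} (hX : 100 ≤ X) (k : ℕ) (a : ℤ × ℤ) (D : List (ℝ × ℝ))
    (hD : D.length < 81) :
    ∃ m : Fin 4 ↪ Fin 85, ∀ j, ((Circ X k (m j) a).filter
      (fun b => ∃ q ∈ D, q ∈ Near (7 * Ls X k) (loc X k b))).card ≤ C1 := by
  set T : Finset (Fin 85) := D.toFinset.biUnion
    (fun q => Finset.univ.filter (fun m => Tang X k a q m)) with hT
  have hDc : D.toFinset.card ≤ 80 := (List.toFinset_card_le D).trans (by omega)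
  have hTc : T.card ≤ 80 := by
    refine (Finset.card_biUnion_le).trans ?_
    refine (Finset.sum_le_sum (fun q _ => card_tang_le X k a q)).trans ?_
    simpa using hDc
  have hTc' : 4 ≤ (Tᶜ).card := by
    rw [Finset.card_compl, Fintype.card_fin]
    omega
  have hne : Nonempty (Fin 4 ↪ {x // x ∈ Tᶜ}) := by
    apply Function.Embedding.nonempty_of_card_le
    rw [Fintype.card_fin, Fintype.card_coe]
    exact hTc'
  obtain ⟨f⟩ := hne
  refine ⟨f.trans (Function.Embedding.subtype _), fun j => ?_⟩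
  have hj : ∀ q ∈ D, ¬ Tang X k a q ((f.trans (Function.Embedding.subtype _)) j) := by
    intro q hq hq'
    have h1 : ((f j : {x // x ∈ Tᶜ}) : Fin 85) ∈ Tᶜ := (f j).2
    rw [Finset.mem_compl] at h1
    have hmem : ∀ m, (∃ q ∈ D, Tang X k a q m) → m ∈ T := by
      rintro m ⟨q, hq, hq'⟩
      rw [hT, Finset.mem_biUnion]
      exact ⟨q, List.mem_toFinset.2 hq, Finset.mem_filter.2 ⟨Finset.mem_univ _, hq'⟩⟩
    exact h1 (hmem _ ⟨q, hq, hq'⟩)
  set m := (f.trans (Function.Embedding.subtype _)) j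
  have hsub : ((Circ X k m a).filter
      (fun b => ∃ q ∈ D, q ∈ Near (7 * Ls X k) (loc X k b))) ⊆
      D.toFinset.biUnion (fun q => (Finset.univ : Finset Bool).biUnion (fun s =>
        (Circ X k m a).filter (fun b => q ∈ Near (7 * Ls X k) (loc X k b) ∧
      (if s then 0 ≤ tr q.2 (loc X k b - loc X (k + 1) a) else
        tr q.2 (loc X k b - loc X (k + 1) a) < 0)))) := by
    intro b hb
    rw [Finset.mem_filter] at hb
    obtain ⟨hb1, q, hq, hb2⟩ := hb
    rw [Finset.mem_biUnion]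
    refine ⟨q, List.mem_toFinset.2 hq, ?_⟩
    rw [Finset.mem_biUnion]
    rcases le_or_gt 0 (tr q.2 (loc X k b - loc X (k + 1) a)) with h | h
    · refine ⟨true, Finset.mem_univ _, ?_⟩
      rw [Finset.mem_filter]
      exact ⟨hb1, hb2, by simpa using h⟩
    · refine ⟨false, Finset.mem_univ _, ?_⟩
      rw [Finset.mem_filter]
      exact ⟨hb1, hb2, by simpa using h⟩
  refine (Finset.card_le_card hsub).trans ?_
  refine Finset.card_biUnion_le.trans ?_
  have h1 : ∀ q ∈ D.toFinset, ((Finset.univ : Finset Bool).biUnion (fun s =>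
        (Circ X k m a).filter (fun b => q ∈ Near (7 * Ls X k) (loc X k b) ∧
      (if s then 0 ≤ tr q.2 (loc X k b - loc X (k + 1) a) else
        tr q.2 (loc X k b - loc X (k + 1) a) < 0)))).card ≤ 2 * 10 ^ 6 := by
    intro q hq
    refine Finset.card_biUnion_le.trans ?_
    refine (Finset.sum_le_sum (fun s _ => card_near_le hX k a q m
      (hj q (List.mem_toFinset.1 hq)) s)).trans ?_
    simp
  refine (Finset.sum_le_sum h1).trans ?_
  rw [Finset.sum_const, smul_eq_mul, C1]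
  calc D.toFinset.card * (2 * 10 ^ 6) ≤ 80 * (2 * 10 ^ 6) := Nat.mul_le_mul_right _ hDc
    _ ≤ 10 ^ 9 := by norm_num

end Pool.Agent.Lib.MP_3e2d90_pr
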