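import Mathlib
import Pool.Agent.Lib.MP_3e2d90_pr.Model
import Pool.Agent.Lib.MP_3e2d90_pr.Nodes

/-!
# The Poisson operator `Phi`
-/

open MeasureTheory ProbabilityTheory Set
open scoped NNReal ENNReal

namespace Pool.Agent.Lib.MP_3e2d90_pr

set_option linter.unusedSectionVars false

section Phi
variable {E M : Type*} [MeasurableSpace E] [AddCommMonoid M]

theorem stepA_mono {ν : Measure E} {h : E → M} {F G : M → ℝ≥0∞} (hFG : ∀ n, F n ≤ G n) (n : M) :
    stepA ν h F n ≤ stepA ν h G n :=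
  lintegral_mono fun _ => hFG _

theorem stepA_iterate_mono {ν : Measure E} {h : E → M} (k : ℕ) {F G : M → ℝ≥0∞}
    (hFG : ∀ n, F n ≤ G n) (n : M) :
    ((stepA ν h)^[k] F) n ≤ ((stepA ν h)^[k] G) n := by
  induction k generalizing n with
  | zero => exact hFG n
  | succ k ih =>
    rw [Function.iterate_succ_apply', Function.iterate_succ_apply']
    exact stepA_mono ih n

theorem Phi_mono {ν : Measure E} {h : E → M} {F G : M → ℝ≥0∞} (hFG : ∀ n, F n ≤ G n) (n : M) :
    Phi ν h F n ≤ Phi ν h G n := by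
  unfold Phi
  gcongr with k
  exact stepA_iterate_mono k hFG n

/-- the exponential series in `ℝ≥0∞` -/
theorem tsum_inv_factorial_mul_pow {a : ℝ≥0∞} (ha : a ≠ ∞) :
    ∑' k : ℕ, ((k.factorial : ℝ≥0∞))⁻¹ * a ^ k = ENNReal.ofReal (Real.exp a.toReal) := by
  rw [Real.exp_eq_exp_ℝ, NormedSpace.exp_eq_tsum_div,
    ENNReal.ofReal_tsum_of_nonneg (fun n => by positivity)
      (Real.summable_pow_div_factorial a.toReal)]
  refine tsum_congr fun k => ?_
  rw [ENNReal.ofReal_div_of_pos (by positivity), ENNReal.ofReal_pow ENNReal.toReal_nonneg,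
    ENNReal.ofReal_toReal ha, ENNReal.ofReal_natCast, ENNReal.div_eq_inv_mul]

theorem ofReal_exp_mul_ofReal_exp (a b : ℝ) :
    ENNReal.ofReal (Real.exp a) * ENNReal.ofReal (Real.exp b) =
      ENNReal.ofReal (Real.exp (a + b)) := by
  rw [← ENNReal.ofReal_mul (Real.exp_nonneg _), Real.exp_add]

/-- eigenfunctions -/
theorem stepA_iterate_eigen {ν : Measure E} {h : E → M} {F : M → ℝ≥0∞} {b : ℝ≥0∞} (hb : b ≠ ∞)
    (hF : ∀ n, stepA ν h F n = b * F n) (k : ℕ) (n : M) :
    ((stepA ν h)^[k] F) n = b ^ k * F n := by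
  induction k generalizing n with
  | zero => simp
  | succ k ih =>
    rw [Function.iterate_succ_apply']
    have h1 : ((stepA ν h)^[k] F) = fun n => b ^ k * F n := funext ih
    rw [h1]
    have h2 : stepA ν h (fun n => b ^ k * F n) n = b ^ k * stepA ν h F n := by
      unfold stepA
      rw [lintegral_const_mul' _ _ (ENNReal.pow_ne_top hb)]
    rw [h2, hF]
    ring

theorem Phi_eigen {ν : Measure E} [IsFiniteMeasure ν] {h : E → M} {F : M → ℝ≥0∞} {b : ℝ≥0∞}
    (hb : b ≠ ∞) (hF : ∀ n, stepA ν h F n = b * F n) (n : M) :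
    Phi ν h F n = ENNReal.ofReal (Real.exp (b.toReal - (ν univ).toReal)) * F n := by
  unfold Phi
  simp_rw [stepA_iterate_eigen hb hF, ← mul_assoc]
  rw [ENNReal.tsum_mul_right, tsum_inv_factorial_mul_pow hb, ← mul_assoc,
    ofReal_exp_mul_ofReal_exp]
  ring_nf

theorem Phi_of_insens {ν : Measure E} [IsFiniteMeasure ν] {h : E → M} {F : M → ℝ≥0∞}
    (hF : ∀ᵐ q ∂ν, ∀ n, F (n + h q) = F n) (n : M) : Phi ν h F n = F n := by
  have h1 : ∀ n, stepA ν h F n = ν univ * F n := by
    intro n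
    unfold stepA
    rw [lintegral_congr_ae (hF.mono fun q hq => hq n), lintegral_const, mul_comm]
  rw [Phi_eigen (measure_ne_top ν univ) h1]
  simp

theorem Phi_const (ν : Measure E) [IsFiniteMeasure ν] (h : E → M) (c : ℝ≥0∞) (n : M) :
    Phi ν h (fun _ => c) n = c :=
  Phi_of_insens (F := fun _ => c) (ae_of_all _ fun _ _ => rfl) n

theorem stepA_shift (ν : Measure E) (h : E → M) (F : M → ℝ≥0∞) (c n : M) :
    stepA ν h (fun m => F (m + c)) n = stepA ν h F (n + c) := by
  unfold stepA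
  refine lintegral_congr fun q => ?_
  rw [add_right_comm]

theorem stepA_iterate_shift (ν : Measure E) (h : E → M) (F : M → ℝ≥0∞) (c : M) (k : ℕ) (n : M) :
    ((stepA ν h)^[k] (fun m => F (m + c))) n = ((stepA ν h)^[k] F) (n + c) := by
  induction k generalizing n with
  | zero => rfl
  | succ k ih =>
    rw [Function.iterate_succ_apply', Function.iterate_succ_apply']
    have h1 : ((stepA ν h)^[k] (fun m => F (m + c))) = fun n => ((stepA ν h)^[k] F) (n + c) :=
      funext ih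
    rw [h1, stepA_shift]

theorem Phi_shift (ν : Measure E) (h : E → M) (F : M → ℝ≥0∞) (c n : M) :
    Phi ν h (fun m => F (m + c)) n = Phi ν h F (n + c) := by
  unfold Phi
  simp_rw [stepA_iterate_shift]

theorem exp_neg_le_one (ν : Measure E) :
    ENNReal.ofReal (Real.exp (-(ν univ).toReal)) ≤ 1 := by
  rw [← ENNReal.ofReal_one]
  refine ENNReal.ofReal_le_ofReal ?_
  rw [Real.exp_le_one_iff]
  simp

/-- if every list of `j` extra points gives at most `b j`, then `Phi ≤ ∑ ν^j b j`. -/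
theorem Phi_le_tsum {ν : Measure E} [IsFiniteMeasure ν] {h : E → M} {B : M → ℝ≥0∞} {n : M}
    {b : ℕ → ℝ≥0∞} (C : Set E) (hC : ∀ᵐ q ∂ν, q ∈ C)
    (hb : ∀ D : List E, (∀ q ∈ D, q ∈ C) → B (n + (D.map h).sum) ≤ b D.length) :
    Phi ν h B n ≤ ∑' j : ℕ, (ν univ) ^ j * b j := by
  have key : ∀ (k : ℕ) (D : List E), (∀ q ∈ D, q ∈ C) →
      ((stepA ν h)^[k] B) (n + (D.map h).sum) ≤ (ν univ) ^ k * b (k + D.length) := by
    intro k
    induction k with
    | zero => intro D hD; simpa using hb D hD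
    | succ k ih =>
      intro D hD
      rw [Function.iterate_succ_apply']
      unfold stepA
      calc ∫⁻ q, ((stepA ν h)^[k] B) (n + (D.map h).sum + h q) ∂ν
          ≤ ∫⁻ q, (ν univ) ^ k * b (k + (D.length + 1)) ∂ν := by
            refine lintegral_mono_ae (hC.mono fun q hq => ?_)
            have := ih (q :: D) (by
              intro q' hq'
              rcases List.mem_cons.1 hq' with rfl | h'
              · exact hq
              · exact hD _ h')
            rw [List.map_cons, List.sum_cons, List.length_cons] at this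
            rwa [add_assoc, add_comm _ (h q)]
        _ = (ν univ) ^ (k + 1) * b (k + 1 + D.length) := by
            rw [lintegral_const, show k + (D.length + 1) = k + 1 + D.length by ring]
            ring
  unfold Phi
  calc ENNReal.ofReal (Real.exp (-(ν univ).toReal)) *
        ∑' k : ℕ, ((k.factorial : ℝ≥0∞))⁻¹ * ((stepA ν h)^[k] B) n
      ≤ 1 * ∑' k : ℕ, 1 * ((ν univ) ^ k * b k) := by
        gcongr with k
        · exact exp_neg_le_one ν
        · rw [ENNReal.inv_le_one]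
          exact_mod_cast Nat.factorial_pos k
        · simpa using key k [] (by simp)
    _ = _ := by simp

variable [MeasurableSpace M] [DiscreteMeasurableSpace M] [Countable M]

theorem measurable_shift_comp {h : E → M} (hh : Measurable h) (F : M → ℝ≥0∞) (n : M) :
    Measurable fun q => F (n + h q) :=
  (Measurable.of_discrete (f := fun m => F (n + m))).comp hh

/-- the one-step operator as an additive endomorphism -/
noncomputable def stepEnd (ν : Measure E) (h : E → M) (hh : Measurable h) :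
    AddMonoid.End (M → ℝ≥0∞) where
  toFun := stepA ν h
  map_zero' := by
    funext n
    simp [stepA]
  map_add' F G := by
    funext n
    simp only [stepA, Pi.add_apply]
    rw [lintegral_add_left (measurable_shift_comp hh F n)]

theorem stepEnd_pow_apply (ν : Measure E) (h : E → M) (hh : Measurable h) (k : ℕ)
    (F : M → ℝ≥0∞) : (stepEnd ν h hh ^ k) F = (stepA ν h)^[k] F := by
  induction k with
  | zero => rfl
  | succ k ih =>
    rw [pow_succ', Function.iterate_succ_apply', ← ih]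
    rfl

theorem stepA_iterate_sum {ι : Type*} (s : Finset ι) (ν : Measure E) {h : E → M}
    (hh : Measurable h) (F : ι → M → ℝ≥0∞) (k : ℕ) (n : M) :
    ((stepA ν h)^[k] (fun m => ∑ i ∈ s, F i m)) n = ∑ i ∈ s, ((stepA ν h)^[k] (F i)) n := by
  have h1 : (fun m => ∑ i ∈ s, F i m) = ∑ i ∈ s, F i := by
    funext m; simp
  rw [h1, ← stepEnd_pow_apply ν h hh, map_sum, Finset.sum_apply]
  simp_rw [stepEnd_pow_apply]

theorem stepA_tsum (ν : Measure E) {h : E → M} (hh : Measurable h) (F : ℕ → M → ℝ≥0∞) (n : M) :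
    stepA ν h (fun m => ∑' i, F i m) n = ∑' i, stepA ν h (F i) n := by
  unfold stepA
  rw [lintegral_tsum fun i => (measurable_shift_comp hh (F i) n).aemeasurable]

theorem stepA_iterate_tsum (ν : Measure E) {h : E → M} (hh : Measurable h) (F : ℕ → M → ℝ≥0∞)
    (k : ℕ) (n : M) :
    ((stepA ν h)^[k] (fun m => ∑' i, F i m)) n = ∑' i, ((stepA ν h)^[k] (F i)) n := by
  induction k generalizing n with
  | zero => rfl
  | succ k ih =>
    simp_rw [Function.iterate_succ_apply']
    rw [show ((stepA ν h)^[k] (fun m => ∑' i, F i m)) = fun n => ∑' i, ((stepA ν h)^[k] (F i)) n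
      from funext ih, stepA_tsum ν hh]

theorem stepA_const_mul (ν : Measure E) {h : E → M} (hh : Measurable h) (c : ℝ≥0∞)
    (F : M → ℝ≥0∞) (n : M) : stepA ν h (fun m => c * F m) n = c * stepA ν h F n := by
  unfold stepA
  rw [lintegral_const_mul _ (measurable_shift_comp hh F n)]

theorem stepA_iterate_const_mul (ν : Measure E) {h : E → M} (hh : Measurable h) (c : ℝ≥0∞)
    (F : M → ℝ≥0∞) (k : ℕ) (n : M) :
    ((stepA ν h)^[k] (fun m => c * F m)) n = c * ((stepA ν h)^[k] F) n := by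
  induction k generalizing n with
  | zero => rfl
  | succ k ih =>
    simp_rw [Function.iterate_succ_apply']
    rw [show ((stepA ν h)^[k] (fun m => c * F m)) = fun n => c * ((stepA ν h)^[k] F) n
      from funext ih, stepA_const_mul ν hh]

theorem Phi_const_mul (ν : Measure E) {h : E → M} (hh : Measurable h) (c : ℝ≥0∞)
    (F : M → ℝ≥0∞) (n : M) : Phi ν h (fun m => c * F m) n = c * Phi ν h F n := by
  unfold Phi
  simp_rw [stepA_iterate_const_mul ν hh, mul_left_comm _ c]
  rw [ENNReal.tsum_mul_left, mul_left_comm]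

theorem Phi_sum {ι : Type*} (s : Finset ι) (ν : Measure E) {h : E → M} (hh : Measurable h)
    (F : ι → M → ℝ≥0∞) (n : M) :
    Phi ν h (fun m => ∑ i ∈ s, F i m) n = ∑ i ∈ s, Phi ν h (F i) n := by
  unfold Phi
  simp_rw [stepA_iterate_sum s ν hh, Finset.mul_sum]
  rw [Summable.tsum_finsetSum (fun i _ => ENNReal.summable), Finset.mul_sum]

theorem stepEnd_comm (ν₁ ν₂ : Measure E) [IsFiniteMeasure ν₁] [IsFiniteMeasure ν₂] {h : E → M}
    (hh : Measurable h) : Commute (stepEnd ν₁ h hh) (stepEnd ν₂ h hh) := by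
  refine AddMonoidHom.ext fun F => ?_
  funext n
  change ∫⁻ q₁, ∫⁻ q₂, F (n + h q₁ + h q₂) ∂ν₂ ∂ν₁ = ∫⁻ q₂, ∫⁻ q₁, F (n + h q₂ + h q₁) ∂ν₁ ∂ν₂
  rw [lintegral_lintegral_swap]
  · simp_rw [add_right_comm]
  · refine Measurable.aemeasurable ?_
    have h1 : Measurable fun p : M × M => F (n + p.1 + p.2) := Measurable.of_discrete
    exact h1.comp (hh.prodMap hh)

theorem stepEnd_add (ν₁ ν₂ : Measure E) {h : E → M} (hh : Measurable h) :
    stepEnd (ν₁ + ν₂) h hh = stepEnd ν₁ h hh + stepEnd ν₂ h hh := by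
  refine AddMonoidHom.ext fun F => ?_
  funext n
  change ∫⁻ q, F (n + h q) ∂(ν₁ + ν₂) = (∫⁻ q, F (n + h q) ∂ν₁) + ∫⁻ q, F (n + h q) ∂ν₂
  rw [lintegral_add_measure]

theorem Phi_add (ν₁ ν₂ : Measure E) [IsFiniteMeasure ν₁] [IsFiniteMeasure ν₂] {h : E → M}
    (hh : Measurable h) (F : M → ℝ≥0∞) (n : M) :
    Phi (ν₁ + ν₂) h F n = Phi ν₁ h (Phi ν₂ h F) n := by
  have hA : ∀ k : ℕ, ((k.factorial : ℝ≥0∞))⁻¹ * ((stepA (ν₁ + ν₂) h)^[k] F) n =
      ∑ p ∈ Finset.HasAntidiagonal.antidiagonal k,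
        ((p.1.factorial : ℝ≥0∞))⁻¹ * (((p.2.factorial : ℝ≥0∞))⁻¹ *
        ((stepA ν₁ h)^[p.1] ((stepA ν₂ h)^[p.2] F)) n) := by
    intro k
    rw [← stepEnd_pow_apply (ν₁ + ν₂) h hh, stepEnd_add ν₁ ν₂ hh,
      (stepEnd_comm ν₁ ν₂ hh).add_pow']
    have h0 : (∑ p ∈ Finset.HasAntidiagonal.antidiagonal k,
          k.choose p.1 • (stepEnd ν₁ h hh ^ p.1 * stepEnd ν₂ h hh ^ p.2)) F n =
        ∑ p ∈ Finset.HasAntidiagonal.antidiagonal k,
          (k.choose p.1 • (stepEnd ν₁ h hh ^ p.1 * stepEnd ν₂ h hh ^ p.2)) F n := by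
      have := AddMonoidHom.finsetSum_apply (M := M → ℝ≥0∞) (N := M → ℝ≥0∞)
        (fun p : ℕ × ℕ => (k.choose p.1 • (stepEnd ν₁ h hh ^ p.1 * stepEnd ν₂ h hh ^ p.2) :
          AddMonoid.End (M → ℝ≥0∞))) (Finset.HasAntidiagonal.antidiagonal k) F
      refine (congrFun this n).trans ?_
      rw [Finset.sum_apply]
      rfl
    rw [h0, Finset.mul_sum]
    refine Finset.sum_congr rfl fun p hp => ?_
    have h1 : ((k.choose p.1 • (stepEnd ν₁ h hh ^ p.1 * stepEnd ν₂ h hh ^ p.2)) F) n =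
        (k.choose p.1 : ℝ≥0∞) * ((stepA ν₁ h)^[p.1] ((stepA ν₂ h)^[p.2] F)) n := by
      rw [← stepEnd_pow_apply ν₁ h hh, ← stepEnd_pow_apply ν₂ h hh, ← nsmul_eq_mul]
      rfl
    rw [h1]
    have hp' : p.1 + p.2 = k := Finset.HasAntidiagonal.mem_antidiagonal.1 hp
    subst hp'
    have h2 : ((p.1 + p.2).choose p.1 : ℝ≥0∞) * p.1.factorial * p.2.factorial =
        (p.1 + p.2).factorial := by
      have := Nat.choose_mul_factorial_mul_factorial (Nat.le_add_right p.1 p.2)
      rw [Nat.add_sub_cancel_left] at this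
      exact_mod_cast this
    have e1 : ((p.1.factorial : ℝ≥0∞)) ≠ 0 := by exact_mod_cast (Nat.factorial_pos _).ne'
    have e2 : ((p.2.factorial : ℝ≥0∞)) ≠ 0 := by exact_mod_cast (Nat.factorial_pos _).ne'
    have e3 : (((p.1 + p.2).factorial : ℝ≥0∞)) ≠ 0 := by exact_mod_cast (Nat.factorial_pos _).ne'
    have h3 : (((p.1 + p.2).factorial : ℝ≥0∞))⁻¹ * ((p.1 + p.2).choose p.1 : ℝ≥0∞) =
        ((p.1.factorial : ℝ≥0∞))⁻¹ * ((p.2.factorial : ℝ≥0∞))⁻¹ := by
      have e4 : ((p.1.factorial : ℝ≥0∞)) * ((p.1.factorial : ℝ≥0∞))⁻¹ = 1 :=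
        ENNReal.mul_inv_cancel e1 (ENNReal.natCast_ne_top _)
      have e5 : ((p.2.factorial : ℝ≥0∞)) * ((p.2.factorial : ℝ≥0∞))⁻¹ = 1 :=
        ENNReal.mul_inv_cancel e2 (ENNReal.natCast_ne_top _)
      have e6 : (((p.1 + p.2).factorial : ℝ≥0∞))⁻¹ * (((p.1 + p.2).factorial : ℝ≥0∞)) = 1 :=
        ENNReal.inv_mul_cancel e3 (ENNReal.natCast_ne_top _)
      calc (((p.1 + p.2).factorial : ℝ≥0∞))⁻¹ * ((p.1 + p.2).choose p.1 : ℝ≥0∞)
          = (((p.1 + p.2).factorial : ℝ≥0∞))⁻¹ * ((p.1 + p.2).choose p.1 : ℝ≥0∞) *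
            (((p.1.factorial : ℝ≥0∞)) * ((p.1.factorial : ℝ≥0∞))⁻¹) *
            (((p.2.factorial : ℝ≥0∞)) * ((p.2.factorial : ℝ≥0∞))⁻¹) := by
            rw [e4, e5, mul_one, mul_one]
        _ = (((p.1 + p.2).factorial : ℝ≥0∞))⁻¹ * (((p.1 + p.2).choose p.1 : ℝ≥0∞) *
              p.1.factorial * p.2.factorial) * (((p.1.factorial : ℝ≥0∞))⁻¹ *
              ((p.2.factorial : ℝ≥0∞))⁻¹) := by ring
        _ = _ := by rw [h2, e6, one_mul]
    rw [← mul_assoc, h3, mul_assoc]
  have hsum : ∑' k : ℕ, ((k.factorial : ℝ≥0∞))⁻¹ * ((stepA (ν₁ + ν₂) h)^[k] F) n =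
      ∑' i : ℕ, ∑' j : ℕ, ((i.factorial : ℝ≥0∞))⁻¹ * (((j.factorial : ℝ≥0∞))⁻¹ *
        ((stepA ν₁ h)^[i] ((stepA ν₂ h)^[j] F)) n) := by
    simp_rw [hA]
    rw [← ENNReal.tsum_prod (f := fun i j => ((i.factorial : ℝ≥0∞))⁻¹ *
      (((j.factorial : ℝ≥0∞))⁻¹ * ((stepA ν₁ h)^[i] ((stepA ν₂ h)^[j] F)) n))]
    rw [← (Finset.HasAntidiagonal.sigmaAntidiagonalEquivProd (A := ℕ)).tsum_eq, ENNReal.tsum_sigma']
    refine tsum_congr fun k => ?_
    rw [tsum_fintype, Finset.sum_coe_sort_eq_attach, ← Finset.sum_attach]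
    rfl
  have hexp : ENNReal.ofReal (Real.exp (-((ν₁ + ν₂) univ).toReal)) =
      ENNReal.ofReal (Real.exp (-(ν₁ univ).toReal)) *
        ENNReal.ofReal (Real.exp (-(ν₂ univ).toReal)) := by
    rw [ofReal_exp_mul_ofReal_exp, Measure.add_apply,
      ENNReal.toReal_add (measure_ne_top _ _) (measure_ne_top _ _), neg_add]
  unfold Phi
  rw [hexp, hsum, mul_assoc, ← ENNReal.tsum_mul_left]
  congr 1
  refine tsum_congr fun i => ?_
  rw [stepA_iterate_const_mul ν₁ hh, stepA_iterate_tsum ν₁ hh, mul_left_comm,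
    ENNReal.tsum_mul_left]
  simp_rw [stepA_iterate_const_mul ν₁ hh]

/-- multiplication by a function not sensitive to the points -/
theorem stepA_iterate_mul_of_insens {ν : Measure E} {h : E → M} (hh : Measurable h)
    {F G : M → ℝ≥0∞} (hG : ∀ᵐ q ∂ν, ∀ n, G (n + h q) = G n) (k : ℕ) (n : M) :
    ((stepA ν h)^[k] (fun m => F m * G m)) n = ((stepA ν h)^[k] F) n * G n := by
  induction k generalizing n with
  | zero => rfl
  | succ k ih =>
    simp_rw [Function.iterate_succ_apply']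
    rw [show ((stepA ν h)^[k] (fun m => F m * G m)) = fun n => ((stepA ν h)^[k] F) n * G n
      from funext ih]
    unfold stepA
    rw [← lintegral_mul_const _ (measurable_shift_comp hh _ n)]
    exact lintegral_congr_ae (hG.mono fun q hq => by simp only [hq n])

theorem Phi_mul_of_insens {ν : Measure E} {h : E → M} (hh : Measurable h)
    {F G : M → ℝ≥0∞} (hG : ∀ᵐ q ∂ν, ∀ n, G (n + h q) = G n) (n : M) :
    Phi ν h (fun m => F m * G m) n = Phi ν h F n * G n := by
  unfold Phi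
  simp_rw [stepA_iterate_mul_of_insens hh hG, ← mul_assoc]
  rw [ENNReal.tsum_mul_right, mul_assoc]

theorem Phi_insens {ν : Measure E} {h : E → M} {F : M → ℝ≥0∞} {c : M}
    (hF : ∀ n, F (n + c) = F n) (n : M) : Phi ν h F (n + c) = Phi ν h F n := by
  rw [← Phi_shift]
  simp_rw [hF]

theorem measurableSet_insens {h : E → M} (hh : Measurable h) (F : M → ℝ≥0∞) :
    MeasurableSet {q | ∀ n, F (n + h q) = F n} :=
  hh (MeasurableSet.of_discrete (s := {c : M | ∀ n, F (n + c) = F n}))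

theorem Phi_mul {ν : Measure E} [IsFiniteMeasure ν] {h : E → M} (hh : Measurable h)
    {F G : M → ℝ≥0∞}
    (hFG : ∀ᵐ q ∂ν, (∀ n, F (n + h q) = F n) ∨ (∀ n, G (n + h q) = G n)) (n : M) :
    Phi ν h (fun m => F m * G m) n = Phi ν h F n * Phi ν h G n := by
  set C : Set E := {q | ∀ n, F (n + h q) = F n} with hC
  have hCm : MeasurableSet C := measurableSet_insens hh F
  have hν : ν = ν.restrict C + ν.restrict Cᶜ := (Measure.restrict_add_restrict_compl hCm).symm
  have hF1 : ∀ᵐ q ∂(ν.restrict C), ∀ n, F (n + h q) = F n := by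
    rw [ae_restrict_iff' hCm]
    exact ae_of_all _ fun q hq => hq
  have hG1 : ∀ᵐ q ∂(ν.restrict Cᶜ), ∀ n, G (n + h q) = G n := by
    rw [ae_restrict_iff' hCm.compl]
    filter_upwards [hFG] with q hq hqC
    exact hq.resolve_left hqC
  have e1 : Phi ν h (fun m => F m * G m) n =
      Phi (ν.restrict C) h G n * Phi (ν.restrict Cᶜ) h F n := by
    conv_lhs => rw [hν]
    rw [Phi_add _ _ hh]
    have h1 : Phi (ν.restrict Cᶜ) h (fun m => F m * G m) =
        fun m => G m * Phi (ν.restrict Cᶜ) h F m := by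
      funext m
      rw [Phi_mul_of_insens hh hG1, mul_comm]
    rw [h1, Phi_mul_of_insens hh]
    filter_upwards [hF1] with q hq m
    exact Phi_insens hq m
  have e2 : Phi ν h F n = Phi (ν.restrict Cᶜ) h F n := by
    conv_lhs => rw [hν]
    rw [Phi_add _ _ hh, Phi_of_insens]
    filter_upwards [hF1] with q hq m
    exact Phi_insens hq m
  have e3 : Phi ν h G n = Phi (ν.restrict C) h G n := by
    conv_lhs => rw [hν, add_comm]
    rw [Phi_add _ _ hh, Phi_of_insens]
    filter_upwards [hG1] with q hq m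
    exact Phi_insens hq m
  rw [e1, e2, e3, mul_comm]

theorem Phi_prod_finset {ι : Type*} (s : Finset ι) (ν : Measure E) [IsFiniteMeasure ν] {h : E → M}
    (hh : Measurable h) (G : ι → M → ℝ≥0∞)
    (hG : ∀ᵐ q ∂ν, ∀ i ∈ s, ∀ j ∈ s, i ≠ j →
      (∀ n, G i (n + h q) = G i n) ∨ (∀ n, G j (n + h q) = G j n))
    (n : M) : Phi ν h (fun m => ∏ i ∈ s, G i m) n = ∏ i ∈ s, Phi ν h (G i) n := by
  classical
  induction s using Finset.induction_on with
  | empty => simp [Phi_const]
  | insert a s ha ih =>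
    simp_rw [Finset.prod_insert ha]
    rw [Phi_mul hh, ih]
    · filter_upwards [hG] with q hq i hi j hj
      exact hq i (Finset.mem_insert_of_mem hi) j (Finset.mem_insert_of_mem hj)
    · filter_upwards [hG] with q hq
      by_cases h1 : ∀ n, G a (n + h q) = G a n
      · exact Or.inl h1
      · right
        intro m
        refine Finset.prod_congr rfl fun j hj => ?_
        have h2 := hq a (Finset.mem_insert_self _ _) j (Finset.mem_insert_of_mem hj)
          (fun h => ha (h ▸ hj))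
        exact (h2.resolve_left h1) m

theorem Phi_prod {ι : Type*} [Fintype ι] (ν : Measure E) [IsFiniteMeasure ν] {h : E → M}
    (hh : Measurable h) (G : ι → M → ℝ≥0∞)
    (hG : ∀ᵐ q ∂ν, ∀ i j, i ≠ j → (∀ n, G i (n + h q) = G i n) ∨ (∀ n, G j (n + h q) = G j n))
    (n : M) : Phi ν h (fun m => ∏ i, G i m) n = ∏ i, Phi ν h (G i) n := by
  refine Phi_prod_finset Finset.univ ν hh G ?_ n
  filter_upwards [hG] with q hq i _ j _
  exact hq i j

theorem le_Phi {ν : Measure E} [IsFiniteMeasure ν] {h : E → M} {F : M → ℝ≥0∞}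
    (hF : ∀ n q, F n ≤ F (n + h q)) (n : M) : F n ≤ Phi ν h F n := by
  have key : ∀ (k : ℕ) (n : M), (ν univ) ^ k * F n ≤ ((stepA ν h)^[k] F) n := by
    intro k
    induction k with
    | zero => intro n; simp
    | succ k ih =>
      intro n
      rw [Function.iterate_succ_apply']
      calc (ν univ) ^ (k + 1) * F n = ∫⁻ _, (ν univ) ^ k * F n ∂ν := by
            rw [lintegral_const]; ring
        _ ≤ ∫⁻ q, ((stepA ν h)^[k] F) (n + h q) ∂ν :=
            lintegral_mono fun q => (mul_le_mul_right (hF n q) _).trans (ih _)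
  unfold Phi
  calc F n = ENNReal.ofReal (Real.exp (-(ν univ).toReal)) *
        ∑' k : ℕ, ((k.factorial : ℝ≥0∞))⁻¹ * ((ν univ) ^ k * F n) := by
        simp_rw [← mul_assoc]
        rw [ENNReal.tsum_mul_right, tsum_inv_factorial_mul_pow (measure_ne_top _ _), ← mul_assoc,
          ofReal_exp_mul_ofReal_exp]
        simp
    _ ≤ _ := by
        gcongr with k
        exact key k n

theorem Phi_le {ν : Measure E} [IsFiniteMeasure ν] {h : E → M} {F : M → ℝ≥0∞}
    (hF : ∀ n q, F (n + h q) ≤ F n) (n : M) : Phi ν h F n ≤ F n := by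
  have key : ∀ (k : ℕ) (n : M), ((stepA ν h)^[k] F) n ≤ (ν univ) ^ k * F n := by
    intro k
    induction k with
    | zero => intro n; simp
    | succ k ih =>
      intro n
      rw [Function.iterate_succ_apply']
      calc ∫⁻ q, ((stepA ν h)^[k] F) (n + h q) ∂ν ≤ ∫⁻ _, (ν univ) ^ k * F n ∂ν :=
            lintegral_mono fun q => (ih _).trans (mul_le_mul_right (hF n q) _)
        _ = (ν univ) ^ (k + 1) * F n := by
            rw [lintegral_const]; ring
  unfold Phi
  calc _ ≤ ENNReal.ofReal (Real.exp (-(ν univ).toReal)) *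
        ∑' k : ℕ, ((k.factorial : ℝ≥0∞))⁻¹ * ((ν univ) ^ k * F n) := by
        gcongr with k
        exact key k n
    _ = F n := by
        simp_rw [← mul_assoc]
        rw [ENNReal.tsum_mul_right, tsum_inv_factorial_mul_pow (measure_ne_top _ _), ← mul_assoc,
          ofReal_exp_mul_ofReal_exp]
        simp

theorem Phi_restrict_le (ν : Measure E) [IsFiniteMeasure ν] {h : E → M} (hh : Measurable h)
    {F : M → ℝ≥0∞} (hF : ∀ n q, F n ≤ F (n + h q)) {C : Set E} (hC : MeasurableSet C) (n : M) :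
    Phi (ν.restrict C) h F n ≤ Phi ν h F n := by
  conv_rhs => rw [← Measure.restrict_add_restrict_compl hC (μ := ν)]
  rw [Phi_add _ _ hh]
  exact Phi_mono (le_Phi hF) n

theorem Phi_le_restrict (ν : Measure E) [IsFiniteMeasure ν] {h : E → M} (hh : Measurable h)
    {F : M → ℝ≥0∞} (hF : ∀ n q, F (n + h q) ≤ F n) {C : Set E} (hC : MeasurableSet C) (n : M) :
    Phi ν h F n ≤ Phi (ν.restrict C) h F n := by
  conv_lhs => rw [← Measure.restrict_add_restrict_compl hC (μ := ν)]
  rw [Phi_add _ _ hh]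
  exact Phi_mono (Phi_le hF) n

theorem tsum_inv_factorial_mul_pow_mul {a : ℝ≥0∞} (ha : a ≠ ∞) :
    ∑' k : ℕ, ((k.factorial : ℝ≥0∞))⁻¹ * (a ^ k * k) =
      a * ENNReal.ofReal (Real.exp a.toReal) := by
  rw [tsum_eq_zero_add' ENNReal.summable, ← tsum_inv_factorial_mul_pow ha, ← ENNReal.tsum_mul_left]
  simp only [Nat.factorial_zero, Nat.cast_one, inv_one, pow_zero, Nat.cast_zero, mul_zero,
    zero_add]
  refine tsum_congr fun k => ?_
  rw [Nat.factorial_succ, Nat.cast_mul, ENNReal.mul_inv (Or.inl (by positivity))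
    (Or.inl (ENNReal.natCast_ne_top _)), pow_succ]
  have h1 : ((k + 1 : ℕ) : ℝ≥0∞)⁻¹ * ((k + 1 : ℕ) : ℝ≥0∞) = 1 :=
    ENNReal.inv_mul_cancel (by positivity) (ENNReal.natCast_ne_top _)
  calc ((k + 1 : ℕ) : ℝ≥0∞)⁻¹ * (k.factorial : ℝ≥0∞)⁻¹ * (a ^ k * a * ((k + 1 : ℕ) : ℝ≥0∞))
      = (((k + 1 : ℕ) : ℝ≥0∞)⁻¹ * ((k + 1 : ℕ) : ℝ≥0∞)) *
        (a * ((k.factorial : ℝ≥0∞)⁻¹ * a ^ k)) := by ring
    _ = _ := by rw [h1, one_mul]

/-- base case small `λ` : a functional increasing by at most `c` at points of `H`. -/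
theorem Phi_le_linear (ν : Measure E) [IsFiniteMeasure ν] {h : E → M} (hh : Measurable h)
    {F : M → ℝ≥0∞} {c : ℝ≥0∞} {H : Set E} (hH : MeasurableSet H)
    (h1 : ∀ n, ∀ q ∈ H, F (n + h q) ≤ F n + c) (h2 : ∀ n, ∀ q ∉ H, F (n + h q) = F n) (n : M) :
    Phi ν h F n ≤ F n + c * ν H := by
  have e1 : Phi ν h F n = Phi (ν.restrict H) h F n := by
    conv_lhs => rw [← Measure.restrict_add_restrict_compl hH (μ := ν)]
    rw [Phi_add _ _ hh]
    congr 1
    funext m
    rw [Phi_of_insens]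
    rw [ae_restrict_iff' hH.compl]
    exact ae_of_all _ fun q hq n => h2 n q hq
  rw [e1]
  have hmem : ∀ᵐ q ∂(ν.restrict H), q ∈ H := ae_restrict_mem hH
  have key : ∀ (k : ℕ) (n : M), ((stepA (ν.restrict H) h)^[k] F) n ≤
      (ν H) ^ k * (F n + k * c) := by
    intro k
    induction k with
    | zero => intro n; simp
    | succ k ih =>
      intro n
      rw [Function.iterate_succ_apply']
      calc ∫⁻ q, ((stepA (ν.restrict H) h)^[k] F) (n + h q) ∂(ν.restrict H)
          ≤ ∫⁻ _, (ν H) ^ k * (F n + (k + 1 : ℕ) * c) ∂(ν.restrict H) := by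
            refine lintegral_mono_ae (hmem.mono fun q hq => (ih _).trans ?_)
            refine mul_le_mul_right ?_ _
            calc F (n + h q) + k * c ≤ F n + c + k * c := by gcongr; exact h1 n q hq
              _ = F n + (k + 1 : ℕ) * c := by push_cast; ring
        _ = (ν H) ^ (k + 1) * (F n + (k + 1 : ℕ) * c) := by
            rw [lintegral_const, Measure.restrict_apply_univ]; ring
  unfold Phi
  have hfin : ν H ≠ ∞ := measure_ne_top _ _
  calc _ ≤ ENNReal.ofReal (Real.exp (-((ν.restrict H) univ).toReal)) *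
        ∑' k : ℕ, ((k.factorial : ℝ≥0∞))⁻¹ * ((ν H) ^ k * (F n + k * c)) := by
        gcongr with k
        exact key k n
    _ = ENNReal.ofReal (Real.exp (-(ν H).toReal)) *
        (∑' k : ℕ, (((k.factorial : ℝ≥0∞))⁻¹ * (ν H) ^ k * F n +
          ((k.factorial : ℝ≥0∞))⁻¹ * ((ν H) ^ k * k) * c)) := by
        rw [Measure.restrict_apply_univ]
        congr 1
        refine tsum_congr fun k => ?_
        ring
    _ = ENNReal.ofReal (Real.exp (-(ν H).toReal)) * ENNReal.ofReal (Real.exp (ν H).toReal) *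
        (F n + c * ν H) := by
        rw [ENNReal.tsum_add, ENNReal.tsum_mul_right, ENNReal.tsum_mul_right,
          tsum_inv_factorial_mul_pow hfin, tsum_inv_factorial_mul_pow_mul hfin]
        ring
    _ = F n + c * ν H := by
        rw [ofReal_exp_mul_ofReal_exp]
        simp

/-- base case large `λ` : a functional halved at points of `H`. -/
theorem Phi_half (ν : Measure E) [IsFiniteMeasure ν] {h : E → M} (hh : Measurable h)
    {F : M → ℝ≥0∞} {H : Set E} (hH : MeasurableSet H)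
    (h1 : ∀ n, ∀ q ∈ H, F (n + h q) = 2⁻¹ * F n) (h2 : ∀ n, ∀ q ∉ H, F (n + h q) = F n) (n : M) :
    Phi ν h F n = ENNReal.ofReal (Real.exp (-(ν H).toReal / 2)) * F n := by
  have e1 : Phi ν h F n = Phi (ν.restrict H) h F n := by
    conv_lhs => rw [← Measure.restrict_add_restrict_compl hH (μ := ν)]
    rw [Phi_add _ _ hh]
    congr 1
    funext m
    rw [Phi_of_insens]
    rw [ae_restrict_iff' hH.compl]
    exact ae_of_all _ fun q hq n => h2 n q hq
  rw [e1]
  have hmem : ∀ᵐ q ∂(ν.restrict H), q ∈ H := ae_restrict_mem hH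
  have h3 : ∀ n, stepA (ν.restrict H) h F n = (2⁻¹ * ν H) * F n := by
    intro n
    unfold stepA
    rw [lintegral_congr_ae (hmem.mono fun q hq => h1 n q hq), lintegral_const,
      Measure.restrict_apply_univ]
    ring
  rw [Phi_eigen (ENNReal.mul_ne_top (by simp) (measure_ne_top _ _)) h3,
    Measure.restrict_apply_univ, ENNReal.toReal_mul]
  congr 3
  simp
  ring

end Phi

end Pool.Agent.Lib.MP_3e2d90_pr
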