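import Mathlib
import Pool.Agent.Lib.MP_3e2d90_pr.Basic
import Pool.Agent.Lib.MP_3e2d90_pr.Phi

/-!
# Hitting counts
-/

open MeasureTheory ProbabilityTheory Set
open scoped NNReal ENNReal

namespace Pool.Agent.Lib.MP_3e2d90_pr

theorem measurable_hit {α : Type*} (W : Finset α) {H : α → Set (ℝ × ℝ)}
    (hH : ∀ z, MeasurableSet (H z)) : Measurable (hit W H) := by
  classical
  refine measurable_pi_lambda _ fun z => ?_
  exact Measurable.ite (hH z) measurable_const measurable_const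

lemma ext_add {α : Type*} {W : Finset α} (n n' : W → ℕ) (z : α) :
    ext (n + n') z = ext n z + ext n' z := by
  classical
  unfold ext
  split_ifs <;> simp

lemma ext_zero {α : Type*} {W : Finset α} (z : α) : ext (0 : W → ℕ) z = 0 := by
  classical
  unfold ext
  split_ifs <;> simp

lemma ext_hit_of_not_mem {α : Type*} {W : Finset α} {H : α → Set (ℝ × ℝ)} {q : ℝ × ℝ} {z : α}
    (hq : q ∉ H z) : ext (hit W H q) z = 0 := by
  classical
  unfold ext hit
  split_ifs <;> simp_all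

lemma ext_hit_le_one {α : Type*} {W : Finset α} {H : α → Set (ℝ × ℝ)} {q : ℝ × ℝ} {z : α} :
    ext (hit W H q) z ≤ 1 := by
  classical
  unfold ext hit
  split_ifs <;> simp_all

lemma ext_hit_of_mem {α : Type*} {W : Finset α} {H : α → Set (ℝ × ℝ)} {q : ℝ × ℝ} {z : α}
    (hz : z ∈ W) (hq : q ∈ H z) : ext (hit W H q) z = 1 := by
  classical
  unfold ext hit
  simp_all

lemma ext_sum_hit_le {α : Type*} {W : Finset α} {H : α → Set (ℝ × ℝ)} (D : List (ℝ × ℝ)) {z : α} :
    ext ((D.map (hit W H)).sum) z ≤ D.length := by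
  induction D with
  | nil => simp [ext_zero]
  | cons q D ih =>
    simp only [List.map_cons, List.sum_cons, List.length_cons, ext_add]
    have := ext_hit_le_one (W := W) (H := H) (q := q) (z := z)
    omega

lemma restrict_add {E : Type*} [MeasurableSpace E] (ν : Measure E) {C : Set E}
    (hC : MeasurableSet C) :
    ν.restrict C + ν.restrict Cᶜ = ν := Measure.restrict_add_restrict_compl hC

lemma Phi_le_one {E M : Type*} [MeasurableSpace E] [AddCommMonoid M] {ν : Measure E}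
    [IsFiniteMeasure ν] {h : E → M} {F : M → ℝ≥0∞}
    (hF : ∀ n, F n ≤ 1) (n : M) : Phi ν h F n ≤ 1 :=
  (Phi_mono hF n).trans_eq (Phi_const ν h 1 n)

/-- a line near a level-0 node close to the level-`k` node `b` is near `b` -/
lemma near_of_near {X : ℕ} (hX : 100 ≤ X) {k : ℕ} {z b : ℤ × ℤ} {r : ℝ} {q : ℝ × ℝ}
    (hz : dist (loc X 0 z) (loc X k b) ≤ 3 * Ls X k) (hr : r ≤ 4 * Ls X 0)
    (hq : q ∈ Near r (loc X 0 z)) : q ∈ Near (7 * Ls X k) (loc X k b) := by
  have h1 : |q.1 - pr q.2 (loc X 0 z)| ≤ r := hq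
  have h2 : |pr q.2 (loc X 0 z - loc X k b)| ≤ ‖loc X 0 z - loc X k b‖ := abs_pr_le _ _
  rw [pr_sub, ← dist_eq_norm] at h2
  have h3 := Ls_mono_zero hX k
  change |q.1 - pr q.2 (loc X k b)| ≤ 7 * Ls X k
  have h4 : q.1 - pr q.2 (loc X k b) = (q.1 - pr q.2 (loc X 0 z)) +
      (pr q.2 (loc X 0 z) - pr q.2 (loc X k b)) := by ring
  rw [h4]
  refine (abs_add_le _ _).trans ?_
  linarith

end Pool.Agent.Lib.MP_3e2d90_pr
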