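import Mathlib
import Pool.Agent.Lib.MP_3e2d90_pr.Nodes

/-!
# Measures of sets of lines
-/

open MeasureTheory ProbabilityTheory Set
open scoped NNReal ENNReal

namespace Pool.Agent.Lib.MP_3e2d90_pr

lemma measurable_pr_snd (z : ℂ) : Measurable (fun q : ℝ × ℝ => pr q.2 z) := by
  unfold pr
  fun_prop

theorem measurableSet_Near (r : ℝ) (z : ℂ) : MeasurableSet (Near r z) := by
  unfold Near
  refine measurableSet_le ?_ measurable_const
  exact (measurable_fst.sub (measurable_pr_snd z)).norm

theorem measurableSet_Tset (X : ℕ) (t : Bool) (z : ℤ × ℤ) : MeasurableSet (Tset X t z) := by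
  have h1 : MeasurableSet {q : ℝ × ℝ | |q.1 - pr q.2 (loc X 0 z)| ≤ Ls X 0 / 8} :=
    measurableSet_le (measurable_fst.sub (measurable_pr_snd _)).norm measurable_const
  have h2 : MeasurableSet {q : ℝ × ℝ | |if t then Real.sin q.2 else Real.cos q.2| ≤ 1 / 5} := by
    cases t
    · simp only [Bool.false_eq_true, if_false]
      exact measurableSet_le (Real.measurable_cos.comp measurable_snd).norm measurable_const
    · simp only [if_true]
      exact measurableSet_le (Real.measurable_sin.comp measurable_snd).norm measurable_const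
  exact h1.inter h2

/-- the union of the cells of `S` -/
def US (S : Finset ℤ) : Set ℝ := ⋃ m ∈ S, Ico (m : ℝ) (m + 1)

lemma measurableSet_US (S : Finset ℤ) : MeasurableSet (US S) :=
  Finset.measurableSet_biUnion _ fun _ _ => measurableSet_Ico

lemma mem_US {S : Finset ℤ} {x : ℝ} : x ∈ US S ↔ ⌊x⌋ ∈ S := by
  simp only [US, mem_iUnion, exists_prop, mem_Ico]
  constructor
  · rintro ⟨m, hm, h1, h2⟩
    rwa [Int.floor_eq_iff.2 ⟨h1, h2⟩]
  · intro h
    exact ⟨_, h, Int.floor_le x, Int.lt_floor_add_one x⟩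

instance : SFinite angleLaw := by unfold angleLaw; infer_instance

lemma nuS_eq (γ : ℝ≥0) (S : Finset ℤ) :
    nuS γ S = γ • ((volume.restrict (US S)).prod angleLaw) := by
  classical
  induction S using Finset.induction_on with
  | empty => simp [nuS, US]
  | insert m S hm ih =>
    have h1 : nuS γ (insert m S) = γ • ((volume.restrict (Ico (m : ℝ) (m + 1))).prod angleLaw) +
        nuS γ S := by
      unfold nuS
      rw [Finset.sum_insert hm]
      rfl
    have h2 : US (insert m S) = Ico (m : ℝ) (m + 1) ∪ US S := by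
      unfold US
      rw [Finset.set_biUnion_insert]
    have h3 : Disjoint (Ico (m : ℝ) (m + 1)) (US S) := by
      rw [Set.disjoint_left]
      intro x hx hx'
      rw [mem_US, Int.floor_eq_iff.2 ⟨hx.1, hx.2⟩] at hx'
      exact hm hx'
    rw [h1, ih, h2, Measure.restrict_union h3 (measurableSet_US S), Measure.add_prod, smul_add]

lemma nuS_apply (γ : ℝ≥0) (S : Finset ℤ) {A : Set (ℝ × ℝ)} (hA : MeasurableSet A) :
    nuS γ S A = γ * ∫⁻ θ, volume ({p | (p, θ) ∈ A} ∩ US S) ∂angleLaw := by
  rw [nuS_eq, Measure.smul_apply, Measure.prod_apply_symm hA]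
  change (γ : ℝ≥0∞) * _ = _
  congr 1
  refine lintegral_congr fun θ => ?_
  rw [Measure.restrict_apply (measurable_prodMk_right hA)]
  rfl

lemma ofReal_pi_ne_zero : ENNReal.ofReal Real.pi ≠ 0 := by
  rw [Ne, ENNReal.ofReal_eq_zero, not_le]; exact Real.pi_pos

lemma angleLaw_apply (A : Set ℝ) :
    angleLaw A = (ENNReal.ofReal Real.pi)⁻¹ * volume.restrict (Ico 0 Real.pi) A := by
  unfold angleLaw
  rw [Measure.smul_apply, smul_eq_mul]

instance : IsProbabilityMeasure angleLaw := ⟨by
  rw [angleLaw_apply, Measure.restrict_apply_univ, Real.volume_Ico, sub_zero]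
  exact ENNReal.inv_mul_cancel ofReal_pi_ne_zero ENNReal.ofReal_ne_top⟩

lemma slice_Near (r : ℝ) (z : ℂ) (θ : ℝ) :
    {p : ℝ | (p, θ) ∈ Near r z} = Icc (pr θ z - r) (pr θ z + r) := by
  ext p
  simp only [Near, mem_ofPred_eq, mem_Icc, abs_le]
  constructor
  · rintro ⟨h1, h2⟩; constructor <;> linarith
  · rintro ⟨h1, h2⟩; constructor <;> linarith

theorem nuS_Near_le (γ : ℝ≥0) (S : Finset ℤ) (z : ℂ) {r : ℝ} (hr : 0 ≤ r) :
    nuS γ S (Near r z) ≤ ENNReal.ofReal (2 * r * γ) := by
  rw [nuS_apply γ S (measurableSet_Near r z)]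
  have h1 : ∫⁻ θ, volume ({p | (p, θ) ∈ Near r z} ∩ US S) ∂angleLaw ≤
      ENNReal.ofReal (2 * r) := by
    calc ∫⁻ θ, volume ({p | (p, θ) ∈ Near r z} ∩ US S) ∂angleLaw ≤
        ∫⁻ _, ENNReal.ofReal (2 * r) ∂angleLaw := by
          refine lintegral_mono fun θ => ?_
          refine (measure_mono inter_subset_left).trans ?_
          rw [slice_Near, Real.volume_Icc]
          apply le_of_eq
          congr 1
          ring
      _ = ENNReal.ofReal (2 * r) := by
          rw [lintegral_const, measure_univ, mul_one]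
  refine (mul_le_mul_right h1 _).trans (le_of_eq ?_)
  rw [ENNReal.ofReal_mul (p := 2 * r) (by positivity), ENNReal.ofReal_coe_nnreal, mul_comm]

lemma pr_eq_norm_mul_cos (θ : ℝ) (v : ℂ) : pr θ v = ‖v‖ * Real.cos (θ - v.arg) := by
  have h1 := Complex.norm_mul_cos_arg v
  have h2 := Complex.norm_mul_sin_arg v
  rw [Real.cos_sub, pr]
  linear_combination (-Real.cos θ) * h1 - Real.sin θ * h2

lemma close_of_abs_cos_le {y ε : ℝ} (h1 : -Real.pi ≤ y) (h2 : y ≤ 2 * Real.pi)
    (h : |Real.cos y| ≤ ε) : |y + Real.pi / 2| ≤ Real.pi / 2 * ε ∨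
      |y - Real.pi / 2| ≤ Real.pi / 2 * ε ∨ |y - 3 * Real.pi / 2| ≤ Real.pi / 2 * ε := by
  have key : ∀ x : ℝ, |x| ≤ Real.pi / 2 → |Real.sin x| ≤ ε → |x| ≤ Real.pi / 2 * ε := by
    intro x hx hs
    have := (Real.mul_abs_le_abs_sin hx).trans hs
    have hpi := Real.pi_pos
    calc |x| = Real.pi / 2 * (2 / Real.pi * |x|) := by field_simp
      _ ≤ Real.pi / 2 * ε := mul_le_mul_of_nonneg_left this (by positivity)
  rcases le_total y 0 with hy | hy
  · left
    refine key _ (abs_le.2 ⟨by linarith, by linarith⟩) ?_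
    rwa [Real.sin_add_pi_div_two]
  rcases le_total y Real.pi with hy' | hy'
  · right; left
    refine key _ (abs_le.2 ⟨by linarith, by linarith⟩) ?_
    rwa [Real.sin_sub_pi_div_two, abs_neg]
  · right; right
    refine key _ (abs_le.2 ⟨by linarith, by linarith⟩) ?_
    have e : y - 3 * Real.pi / 2 = y + Real.pi / 2 - 2 * Real.pi := by ring
    rwa [e, Real.sin_sub_two_pi, Real.sin_add_pi_div_two]

lemma angleLaw_le {v : ℂ} {s d : ℝ} (hs : 0 ≤ s) (hd : 0 < d) (hv : d ≤ ‖v‖) :
    angleLaw {θ | |pr θ v| ≤ s} ≤ ENNReal.ofReal (3 * (s / d)) := by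
  set ε := s / d with hε
  have hε0 : 0 ≤ ε := by positivity
  have hpi := Real.pi_pos
  have hsub : {θ | |pr θ v| ≤ s} ∩ Ico 0 Real.pi ⊆
      Metric.closedBall (v.arg - Real.pi / 2) (Real.pi / 2 * ε) ∪
      (Metric.closedBall (v.arg + Real.pi / 2) (Real.pi / 2 * ε) ∪
      Metric.closedBall (v.arg + 3 * Real.pi / 2) (Real.pi / 2 * ε)) := by
    rintro θ ⟨h1, h2⟩
    have h1' : |pr θ v| ≤ s := h1
    rw [pr_eq_norm_mul_cos, abs_mul, abs_norm] at h1'
    have h3 : |Real.cos (θ - v.arg)| ≤ ε := by
      rw [hε, le_div_iff₀ hd]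
      calc |Real.cos (θ - v.arg)| * d ≤ |Real.cos (θ - v.arg)| * ‖v‖ :=
            mul_le_mul_of_nonneg_left hv (abs_nonneg _)
        _ ≤ s := by linarith
    have h4 := Complex.arg_le_pi v
    have h5 := (Complex.neg_pi_lt_arg v).le
    rcases close_of_abs_cos_le (by linarith [h2.1]) (by linarith [h2.2]) h3 with h | h | h
    · left
      rw [Metric.mem_closedBall, Real.dist_eq]
      convert h using 2
      ring
    · right; left
      rw [Metric.mem_closedBall, Real.dist_eq]
      convert h using 2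
      ring
    · right; right
      rw [Metric.mem_closedBall, Real.dist_eq]
      convert h using 2
      ring
  have hm : MeasurableSet {θ | |pr θ v| ≤ s} := by
    have h : Measurable fun θ : ℝ => pr θ v := by
      unfold pr
      fun_prop
    exact measurableSet_le h.norm measurable_const
  rw [angleLaw_apply, Measure.restrict_apply hm]
  have hvol : volume ({θ | |pr θ v| ≤ s} ∩ Ico 0 Real.pi) ≤ ENNReal.ofReal Real.pi *
      ENNReal.ofReal (3 * ε) := by
    refine (measure_mono hsub).trans ?_
    refine (measure_union_le _ _).trans ?_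
    refine (add_le_add le_rfl (measure_union_le _ _)).trans ?_
    rw [Real.volume_closedBall, Real.volume_closedBall, Real.volume_closedBall,
      ← ENNReal.ofReal_add (by positivity) (by positivity),
      ← ENNReal.ofReal_add (by positivity) (by positivity),
      ← ENNReal.ofReal_mul (by positivity)]
    apply le_of_eq
    congr 1
    ring
  calc (ENNReal.ofReal Real.pi)⁻¹ * volume ({θ | |pr θ v| ≤ s} ∩ Ico 0 Real.pi) ≤
      (ENNReal.ofReal Real.pi)⁻¹ * (ENNReal.ofReal Real.pi * ENNReal.ofReal (3 * ε)) :=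
        mul_le_mul_right hvol _
    _ = ENNReal.ofReal (3 * ε) := by
        rw [← mul_assoc, ENNReal.inv_mul_cancel ofReal_pi_ne_zero ENNReal.ofReal_ne_top, one_mul]

theorem nuS_Near_inter_le (γ : ℝ≥0) (S : Finset ℤ) {z w : ℂ} {a b d : ℝ} (ha : 0 ≤ a)
    (hb : 0 ≤ b) (hd : 0 < d) (hzw : d ≤ dist z w) :
    nuS γ S (Near a z ∩ Near b w) ≤ ENNReal.ofReal (γ * (20 * a * (a + b) / d)) := by
  rw [nuS_apply γ S ((measurableSet_Near a z).inter (measurableSet_Near b w))]
  have hm : MeasurableSet {θ | |pr θ (z - w)| ≤ a + b} := by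
    have h : Measurable fun θ : ℝ => pr θ (z - w) := by
      unfold pr
      fun_prop
    exact measurableSet_le h.norm measurable_const
  have h1 : ∫⁻ θ, volume ({p | (p, θ) ∈ Near a z ∩ Near b w} ∩ US S) ∂angleLaw ≤
      ENNReal.ofReal (2 * a) * ENNReal.ofReal (3 * ((a + b) / d)) := by
    calc ∫⁻ θ, volume ({p | (p, θ) ∈ Near a z ∩ Near b w} ∩ US S) ∂angleLaw ≤
        ∫⁻ θ, {θ | |pr θ (z - w)| ≤ a + b}.indicator (fun _ => ENNReal.ofReal (2 * a)) θ
          ∂angleLaw := by
          refine lintegral_mono fun θ => ?_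
          by_cases hθ : |pr θ (z - w)| ≤ a + b
          · rw [indicator_of_mem (by exact hθ)]
            refine (measure_mono (t := {p | (p, θ) ∈ Near a z}) ?_).trans ?_
            · rintro p ⟨⟨hp, -⟩, -⟩
              exact hp
            · rw [slice_Near, Real.volume_Icc]
              apply le_of_eq
              congr 1
              ring
          · rw [indicator_of_notMem (by exact hθ)]
            apply le_of_eq
            have : {p | (p, θ) ∈ Near a z ∩ Near b w} ∩ US S = ∅ := by
              rw [eq_empty_iff_forall_notMem]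
              rintro p ⟨⟨hp, hp'⟩, -⟩
              apply hθ
              have hp1 : |p - pr θ z| ≤ a := hp
              have hp2 : |p - pr θ w| ≤ b := hp'
              rw [pr_sub]
              have e : pr θ z - pr θ w = -(p - pr θ z) + (p - pr θ w) := by ring
              rw [e]
              refine (abs_add_le _ _).trans ?_
              rw [abs_neg]
              linarith
            rw [this, measure_empty]
      _ = ENNReal.ofReal (2 * a) * angleLaw {θ | |pr θ (z - w)| ≤ a + b} := by
          rw [lintegral_indicator hm, setLIntegral_const]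
      _ ≤ ENNReal.ofReal (2 * a) * ENNReal.ofReal (3 * ((a + b) / d)) := by
          refine mul_le_mul_right ?_ _
          refine angleLaw_le (by linarith) hd ?_
          rwa [← dist_eq_norm]
  refine (mul_le_mul_right h1 _).trans ?_
  rw [← ENNReal.ofReal_mul (by positivity), ← ENNReal.ofReal_coe_nnreal (p := γ),
    ← ENNReal.ofReal_mul (by positivity)]
  apply ENNReal.ofReal_le_ofReal
  refine mul_le_mul_of_nonneg_left ?_ γ.2
  have : 0 ≤ a * (a + b) / d := by positivity
  have e1 : 2 * a * (3 * ((a + b) / d)) = 6 * (a * (a + b) / d) := by ring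
  have e2 : 20 * a * (a + b) / d = 20 * (a * (a + b) / d) := by ring
  rw [e1, e2]
  linarith

/-- a good interval of angles -/
noncomputable def angs : Bool → Set ℝ
  | false => Icc (Real.pi / 2 - 1 / 5) (Real.pi / 2 + 1 / 5)
  | true => Icc 0 (1 / 5)

lemma angs_spec (t : Bool) {θ : ℝ} (h : θ ∈ angs t) :
    |if t then Real.sin θ else Real.cos θ| ≤ 1 / 5 := by
  cases t
  · simp only [Bool.false_eq_true, if_false]
    have h' : θ ∈ Icc (Real.pi / 2 - 1 / 5) (Real.pi / 2 + 1 / 5) := h
    rw [← Real.sin_pi_div_two_sub]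
    refine Real.abs_sin_le_abs.trans ?_
    rw [abs_le]
    constructor <;> linarith [h'.1, h'.2]
  · simp only [if_true]
    have h' : θ ∈ Icc (0 : ℝ) (1 / 5) := h
    refine Real.abs_sin_le_abs.trans ?_
    rw [abs_le]
    constructor <;> linarith [h'.1, h'.2]

lemma le_angleLaw_angs (t : Bool) : ENNReal.ofReal (1 / 20) ≤ angleLaw (angs t) := by
  have hpi := Real.pi_gt_three
  have hpi' := Real.pi_lt_d2
  have hm : MeasurableSet (angs t) := by cases t <;> exact measurableSet_Icc
  have hsub : angs t ⊆ Ico 0 Real.pi := by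
    cases t
    · intro θ h
      have h' : θ ∈ Icc (Real.pi / 2 - 1 / 5) (Real.pi / 2 + 1 / 5) := h
      constructor <;> linarith [h'.1, h'.2]
    · intro θ h
      have h' : θ ∈ Icc (0 : ℝ) (1 / 5) := h
      constructor <;> linarith [h'.1, h'.2]
  have hvol : ENNReal.ofReal (1 / 5) ≤ volume (angs t) := by
    cases t
    · change _ ≤ volume (Icc (Real.pi / 2 - 1 / 5) (Real.pi / 2 + 1 / 5))
      rw [Real.volume_Icc]
      apply ENNReal.ofReal_le_ofReal
      linarith
    · change _ ≤ volume (Icc (0 : ℝ) (1 / 5))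
      rw [Real.volume_Icc]
      apply ENNReal.ofReal_le_ofReal
      linarith
  rw [angleLaw_apply, Measure.restrict_apply hm, inter_eq_left.2 hsub]
  calc ENNReal.ofReal (1 / 20) = (ENNReal.ofReal Real.pi)⁻¹ *
        (ENNReal.ofReal Real.pi * ENNReal.ofReal (1 / 20)) := by
        rw [← mul_assoc, ENNReal.inv_mul_cancel ofReal_pi_ne_zero ENNReal.ofReal_ne_top, one_mul]
    _ ≤ (ENNReal.ofReal Real.pi)⁻¹ * volume (angs t) := by
        refine mul_le_mul_right (le_trans ?_ hvol) _
        rw [← ENNReal.ofReal_mul (by positivity)]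
        apply ENNReal.ofReal_le_ofReal
        linarith

theorem le_nuS_Tset (γ : ℝ≥0) (X : ℕ) (t : Bool) (z : ℤ × ℤ) (S : Finset ℤ)
    (hS : ∀ m : ℤ, |(m : ℝ)| ≤ ‖loc X 0 z‖ + Ls X 0 + 2 → m ∈ S) :
    ENNReal.ofReal (γ * Ls X 0 / 80) ≤ nuS γ S (Tset X t z) := by
  have hL : (0 : ℝ) ≤ Ls X 0 := by positivity
  rw [nuS_apply γ S (measurableSet_Tset X t z)]
  have hm : MeasurableSet (angs t) := by cases t <;> exact measurableSet_Icc
  have h1 : ENNReal.ofReal (Ls X 0 / 4) * ENNReal.ofReal (1 / 20) ≤
      ∫⁻ θ, volume ({p | (p, θ) ∈ Tset X t z} ∩ US S) ∂angleLaw := by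
    calc ENNReal.ofReal (Ls X 0 / 4) * ENNReal.ofReal (1 / 20) ≤
        ENNReal.ofReal (Ls X 0 / 4) * angleLaw (angs t) :=
          mul_le_mul_right (le_angleLaw_angs t) _
      _ = ∫⁻ θ, (angs t).indicator (fun _ => ENNReal.ofReal (Ls X 0 / 4)) θ ∂angleLaw := by
          rw [lintegral_indicator hm, setLIntegral_const]
      _ ≤ _ := by
          refine lintegral_mono fun θ => ?_
          by_cases hθ : θ ∈ angs t
          · rw [indicator_of_mem hθ]
            have hsub : Icc (pr θ (loc X 0 z) - Ls X 0 / 8) (pr θ (loc X 0 z) + Ls X 0 / 8) ⊆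
                {p | (p, θ) ∈ Tset X t z} ∩ US S := by
              intro p hp
              have hp1 : |p - pr θ (loc X 0 z)| ≤ Ls X 0 / 8 :=
                abs_le.2 ⟨by linarith [hp.1], by linarith [hp.2]⟩
              refine ⟨⟨hp1, angs_spec t hθ⟩, ?_⟩
              rw [mem_US]
              apply hS
              have h2 := abs_pr_le θ (loc X 0 z)
              have h3 : |p| ≤ ‖loc X 0 z‖ + Ls X 0 / 8 := by
                have e : p = (p - pr θ (loc X 0 z)) + pr θ (loc X 0 z) := by ring
                rw [e]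
                refine (abs_add_le _ _).trans ?_
                linarith
              have h4 := Int.floor_le p
              have h5 := (Int.lt_floor_add_one p).le
              have h6 := abs_le.1 h3
              rw [abs_le]
              constructor <;> linarith
            refine le_trans (le_of_eq ?_) (measure_mono hsub)
            rw [Real.volume_Icc]
            congr 1
            ring
          · rw [indicator_of_notMem hθ]
            exact bot_le
  refine le_trans (le_of_eq ?_) (mul_le_mul_right h1 _)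
  rw [← ENNReal.ofReal_mul (by positivity), ← ENNReal.ofReal_coe_nnreal (p := γ),
    ← ENNReal.ofReal_mul (by positivity)]
  congr 1
  ring

end Pool.Agent.Lib.MP_3e2d90_pr
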