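import Mathlib
import Pool.Agent.Lib.MP_3e2d90_pr.Hit
import Pool.Agent.Lib.MP_3e2d90_pr.Count
import Pool.Agent.Lib.MP_3e2d90_pr.LineMeas

/-!
# The annealed recursion for small `λ`, uniform in adversarial lines
-/

open MeasureTheory ProbabilityTheory Set
open scoped NNReal ENNReal

namespace Pool.Agent.Lib.MP_3e2d90_pr

instance isFiniteMeasure_nuS' (γ : ℝ≥0) (S : Finset ℤ) : IsFiniteMeasure (nuS γ S) := by
  unfold nuS
  have : ∀ m : ℤ, IsFiniteMeasure (volume.restrict (Ico (m : ℝ) (m + 1))) := fun m =>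
    ⟨by rw [Measure.restrict_apply_univ]; exact measure_Ico_lt_top⟩
  have h2 : IsFiniteMeasure ((ENNReal.ofReal Real.pi)⁻¹ • volume.restrict (Ico 0 Real.pi)) :=
    inferInstanceAs (IsFiniteMeasure angleLaw)
  infer_instance

lemma measurable_hAC (X : ℕ) (W : Finset (ℤ × ℤ)) : Measurable (hAC X W) :=
  measurable_hit W fun _ => measurableSet_Near _ _

/-- insensitivity of the level-`k` bound to far lines -/
lemma Fk_AC_insens {X : ℕ} (hX : 100 ≤ X) (c : ℝ≥0∞) {W : Finset (ℤ × ℤ)} {k : ℕ}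
    {b : ℤ × ℤ} {q : ℝ × ℝ} (hq : q ∉ Near (7 * Ls X k) (loc X k b)) (n : W → ℕ) :
    Fk X (fAC c (n + hAC X W q)) k b = Fk X (fAC c n) k b := by
  refine Fk_congr hX k b fun z hz => ?_
  have h0 : (0 : ℝ) ≤ Ls X 0 := by positivity
  have h1 : q ∉ Near (3 * Ls X 0) (loc X 0 z) := fun h =>
    hq (near_of_near hX hz (by linarith) h)
  rw [fAC, fAC, ext_add, hAC, ext_hit_of_not_mem (H := fun z => Near (3 * Ls X 0) (loc X 0 z)) h1,
    add_zero]

lemma Fk_AC_mono {X : ℕ} (c : ℝ≥0∞) {W : Finset (ℤ × ℤ)} (k : ℕ)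
    (b : ℤ × ℤ) (n n' : W → ℕ) :
    Fk X (fAC c n) k b ≤ Fk X (fAC c (n + n')) k b := by
  refine Fk_mono (fun z => ?_) k b
  rw [fAC, fAC, ext_add]
  gcongr
  exact_mod_cast Nat.le_add_right _ _

lemma Fk_AC_le_one {X : ℕ} (c : ℝ≥0∞) {W : Finset (ℤ × ℤ)} (k : ℕ)
    (b : ℤ × ℤ) (n : W → ℕ) : Fk X (fAC c n) k b ≤ 1 :=
  Fk_le_one (fun _ => min_le_left _ _) k b

/-- insensitivity to a list of far lines -/
lemma Fk_AC_insens_list {X : ℕ} (hX : 100 ≤ X) (c : ℝ≥0∞) {W : Finset (ℤ × ℤ)} {k : ℕ}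
    {b : ℤ × ℤ} {D : List (ℝ × ℝ)} (hD : ∀ q ∈ D, q ∉ Near (7 * Ls X k) (loc X k b))
    (n : W → ℕ) :
    Fk X (fAC c (n + (D.map (hAC X W)).sum)) k b = Fk X (fAC c n) k b := by
  induction D generalizing n with
  | nil => simp
  | cons q D ih =>
    rw [List.map_cons, List.sum_cons, add_comm (hAC X W q), ← add_assoc,
      Fk_AC_insens hX c (hD q (by simp)), ih fun q' hq' => hD q' (by simp [hq'])]

/-- base of the recursion -/
lemma AC_base (γ : ℝ≥0) {X : ℕ} (hX : 100 ≤ X) {c : ℝ≥0∞}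
    (hc : c * (81 + ENNReal.ofReal (6 * Ls X 0 * γ)) ≤ ((xs X 0 : ℝ≥0∞) ^ 81)⁻¹)
    (S : Finset ℤ) (W : Finset (ℤ × ℤ)) (a : ℤ × ℤ) (D : List (ℝ × ℝ)) :
    Phi (nuS γ S) (hAC X W) (fun n => Fk X (fAC c n) 0 a) ((D.map (hAC X W)).sum) ≤
        ((xs X 0 : ℝ≥0∞) ^ (81 - D.length))⁻¹ := by
  have hx1 : (1 : ℝ≥0∞) ≤ xs X 0 := by
    exact_mod_cast (by norm_num : 1 ≤ 100).trans (hX.trans (le_xs X 0))
  by_cases hD : D.length < 81
  · have h1 := Phi_le_linear (nuS γ S) (measurable_hAC X W) (F := fun n => Fk X (fAC c n) 0 a)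
      (c := c) (H := Near (3 * Ls X 0) (loc X 0 a)) (measurableSet_Near _ _) (by
        intro n q _
        change min 1 (c * ext (n + hAC X W q) a) ≤ min 1 (c * ext n a) + c
        rw [ext_add]
        have h2 : ((ext n a + ext (hAC X W q) a : ℕ) : ℝ≥0∞) ≤ ext n a + 1 := by
          exact_mod_cast Nat.add_le_add_left ext_hit_le_one _
        calc min 1 (c * ((ext n a + ext (hAC X W q) a : ℕ) : ℝ≥0∞))
            ≤ min 1 (c * (ext n a + 1)) := by gcongr
          _ ≤ min 1 (c * ext n a) + c := by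
              rw [mul_add, mul_one]
              rcases le_total 1 (c * (ext n a : ℝ≥0∞)) with h | h
              · rw [min_eq_left h]
                exact (min_le_left _ _).trans le_self_add
              · rw [min_eq_right h]
                exact min_le_right _ _) (by
        intro n q hq
        change min 1 (c * ext (n + hAC X W q) a) = min 1 (c * ext n a)
        rw [ext_add, hAC, ext_hit_of_not_mem (H := fun z => Near (3 * Ls X 0) (loc X 0 z)) hq,
          add_zero]) ((D.map (hAC X W)).sum)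
    refine h1.trans ?_
    have h2 : Fk X (fAC c ((D.map (hAC X W)).sum)) 0 a ≤ c * 81 := by
      change min 1 (c * ext ((D.map (hAC X W)).sum) a) ≤ _
      refine (min_le_right _ _).trans ?_
      gcongr
      have h4 : ext ((D.map (hAC X W)).sum) a ≤ 81 := (ext_sum_hit_le D).trans hD.le
      exact_mod_cast h4
    have h3 : nuS γ S (Near (3 * Ls X 0) (loc X 0 a)) ≤ ENNReal.ofReal (6 * Ls X 0 * γ) := by
      refine (nuS_Near_le γ S _ (by positivity)).trans (le_of_eq ?_)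
      congr 1
      ring
    calc Fk X (fAC c ((D.map (hAC X W)).sum)) 0 a + c * nuS γ S (Near (3 * Ls X 0) (loc X 0 a))
        ≤ c * 81 + c * ENNReal.ofReal (6 * Ls X 0 * γ) := by gcongr
      _ ≤ ((xs X 0 : ℝ≥0∞) ^ 81)⁻¹ := by rw [← mul_add]; exact hc
      _ ≤ _ := by
          rw [ENNReal.inv_le_inv]
          exact pow_le_pow_right₀ hx1 (Nat.sub_le _ _)
  · have : 81 - D.length = 0 := by omega
    rw [this, pow_zero, inv_one]
    exact Phi_le_one (fun n => Fk_AC_le_one c 0 a n) _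

/-- measure of the common lines of two children -/
lemma nuS_common_le (γ : ℝ≥0) (S : Finset ℤ) {X : ℕ} (hX : 100 ≤ X) {k : ℕ} {b : Fin 4 → ℤ × ℤ}
    (hb : ∀ i j, i ≠ j → (Ls X (k + 1) : ℝ) / 170 ≤ dist (loc X k (b i)) (loc X k (b j))) :
    nuS γ S {q | ∃ i j, i ≠ j ∧ q ∈ Near (7 * Ls X k) (loc X k (b i)) ∧
      q ∈ Near (7 * Ls X k) (loc X k (b j))} ≤ ENNReal.ofReal (γ * (5331200 / Ls X k)) := by
  have hL : (0 : ℝ) < Ls X k := by
    have := Ls_ge_real hX k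
    linarith [show (0 : ℝ) < 10 ^ 10 by norm_num]
  have hsub : {q | ∃ i j, i ≠ j ∧ q ∈ Near (7 * Ls X k) (loc X k (b i)) ∧
      q ∈ Near (7 * Ls X k) (loc X k (b j))} ⊆ ⋃ p ∈ (Finset.univ : Finset (Fin 4 × Fin 4)),
      if p.1 ≠ p.2 then (Near (7 * Ls X k) (loc X k (b p.1)) ∩
        Near (7 * Ls X k) (loc X k (b p.2))) else ∅ := by
    rintro q ⟨i, j, hij, h1, h2⟩
    simp only [Set.mem_iUnion]
    refine ⟨(i, j), Finset.mem_univ _, ?_⟩
    rw [if_pos hij]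
    exact ⟨h1, h2⟩
  refine (measure_mono hsub).trans ((measure_biUnion_finset_le _ _).trans ?_)
  have h1 : ∀ p ∈ (Finset.univ : Finset (Fin 4 × Fin 4)), nuS γ S (if p.1 ≠ p.2 then
      (Near (7 * Ls X k) (loc X k (b p.1)) ∩ Near (7 * Ls X k) (loc X k (b p.2))) else ∅) ≤
      ENNReal.ofReal (γ * (333200 / Ls X k)) := by
    intro p _
    split_ifs with hp
    · refine (nuS_Near_inter_le γ S (d := (Ls X (k + 1) : ℝ) / 170) (by positivity)
        (by positivity) ?_ (hb _ _ hp)).trans (ENNReal.ofReal_le_ofReal (le_of_eq ?_))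
      · rw [Ls_succ_real]; positivity
      · rw [Ls_succ_real]
        field_simp
        ring
    · rw [measure_empty]; exact zero_le
  refine (Finset.sum_le_card_nsmul _ _ _ h1).trans ?_
  rw [nsmul_eq_mul, Finset.card_univ, Fintype.card_prod, Fintype.card_fin,
    ← ENNReal.ofReal_natCast, ← ENNReal.ofReal_mul (by positivity)]
  refine ENNReal.ofReal_le_ofReal (le_of_eq ?_)
  push_cast
  ring

lemma add_pow_four_le (a b : ℝ≥0∞) : (a + b) ^ 4 ≤ 16 * (a ^ 4 + b ^ 4) := by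
  have key : ∀ a b : ℝ≥0∞, a ≤ b → (a + b) ^ 4 ≤ 16 * (a ^ 4 + b ^ 4) := by
    intro a b h
    calc (a + b) ^ 4 ≤ (b + b) ^ 4 := by gcongr
      _ = 16 * b ^ 4 := by ring
      _ ≤ 16 * (a ^ 4 + b ^ 4) := by
          gcongr
          exact le_add_self
  rcases le_total a b with h | h
  · exact key a b h
  · rw [add_comm a b, add_comm (a ^ 4)]
    exact key b a h

lemma inv_pow_sub_le {x : ℝ≥0∞} (h1 : 1 ≤ x) (ht : x ≠ ⊤) (A j : ℕ) :
    (x ^ (A - j))⁻¹ ≤ x ^ j * (x ^ A)⁻¹ := by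
  have h0 : x ≠ 0 := (zero_lt_one.trans_le h1).ne'
  rw [ENNReal.inv_le_iff_le_mul (fun _ => pow_ne_zero _ h0)
    (fun h => absurd h (ENNReal.pow_ne_top ht)), ← mul_assoc, ← pow_add]
  calc (1 : ℝ≥0∞) = x ^ A * (x ^ A)⁻¹ :=
        (ENNReal.mul_inv_cancel (pow_ne_zero _ h0) (ENNReal.pow_ne_top ht)).symm
    _ ≤ _ := by
        gcongr
        omega

/-- the numerical inequality behind the recursion -/
lemma AC_numeric {x μ : ℝ≥0∞} (h1 : 1 ≤ x) (ht : x ≠ ⊤) (A : ℕ) (hA : 1 ≤ A) (hA' : A ≤ 81)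
    (hμ : μ * x ^ 4 ≤ 2⁻¹) (hx : 32 * ((C1 : ℝ≥0∞) ^ 4 + 49 ^ 4) ≤ x) :
    ∑' j : ℕ, μ ^ j * ((C1 : ℝ≥0∞) * (x ^ (A - j))⁻¹ + 49 * x ^ 20 * (x ^ (81 - j))⁻¹) ^ 4 ≤
      ((x ^ 3) ^ A)⁻¹ := by
  have h0 : x ≠ 0 := (zero_lt_one.trans_le h1).ne'
  set R : ℝ≥0∞ := (C1 : ℝ≥0∞) * (x ^ A)⁻¹ + 49 * x ^ 20 * (x ^ 81)⁻¹ with hR
  have hterm : ∀ j : ℕ, μ ^ j * ((C1 : ℝ≥0∞) * (x ^ (A - j))⁻¹ +
      49 * x ^ 20 * (x ^ (81 - j))⁻¹) ^ 4 ≤ (2⁻¹ : ℝ≥0∞) ^ j * R ^ 4 := by
    intro j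
    calc μ ^ j * ((C1 : ℝ≥0∞) * (x ^ (A - j))⁻¹ + 49 * x ^ 20 * (x ^ (81 - j))⁻¹) ^ 4
        ≤ μ ^ j * ((C1 : ℝ≥0∞) * (x ^ j * (x ^ A)⁻¹) +
          49 * x ^ 20 * (x ^ j * (x ^ 81)⁻¹)) ^ 4 := by
          gcongr
          · exact inv_pow_sub_le h1 ht A j
          · exact inv_pow_sub_le h1 ht 81 j
      _ = (μ * x ^ 4) ^ j * R ^ 4 := by
          rw [hR, mul_pow μ, ← pow_mul x 4 j]
          ring
      _ ≤ (2⁻¹ : ℝ≥0∞) ^ j * R ^ 4 := by gcongr
  have hR4 : R ^ 4 ≤ 16 * (((C1 : ℝ≥0∞) ^ 4 + 49 ^ 4) * (x ^ (3 * A + 1))⁻¹) := by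
    refine (add_pow_four_le _ _).trans ?_
    gcongr 16 * ?_
    rw [add_mul]
    refine add_le_add ?_ ?_
    · rw [mul_pow, ← ENNReal.inv_pow, ← pow_mul]
      gcongr 2
      exact pow_le_pow_right₀ h1 (by omega)
    · have e : (49 * x ^ 20 * (x ^ 81)⁻¹) ^ 4 = 49 ^ 4 * (x ^ 80 * (x ^ 324)⁻¹) := by
        rw [mul_pow, mul_pow, ← ENNReal.inv_pow, ← pow_mul, ← pow_mul]
        ring_nf
      rw [e]
      have e2 : x ^ 80 * (x ^ 324)⁻¹ = (x ^ 244)⁻¹ := by
        have : x ^ 324 = x ^ 80 * x ^ 244 := by rw [← pow_add]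
        rw [this, ENNReal.mul_inv (Or.inl (pow_ne_zero _ h0)) (Or.inl (ENNReal.pow_ne_top ht)),
          ← mul_assoc, ENNReal.mul_inv_cancel (pow_ne_zero _ h0) (ENNReal.pow_ne_top ht), one_mul]
      rw [e2]
      gcongr
      omega
  calc ∑' j : ℕ, μ ^ j * ((C1 : ℝ≥0∞) * (x ^ (A - j))⁻¹ +
        49 * x ^ 20 * (x ^ (81 - j))⁻¹) ^ 4
      ≤ ∑' j : ℕ, (2⁻¹ : ℝ≥0∞) ^ j * R ^ 4 := ENNReal.tsum_le_tsum hterm
    _ = 2 * R ^ 4 := by
        rw [ENNReal.tsum_mul_right, ENNReal.tsum_geometric, ENNReal.one_sub_inv_two, inv_inv]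
    _ ≤ 2 * (16 * (((C1 : ℝ≥0∞) ^ 4 + 49 ^ 4) * (x ^ (3 * A + 1))⁻¹)) := by gcongr
    _ = (32 * ((C1 : ℝ≥0∞) ^ 4 + 49 ^ 4)) * (x ^ (3 * A + 1))⁻¹ := by ring
    _ ≤ x * (x ^ (3 * A + 1))⁻¹ := by gcongr
    _ = ((x ^ 3) ^ A)⁻¹ := by
        rw [pow_succ, mul_comm (x ^ (3 * A)), ENNReal.mul_inv (Or.inl h0) (Or.inl ht), ← mul_assoc,
          ENNReal.mul_inv_cancel h0 ht, one_mul, pow_mul]

/-- the key estimate for one choice of children -/
lemma AC_children (γ : ℝ≥0) {X : ℕ} (hX : 100 ≤ X) (c : ℝ≥0∞) (S : Finset ℤ)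
    (W : Finset (ℤ × ℤ)) (k : ℕ)
    (ih : ∀ (a : ℤ × ℤ) (D : List (ℝ × ℝ)),
      Phi (nuS γ S) (hAC X W) (fun n => Fk X (fAC c n) k a) ((D.map (hAC X W)).sum) ≤
        ((xs X k : ℝ≥0∞) ^ (81 - D.length))⁻¹)
    (D : List (ℝ × ℝ)) (b : Fin 4 → ℤ × ℤ)
    (hb : ∀ i j, i ≠ j → (Ls X (k + 1) : ℝ) / 170 ≤ dist (loc X k (b i)) (loc X k (b j))) :
    Phi (nuS γ S) (hAC X W) (fun n => ∏ j, Fk X (fAC c n) k (b j)) ((D.map (hAC X W)).sum) ≤
      ∑' i : ℕ, (ENNReal.ofReal (γ * (5331200 / Ls X k))) ^ i *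
        ∏ j, (open Classical in if ∃ q ∈ D, q ∈ Near (7 * Ls X k) (loc X k (b j)) then
          ((xs X k : ℝ≥0∞) ^ (81 - D.length - i))⁻¹ else ((xs X k : ℝ≥0∞) ^ (81 - i))⁻¹) := by
  classical
  set h := hAC X W with hh
  have hm : Measurable h := measurable_hAC X W
  set C : Set (ℝ × ℝ) := {q | ∃ i j, i ≠ j ∧ q ∈ Near (7 * Ls X k) (loc X k (b i)) ∧
      q ∈ Near (7 * Ls X k) (loc X k (b j))} with hCdef
  have hC : MeasurableSet C := by
    have e : C = ⋃ i, ⋃ j, ⋃ (_ : i ≠ j), (Near (7 * Ls X k) (loc X k (b i)) ∩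
        Near (7 * Ls X k) (loc X k (b j))) := by
      ext q
      simp only [hCdef, Set.mem_setOf_eq, Set.mem_iUnion, Set.mem_inter_iff, exists_prop]
    rw [e]
    exact MeasurableSet.iUnion fun i => MeasurableSet.iUnion fun j => MeasurableSet.iUnion fun _ =>
      (measurableSet_Near _ _).inter (measurableSet_Near _ _)
  set ν := nuS γ S with hν
  set G : Fin 4 → (W → ℕ) → ℝ≥0∞ := fun j n => Fk X (fAC c n) k (b j) with hG
  have h1 : Phi ν h (fun n => ∏ j, G j n) ((D.map h).sum) ≤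
      Phi (ν.restrict C) h (fun n => ∏ j, Phi ν h (G j) n) ((D.map h).sum) := by
    conv_lhs => rw [← restrict_add ν hC]
    rw [Phi_add _ _ hm]
    refine Phi_mono (fun n => ?_) _
    rw [Phi_prod _ hm G]
    · exact Finset.prod_le_prod' fun j _ => Phi_restrict_le ν hm
        (fun n q => Fk_AC_mono c k (b j) n (h q)) hC.compl n
    · rw [ae_restrict_iff' hC.compl]
      refine Filter.Eventually.of_forall fun q hq i j hij => ?_
      by_cases hi : q ∈ Near (7 * Ls X k) (loc X k (b i))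
      · right
        intro n
        refine Fk_AC_insens hX c (fun hj => hq ?_) n
        exact ⟨i, j, hij, hi, hj⟩
      · left
        intro n
        exact Fk_AC_insens hX c hi n
  refine h1.trans ?_
  have h2 := Phi_le_tsum (ν := ν.restrict C) (h := h) (B := fun n => ∏ j, Phi ν h (G j) n)
    (n := (D.map h).sum) (b := fun i => ∏ j, (if ∃ q ∈ D, q ∈ Near (7 * Ls X k) (loc X k (b j)) then
          ((xs X k : ℝ≥0∞) ^ (81 - D.length - i))⁻¹ else ((xs X k : ℝ≥0∞) ^ (81 - i))⁻¹))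
    Set.univ (Filter.Eventually.of_forall fun _ => Set.mem_univ _) (by
      intro D' _
      refine Finset.prod_le_prod' fun j _ => ?_
      split_ifs with hj
      · have h3 := ih (b j) (D ++ D')
        rw [List.map_append, List.sum_append, List.length_append] at h3
        refine h3.trans (le_of_eq ?_)
        rw [Nat.sub_sub]
      · have h3 := ih (b j) D'
        refine le_trans (le_of_eq ?_) h3
        rw [add_comm, ← Phi_shift]
        congr 1
        ext n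
        exact Fk_AC_insens_list hX c (fun q hq hq' => hj ⟨q, hq, hq'⟩) n)
  refine h2.trans (ENNReal.tsum_le_tsum fun i => ?_)
  gcongr
  rw [Measure.restrict_apply_univ]
  exact nuS_common_le γ S hX hb

theorem AC_step (γ : ℝ≥0) {X : ℕ} (hX : 100 ≤ X) (c : ℝ≥0∞) (S : Finset ℤ)
    (W : Finset (ℤ × ℤ)) (k : ℕ)
    (hμ : ENNReal.ofReal (γ * (5331200 / Ls X k)) * (xs X k : ℝ≥0∞) ^ 4 ≤ 2⁻¹)
    (hx : 32 * ((C1 : ℝ≥0∞) ^ 4 + 49 ^ 4) ≤ xs X k)
    (ih : ∀ (a : ℤ × ℤ) (D : List (ℝ × ℝ)),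
      Phi (nuS γ S) (hAC X W) (fun n => Fk X (fAC c n) k a) ((D.map (hAC X W)).sum) ≤
        ((xs X k : ℝ≥0∞) ^ (81 - D.length))⁻¹)
    (a : ℤ × ℤ) (D : List (ℝ × ℝ)) :
      Phi (nuS γ S) (hAC X W) (fun n => Fk X (fAC c n) (k + 1) a) ((D.map (hAC X W)).sum) ≤
        ((xs X (k + 1) : ℝ≥0∞) ^ (81 - D.length))⁻¹ := by
  classical
  by_cases hD : D.length < 81
  swap
  · have : 81 - D.length = 0 := by omega
    rw [this, pow_zero, inv_one]
    exact Phi_le_one (fun n => Fk_AC_le_one c (k + 1) a n) _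
  have hm : Measurable (hAC X W) := measurable_hAC X W
  have hx1 : (1 : ℝ≥0∞) ≤ xs X k := by
    exact_mod_cast (by norm_num : 1 ≤ 100).trans (hX.trans (le_xs X k))
  have hxt : (xs X k : ℝ≥0∞) ≠ ⊤ := ENNReal.natCast_ne_top _
  obtain ⟨m, hmD⟩ := exists_circles hX k a D hD
  set P := Fintype.piFinset (fun j => Circ X k (m j) a) with hP
  set μ := ENNReal.ofReal (γ * (5331200 / Ls X k)) with hμdef
  set x : ℝ≥0∞ := ((xs X k : ℕ) : ℝ≥0∞) with hxdef
  set β : ℕ → ℤ × ℤ → ℝ≥0∞ := fun i b =>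
    if ∃ q ∈ D, q ∈ Near (7 * Ls X k) (loc X k b) then (x ^ (81 - D.length - i))⁻¹
      else (x ^ (81 - i))⁻¹ with hβ
  calc Phi (nuS γ S) (hAC X W) (fun n => Fk X (fAC c n) (k + 1) a) ((D.map (hAC X W)).sum)
      ≤ Phi (nuS γ S) (hAC X W) (fun n => ∑ b ∈ P, ∏ j, Fk X (fAC c n) k (b j))
          ((D.map (hAC X W)).sum) := by
        refine Phi_mono (fun n => ?_) _
        refine (min_le_right _ _).trans ((iInf_le _ m).trans (le_of_eq ?_))
        rw [Finset.prod_univ_sum]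
    _ = ∑ b ∈ P, Phi (nuS γ S) (hAC X W) (fun n => ∏ j, Fk X (fAC c n) k (b j))
          ((D.map (hAC X W)).sum) := by
        rw [Phi_sum P _ hm (fun b n => ∏ j, Fk X (fAC c n) k (b j))]
    _ ≤ ∑ b ∈ P, ∑' i : ℕ, μ ^ i * ∏ j, β i (b j) := by
        refine Finset.sum_le_sum fun b hb => ?_
        have hb' := Fintype.mem_piFinset.1 hb
        refine AC_children γ hX c S W k ih D b fun i j hij => ?_
        exact dist_children hX (fun h => hij (m.injective h)) (hb' i) (hb' j)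
    _ = ∑' i : ℕ, μ ^ i * ∑ b ∈ P, ∏ j, β i (b j) := by
        rw [← Summable.tsum_finsetSum (fun i _ => ENNReal.summable)]
        refine tsum_congr fun i => ?_
        rw [Finset.mul_sum]
    _ = ∑' i : ℕ, μ ^ i * ∏ j, ∑ b ∈ Circ X k (m j) a, β i b := by
        refine tsum_congr fun i => ?_
        rw [hP, Finset.prod_univ_sum]
    _ ≤ ∑' i : ℕ, μ ^ i * ((C1 : ℝ≥0∞) * (x ^ (81 - D.length - i))⁻¹ +
          49 * x ^ 20 * (x ^ (81 - i))⁻¹) ^ 4 := by
        refine ENNReal.tsum_le_tsum fun i => ?_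
        gcongr
        have h3 : ∀ j : Fin 4, ∑ b ∈ Circ X k (m j) a, β i b ≤
            (C1 : ℝ≥0∞) * (x ^ (81 - D.length - i))⁻¹ + 49 * x ^ 20 * (x ^ (81 - i))⁻¹ := by
          intro j
          rw [← Finset.sum_filter_add_sum_filter_not (Circ X k (m j) a)
            (fun b => ∃ q ∈ D, q ∈ Near (7 * Ls X k) (loc X k b))]
          refine add_le_add ?_ ?_
          · calc ∑ b ∈ (Circ X k (m j) a).filter
                  (fun b => ∃ q ∈ D, q ∈ Near (7 * Ls X k) (loc X k b)), β i b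
                ≤ ((Circ X k (m j) a).filter
                  (fun b => ∃ q ∈ D, q ∈ Near (7 * Ls X k) (loc X k b))).card •
                    (x ^ (81 - D.length - i))⁻¹ := by
                  refine Finset.sum_le_card_nsmul _ _ _ fun b hb => ?_
                  rw [Finset.mem_filter] at hb
                  simp only [hβ]
                  rw [if_pos hb.2]
              _ ≤ _ := by
                  rw [nsmul_eq_mul]
                  gcongr
                  exact_mod_cast hmD j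
          · calc ∑ b ∈ (Circ X k (m j) a).filter
                  (fun b => ¬ ∃ q ∈ D, q ∈ Near (7 * Ls X k) (loc X k b)), β i b
                ≤ ((Circ X k (m j) a).filter
                  (fun b => ¬ ∃ q ∈ D, q ∈ Near (7 * Ls X k) (loc X k b))).card •
                    (x ^ (81 - i))⁻¹ := by
                  refine Finset.sum_le_card_nsmul _ _ _ fun b hb => ?_
                  rw [Finset.mem_filter] at hb
                  simp only [hβ]
                  rw [if_neg hb.2]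
              _ ≤ _ := by
                  rw [nsmul_eq_mul]
                  gcongr
                  have h4 : ((Circ X k (m j) a).filter
                    (fun b => ¬ ∃ q ∈ D, q ∈ Near (7 * Ls X k) (loc X k b))).card ≤
                      49 * (xs X k) ^ 20 := by
                    refine (Finset.card_filter_le _ _).trans
                      ((card_Circ_le (by omega) k (m j) a).trans (le_of_eq ?_))
                    rw [Ls, ← pow_mul]
                  rw [hxdef]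
                  exact_mod_cast h4
        calc ∏ j, ∑ b ∈ Circ X k (m j) a, β i b
            ≤ ∏ j : Fin 4, ((C1 : ℝ≥0∞) * (x ^ (81 - D.length - i))⁻¹ +
              49 * x ^ 20 * (x ^ (81 - i))⁻¹) := Finset.prod_le_prod' fun j _ => h3 j
          _ = _ := by rw [Finset.prod_const, Finset.card_univ, Fintype.card_fin]
    _ ≤ ((x ^ 3) ^ (81 - D.length))⁻¹ :=
        AC_numeric hx1 hxt (81 - D.length) (by omega) (by omega) hμ hx
    _ = _ := by
        rw [xs_succ, hxdef]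
        push_cast
        rfl

theorem AC_recursion (γ : ℝ≥0) : ∃ X₀ : ℕ, ∀ X ≥ X₀, ∃ c₀ : ℝ≥0∞, 0 < c₀ ∧ ∀ c ≤ c₀,
    ∀ (S : Finset ℤ) (W : Finset (ℤ × ℤ)) (k : ℕ) (a : ℤ × ℤ) (D : List (ℝ × ℝ)),
      Phi (nuS γ S) (hAC X W) (fun n => Fk X (fAC c n) k a) ((D.map (hAC X W)).sum) ≤
        ((xs X k : ℝ≥0∞) ^ (81 - D.length))⁻¹ := by
  obtain ⟨N, hN⟩ := exists_nat_ge (2 * (γ : ℝ) * 5331200)
  refine ⟨max 100 (max N (32 * (C1 ^ 4 + 49 ^ 4))), fun X hX => ?_⟩
  have hX100 : 100 ≤ X := (le_max_left _ _).trans hX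
  have hXN : N ≤ X := ((le_max_left _ _).trans (le_max_right _ _)).trans hX
  have hXC : 32 * (C1 ^ 4 + 49 ^ 4) ≤ X := ((le_max_right _ _).trans (le_max_right _ _)).trans hX
  have hd0 : (81 + ENNReal.ofReal (6 * Ls X 0 * γ)) ≠ 0 := by simp
  have hdt : (81 + ENNReal.ofReal (6 * Ls X 0 * γ)) ≠ ⊤ :=
    ENNReal.add_ne_top.2 ⟨by simp, ENNReal.ofReal_ne_top⟩
  refine ⟨((xs X 0 : ℝ≥0∞) ^ 81)⁻¹ / (81 + ENNReal.ofReal (6 * Ls X 0 * γ)),
    ENNReal.div_pos (ENNReal.inv_ne_zero.2 (ENNReal.pow_ne_top (ENNReal.natCast_ne_top _))) hdt,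
    fun c hc S W k => ?_⟩
  induction k with
  | zero =>
    intro a D
    refine AC_base γ hX100 ?_ S W a D
    calc c * (81 + ENNReal.ofReal (6 * Ls X 0 * γ))
        ≤ ((xs X 0 : ℝ≥0∞) ^ 81)⁻¹ / (81 + ENNReal.ofReal (6 * Ls X 0 * γ)) *
          (81 + ENNReal.ofReal (6 * Ls X 0 * γ)) := by gcongr
      _ = _ := ENNReal.div_mul_cancel hd0 hdt
  | succ k ih =>
    intro a D
    refine AC_step γ hX100 c S W k ?_ ?_ ih a D
    · have hx0 : (0 : ℝ) < xs X k := by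
        exact_mod_cast (by norm_num : 0 < 100).trans_le (hX100.trans (le_xs X k))
      have e : (xs X k : ℝ≥0∞) ^ 4 = ENNReal.ofReal ((xs X k : ℝ) ^ 4) := by
        rw [ENNReal.ofReal_pow (by positivity), ENNReal.ofReal_natCast]
      rw [e, ← ENNReal.ofReal_mul (by positivity)]
      have e2 : (2⁻¹ : ℝ≥0∞) = ENNReal.ofReal (1 / 2) := by
        rw [one_div, ENNReal.ofReal_inv_of_pos (by norm_num)]
        simp
      rw [e2]
      refine ENNReal.ofReal_le_ofReal ?_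
      rw [Ls]
      push_cast
      have h5 : 2 * (γ : ℝ) * 5331200 ≤ xs X k := by
        refine hN.trans ?_
        exact_mod_cast hXN.trans (le_xs X k)
      have h6 : (γ : ℝ) * (5331200 / (xs X k : ℝ) ^ 5) * (xs X k : ℝ) ^ 4 =
          γ * 5331200 / xs X k := by
        field_simp
      rw [h6, div_le_div_iff₀ hx0 (by norm_num)]
      linarith
    · exact_mod_cast hXC.trans (le_xs X k)

end Pool.Agent.Lib.MP_3e2d90_pr
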