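import Mathlib
import Pool.Agent.Lib.MP_3e2d90_pr.Model
import Pool.Agent.Lib.MP_3e2d90_pr.Nodes
import Pool.Agent.Lib.MP_3e2d90_pr.Phi

/-!
# Expectations over the concrete line process are given by the Poisson operator
-/

open MeasureTheory ProbabilityTheory Set
open scoped NNReal ENNReal

namespace Pool.Agent.Lib.MP_3e2d90_pr

section Link
variable {M : Type*} [AddCommMonoid M] [MeasurableSpace M] [DiscreteMeasurableSpace M]
  [Countable M]

theorem measurable_finset_sum_discrete {α ι : Type*} [MeasurableSpace α] (S : Finset ι)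
    {f : ι → α → M} (hf : ∀ i, Measurable (f i)) : Measurable fun x => ∑ i ∈ S, f i x := by
  have : MeasurableAdd₂ M := ⟨Measurable.of_discrete⟩
  exact Finset.measurable_sum S fun i _ => hf i

/-- splitting off one coordinate -/
theorem lintegral_infinitePi_insert {ι : Type*} [DecidableEq ι] {Ω : ι → Type*}
    [∀ i, MeasurableSpace (Ω i)] (P : ∀ i, Measure (Ω i)) [∀ i, IsProbabilityMeasure (P i)]
    (Y : ∀ i, Ω i → M) (hY : ∀ i, Measurable (Y i)) (S : Finset ι) (a : ι) (ha : a ∉ S)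
    (F : M → ℝ≥0∞) (c : M) :
    ∫⁻ w, F (c + ∑ m ∈ insert a S, Y m (w m)) ∂(Measure.infinitePi P) =
      ∫⁻ y, (∫⁻ w, F (c + Y a y + ∑ m ∈ S, Y m (w m)) ∂(Measure.infinitePi P)) ∂(P a) := by
  have : MeasurableAdd₂ M := ⟨Measurable.of_discrete⟩
  set μ := Measure.infinitePi P with hμ
  have hmeas : ∀ i, Measurable fun w : (∀ i, Ω i) => Y i (w i) :=
    fun i => (hY i).comp (measurable_pi_apply i)
  have hU := hmeas a
  have hV : Measurable fun w : (∀ i, Ω i) => ∑ m ∈ S, Y m (w m) :=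
    measurable_finset_sum_discrete S hmeas
  have hind : IndepFun (fun w : (∀ i, Ω i) => Y a (w a))
      (fun w : (∀ i, Ω i) => ∑ m ∈ S, Y m (w m)) μ := by
    have h1 := (iIndepFun_infinitePi (P := P) (X := Y) hY).indepFun_finsetSum_of_notMem
      hmeas ha
    have h2 : (∑ j ∈ S, fun w : (∀ i, Ω i) => Y j (w j)) =
        fun w : (∀ i, Ω i) => ∑ m ∈ S, Y m (w m) := by
      funext w
      simp
    rw [h2] at h1
    exact h1.symm
  have hmap := (indepFun_iff_map_prod_eq_prod_map_map hU.aemeasurable hV.aemeasurable).1 hind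
  have hG : Measurable fun p : M × M => F (c + p.1 + p.2) := Measurable.of_discrete
  have : IsProbabilityMeasure (μ.map fun w : (∀ i, Ω i) => ∑ m ∈ S, Y m (w m)) :=
    Measure.isProbabilityMeasure_map hV.aemeasurable
  calc ∫⁻ w, F (c + ∑ m ∈ insert a S, Y m (w m)) ∂μ
      = ∫⁻ w, (fun p : M × M => F (c + p.1 + p.2)) (Y a (w a), ∑ m ∈ S, Y m (w m)) ∂μ := by
        refine lintegral_congr fun w => ?_
        rw [Finset.sum_insert ha, ← add_assoc]
    _ = ∫⁻ p, (fun p : M × M => F (c + p.1 + p.2)) p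
          ∂(μ.map fun w => (Y a (w a), ∑ m ∈ S, Y m (w m))) :=
        (lintegral_map hG (hU.prodMk hV)).symm
    _ = ∫⁻ u, ∫⁻ v, F (c + u + v) ∂(μ.map fun w : (∀ i, Ω i) => ∑ m ∈ S, Y m (w m))
          ∂(μ.map fun w : (∀ i, Ω i) => Y a (w a)) := by
        rw [hmap, lintegral_prod _ hG.aemeasurable]
    _ = ∫⁻ w', ∫⁻ v, F (c + Y a (w' a) + v)
          ∂(μ.map fun w : (∀ i, Ω i) => ∑ m ∈ S, Y m (w m)) ∂μ := by
        rw [lintegral_map Measurable.of_discrete hU]
    _ = ∫⁻ w', ∫⁻ w, F (c + Y a (w' a) + ∑ m ∈ S, Y m (w m)) ∂μ ∂μ := by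
        refine lintegral_congr fun w' => ?_
        rw [lintegral_map Measurable.of_discrete hV]
    _ = ∫⁻ y, (∫⁻ w, F (c + Y a y + ∑ m ∈ S, Y m (w m)) ∂μ) ∂(P a) := by
        have h3 : Measurable fun y : Ω a =>
            ∫⁻ w, F (c + Y a y + ∑ m ∈ S, Y m (w m)) ∂μ :=
          (Measurable.of_discrete (f := fun u : M =>
            ∫⁻ w, F (c + u + ∑ m ∈ S, Y m (w m)) ∂μ)).comp (hY a)
        rw [← Measure.infinitePi_map_eval P a, lintegral_map h3 (measurable_pi_apply a)]

theorem lintegral_iid {E : Type*} [MeasurableSpace E] (μ : Measure E) [IsProbabilityMeasure μ]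
    {h : E → M} (hh : Measurable h) (k : ℕ) (F : M → ℝ≥0∞) (c : M) :
    ∫⁻ x, F (c + ∑ i ∈ Finset.range k, h (x i)) ∂(Measure.infinitePi fun _ : ℕ => μ) =
      ((stepA μ h)^[k] F) c := by
  induction k generalizing c with
  | zero => simp
  | succ k ih =>
    rw [Finset.range_add_one, lintegral_infinitePi_insert (fun _ : ℕ => μ) (fun _ => h)
      (fun _ => hh) _ _ Finset.notMem_range_self, Function.iterate_succ_apply']
    simp_rw [ih]
    rfl

theorem measurable_finPoisson_sum {E : Type*} [MeasurableSpace E] {h : E → M}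
    (hh : Measurable h) :
    Measurable fun w : ℕ × (ℕ → E) => ∑ i ∈ Finset.range w.1, h (w.2 i) :=
  measurable_from_prod_countable_right fun n =>
    measurable_finset_sum_discrete (Finset.range n)
      fun i => hh.comp (measurable_pi_apply i)

theorem stepA_smul_iterate {E : Type*} [MeasurableSpace E] (r : ℝ≥0) (μ : Measure E)
    {h : E → M} (hh : Measurable h) (F : M → ℝ≥0∞) (k : ℕ) (c : M) :
    ((stepA (r • μ) h)^[k] F) c = (r : ℝ≥0∞) ^ k * ((stepA μ h)^[k] F) c := by
  induction k generalizing c with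
  | zero => simp
  | succ k ih =>
    simp_rw [Function.iterate_succ_apply']
    rw [show ((stepA (r • μ) h)^[k] F) = fun c => (r : ℝ≥0∞) ^ k * ((stepA μ h)^[k] F) c
      from funext ih, stepA_const_mul _ hh, pow_succ, mul_assoc]
    congr 1
    unfold stepA
    rw [lintegral_smul_measure]
    rfl

theorem lintegral_finPoisson {E : Type*} [MeasurableSpace E] (r : ℝ≥0) (μ : Measure E)
    [IsProbabilityMeasure μ] {h : E → M} (hh : Measurable h) (F : M → ℝ≥0∞) (c : M) :
    ∫⁻ w, F (c + ∑ i ∈ Finset.range w.1, h (w.2 i)) ∂(finPoisson r μ) = Phi (r • μ) h F c := by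
  have hm : Measurable fun w : ℕ × (ℕ → E) => F (c + ∑ i ∈ Finset.range w.1, h (w.2 i)) :=
    measurable_shift_comp (measurable_finPoisson_sum hh) F c
  unfold finPoisson
  rw [lintegral_prod _ hm.aemeasurable]
  simp only
  simp_rw [lintegral_iid μ hh]
  rw [lintegral_countable']
  unfold Phi
  rw [← ENNReal.tsum_mul_left]
  refine tsum_congr fun k => ?_
  rw [poissonMeasure_singleton, stepA_smul_iterate r μ hh]
  have h1 : ((r • μ) univ).toReal = r := by simp
  have h2 : ENNReal.ofReal (Real.exp (-(r : ℝ)) * (r : ℝ) ^ k / (k.factorial : ℝ)) =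
      ENNReal.ofReal (Real.exp (-(r : ℝ))) * ((k.factorial : ℝ≥0∞)⁻¹ * (r : ℝ≥0∞) ^ k) := by
    rw [ENNReal.ofReal_div_of_pos (by positivity), ENNReal.ofReal_mul (Real.exp_nonneg _),
      ENNReal.ofReal_pow (by positivity), ENNReal.ofReal_coe_nnreal, ENNReal.ofReal_natCast,
      ENNReal.div_eq_inv_mul]
    ring
  rw [h1, h2]
  ring

instance instIsProbabilityMeasureFinPoisson {E : Type*} [MeasurableSpace E] (r : ℝ≥0)
    (μ : Measure E) [IsProbabilityMeasure μ] : IsProbabilityMeasure (finPoisson r μ) := by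
  unfold finPoisson
  infer_instance

instance instIsProbabilityMeasureCellLaw (m : ℤ) : IsProbabilityMeasure (cellLaw m) := by
  constructor
  simp [cellLaw]

instance instIsProbabilityMeasureAngleLaw : IsProbabilityMeasure angleLaw := by
  constructor
  have h1 : ENNReal.ofReal Real.pi ≠ 0 := by
    simp [Real.pi_pos]
  simp [angleLaw, ENNReal.inv_mul_cancel h1 ENNReal.ofReal_ne_top]

instance instIsProbabilityMeasureLineLaw (γ : ℝ≥0) : IsProbabilityMeasure (lineLaw γ) := by
  unfold lineLaw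
  infer_instance

instance instIsProbabilityMeasureMarkLaw (l : ℝ≥0) : IsProbabilityMeasure (markLaw l) := by
  unfold markLaw
  infer_instance

instance instIsFiniteMeasureNuS (γ : ℝ≥0) (S : Finset ℤ) : IsFiniteMeasure (nuS γ S) := by
  have h : nuS γ S = ∑ m ∈ S, γ • ((cellLaw m).prod angleLaw) := rfl
  rw [h]
  infer_instance

theorem lintegral_lineLaw (γ : ℝ≥0) {h : ℝ × ℝ → M} (hh : Measurable h) (S : Finset ℤ)
    (F : M → ℝ≥0∞) (c : M) :
    ∫⁻ w, F (c + ∑ m ∈ S, ∑ i ∈ Finset.range (w m).1, h ((w m).2 i)) ∂(lineLaw γ) =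
      Phi (nuS γ S) h F c := by
  classical
  induction S using Finset.induction_on generalizing c with
  | empty =>
    have h1 : nuS γ ∅ = 0 := rfl
    rw [Phi_of_insens (by rw [h1]; simp)]
    simp
  | insert a S ha ih =>
    have h1 : nuS γ (insert a S) = γ • ((cellLaw a).prod angleLaw) + nuS γ S := by
      unfold nuS
      rw [Finset.sum_insert ha]
      rfl
    rw [h1, Phi_add _ _ hh, ← lintegral_finPoisson γ ((cellLaw a).prod angleLaw) hh]
    unfold lineLaw
    rw [lintegral_infinitePi_insert (fun m : ℤ => finPoisson γ ((cellLaw m).prod angleLaw))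
      (fun _ w => ∑ i ∈ Finset.range w.1, h (w.2 i)) (fun _ => measurable_finPoisson_sum hh)
      S a ha F c]
    refine lintegral_congr fun y => ?_
    exact ih _

/-- a.s. regularity of the configurations -/
theorem ae_lineLaw (γ : ℝ≥0) : ∀ᵐ w ∂(lineLaw γ), ∀ (m : ℤ) (i : ℕ),
    ((w m).2 i).1 ∈ Ico (m : ℝ) (m + 1) ∧ ((w m).2 i).2 ∈ Ico 0 Real.pi := by
  rw [ae_all_iff]
  intro m
  rw [ae_all_iff]
  intro i
  have h1 : MeasurePreserving (fun w : LineConf => w m) (lineLaw γ)
      (finPoisson γ ((cellLaw m).prod angleLaw)) :=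
    measurePreserving_eval_infinitePi (fun m : ℤ => finPoisson γ ((cellLaw m).prod angleLaw)) m
  have h2 : MeasurePreserving (Prod.snd : ℕ × (ℕ → ℝ × ℝ) → (ℕ → ℝ × ℝ))
      (finPoisson γ ((cellLaw m).prod angleLaw))
      (Measure.infinitePi fun _ : ℕ => (cellLaw m).prod angleLaw) :=
    measurePreserving_snd
  have h3 : MeasurePreserving (fun x : ℕ → ℝ × ℝ => x i)
      (Measure.infinitePi fun _ : ℕ => (cellLaw m).prod angleLaw)
      ((cellLaw m).prod angleLaw) :=
    measurePreserving_eval_infinitePi (fun _ : ℕ => (cellLaw m).prod angleLaw) i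
  have h4 := h3.comp (h2.comp h1)
  have h5 : ∀ᵐ q ∂((cellLaw m).prod angleLaw),
      q.1 ∈ Ico (m : ℝ) (m + 1) ∧ q.2 ∈ Ico 0 Real.pi := by
    have h6 : ∀ᵐ x ∂(cellLaw m), x ∈ Ico (m : ℝ) (m + 1) := ae_restrict_mem measurableSet_Ico
    have h7 : ∀ᵐ x ∂angleLaw, x ∈ Ico 0 Real.pi :=
      (Measure.ae_smul_measure (ae_restrict_mem measurableSet_Ico) _)
    filter_upwards [Measure.quasiMeasurePreserving_fst.ae h6,
      Measure.quasiMeasurePreserving_snd.ae h7] with q hq1 hq2
    exact ⟨hq1, hq2⟩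
  exact h4.quasiMeasurePreserving.ae h5

theorem ae_markLaw (l : ℝ≥0) : ∀ᵐ x ∂(markLaw l), ∀ (a : ℤ × ℕ × ℤ) r,
    ((x a).2 r) ∈ Ico (a.2.2 : ℝ) (a.2.2 + 1) := by
  rw [ae_all_iff]
  intro a
  rw [ae_all_iff]
  intro r
  have h1 : MeasurePreserving (fun w : MarkConf => w a) (markLaw l)
      (finPoisson l (cellLaw a.2.2)) :=
    measurePreserving_eval_infinitePi (fun a : ℤ × ℕ × ℤ => finPoisson l (cellLaw a.2.2)) a
  have h2 : MeasurePreserving (Prod.snd : ℕ × (ℕ → ℝ) → (ℕ → ℝ))
      (finPoisson l (cellLaw a.2.2))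
      (Measure.infinitePi fun _ : ℕ => cellLaw a.2.2) :=
    measurePreserving_snd
  have h3 : MeasurePreserving (fun x : ℕ → ℝ => x r)
      (Measure.infinitePi fun _ : ℕ => cellLaw a.2.2) (cellLaw a.2.2) :=
    measurePreserving_eval_infinitePi (fun _ : ℕ => cellLaw a.2.2) r
  have h4 := h3.comp (h2.comp h1)
  exact h4.quasiMeasurePreserving.ae (ae_restrict_mem measurableSet_Ico)

theorem markLaw_empty (l : ℝ≥0) (a : ℤ × ℕ × ℤ) :
    markLaw l {x | (x a).1 = 0} = ENNReal.ofReal (Real.exp (-l)) := by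
  have h1 : MeasurePreserving (fun w : MarkConf => w a) (markLaw l)
      (finPoisson l (cellLaw a.2.2)) :=
    measurePreserving_eval_infinitePi (fun a : ℤ × ℕ × ℤ => finPoisson l (cellLaw a.2.2)) a
  have h2 : MeasurePreserving (Prod.fst : ℕ × (ℕ → ℝ) → ℕ)
      (finPoisson l (cellLaw a.2.2)) (poissonMeasure l) :=
    measurePreserving_fst
  have h3 := (h2.comp h1).measure_preimage (s := {0}) (MeasurableSet.of_discrete).nullMeasurableSet
  rw [poissonMeasure_singleton] at h3
  have h4 : (Prod.fst ∘ fun w : MarkConf => w a) ⁻¹' {0} = {x : MarkConf | (x a).1 = 0} := rfl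
  rw [h4] at h3
  rw [h3]
  simp

end Link

end Pool.Agent.Lib.MP_3e2d90_pr
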