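import Mathlib
import Pool.Agent.Lib.MP_3e2d90_pr.Basic

/-!
# Product bounds for bad nodes, independence on disjoint sets of coordinates
-/

open MeasureTheory ProbabilityTheory Set
open scoped NNReal ENNReal

namespace Pool.Agent.Lib.MP_3e2d90_pr

theorem measure_iInter_Bad_le {Ω : Type*} [MeasurableSpace Ω] (μ : Measure Ω)
    {X : ℕ} (hX : 100 ≤ X) {B : ℤ × ℤ → Set Ω} {f : ℤ × ℤ → ℝ≥0∞}
    (hprod : ∀ (ι : Type) [Fintype ι] (z : ι → ℤ × ℤ),
      (∀ i j, i ≠ j → 20 * (Ls X 0 : ℝ) ≤ dist (loc X 0 (z i)) (loc X 0 (z j))) →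
      μ (⋂ i, B (z i)) ≤ ∏ i, f (z i)) : ∀ (k : ℕ) (ι : Type) [Fintype ι] (y : ι → ℤ × ℤ),
      (∀ i j, i ≠ j → 20 * (Ls X k : ℝ) ≤ dist (loc X k (y i)) (loc X k (y j))) →
      μ (⋂ i, Bad X B k (y i)) ≤ ∏ i, Fk X f k (y i) := by
  classical
  intro k
  induction k with
  | zero => exact hprod
  | succ k ih =>
    intro ι _ y hy
    have : Nonempty (Fin 4 ↪ Fin 85) := ⟨Fin.castLEEmb (by norm_num)⟩
    have hm : ∀ i, ∃ m : Fin 4 ↪ Fin 85, ∏ j, ∑ b ∈ Circ X k (m j) (y i), Fk X f k b =
        ⨅ m : Fin 4 ↪ Fin 85, ∏ j, ∑ b ∈ Circ X k (m j) (y i), Fk X f k b := fun i =>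
      exists_eq_ciInf_of_finite
    choose m hm using hm
    set v : ι → ℝ≥0∞ := fun i => ∏ j, ∑ b ∈ Circ X k (m i j) (y i), Fk X f k b with hv
    have hF : ∀ i, Fk X f (k + 1) (y i) = min 1 (v i) := fun i => by
      rw [Fk, hv]
      simp only
      rw [hm i]
    have hprodF : ∏ i, Fk X f (k + 1) (y i) = ∏ i : {i // v i < 1}, v i := by
      rw [← Finset.prod_subtype (Finset.univ.filter fun i => v i < 1) (by simp)
        (fun i => v i), Finset.prod_filter]
      refine Finset.prod_congr rfl fun i _ => ?_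
      rw [hF]
      split_ifs with h
      · exact min_eq_right h.le
      · exact min_eq_left (not_lt.1 h)
    rw [hprodF]
    set c := Fintype.piFinset (fun p : {i // v i < 1} × Fin 4 =>
      Circ X k (m p.1 p.2) (y p.1)) with hc
    have hsub : (⋂ i, Bad X B (k + 1) (y i)) ⊆ ⋃ b ∈ c, ⋂ p, Bad X B k (b p) := by
      intro w hw
      have h1 : ∀ p : {i // v i < 1} × Fin 4, ∃ b ∈ Circ X k (m p.1 p.2) (y p.1),
          w ∈ Bad X B k b := by
        intro p
        have h2 := Set.mem_iInter.1 (Set.mem_iInter.1 hw p.1) (m p.1 p.2)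
        simpa only [Set.mem_iUnion, exists_prop] using h2
      choose b hb hb' using h1
      simp only [Set.mem_iUnion]
      exact ⟨b, Fintype.mem_piFinset.2 hb, Set.mem_iInter.2 hb'⟩
    calc μ (⋂ i, Bad X B (k + 1) (y i)) ≤ μ (⋃ b ∈ c, ⋂ p, Bad X B k (b p)) := measure_mono hsub
      _ ≤ ∑ b ∈ c, μ (⋂ p, Bad X B k (b p)) := measure_biUnion_finset_le _ _
      _ ≤ ∑ b ∈ c, ∏ p, Fk X f k (b p) := by
          refine Finset.sum_le_sum fun b hb => ih _ b ?_
          have hb' := Fintype.mem_piFinset.1 hb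
          intro p q hpq
          have h0 : (0 : ℝ) ≤ Ls X k := by positivity
          have h3 := big_le hX k
          have h5 : (10 : ℝ) ^ 20 * Ls X k ≥ 3400 * Ls X k := by nlinarith
          by_cases hp : p.1 = q.1
          · have hp2 : p.2 ≠ q.2 := fun h => hpq (Prod.ext hp h)
            have h1 := hb' p
            have h2 := hb' q
            rw [hp] at h1
            have h4 := dist_children hX (fun h => hp2 ((m q.1).injective h)) h1 h2
            linarith
          · have h1 := dist_child_le (hb' p)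
            have h2 := dist_child_le (hb' q)
            have h4 := hy p.1 q.1 (fun h => hp (Subtype.ext h))
            have h6 := dist_triangle4 (loc X (k + 1) (y p.1)) (loc X k (b p)) (loc X k (b q))
              (loc X (k + 1) (y q.1))
            rw [dist_comm (loc X (k + 1) (y p.1)) (loc X k (b p))] at h6
            linarith
      _ = ∏ p : {i // v i < 1} × Fin 4, ∑ b ∈ Circ X k (m p.1 p.2) (y p.1), Fk X f k b := by
          rw [hc, Finset.prod_univ_sum]
      _ = ∏ i : {i // v i < 1}, v i := by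
          rw [Fintype.prod_prod_type]

theorem measure_Bad_le_Fk {Ω : Type*} [MeasurableSpace Ω] (μ : Measure Ω)
    {X : ℕ} (hX : 100 ≤ X) {B : ℤ × ℤ → Set Ω} {f : ℤ × ℤ → ℝ≥0∞}
    (hprod : ∀ (ι : Type) [Fintype ι] (z : ι → ℤ × ℤ),
      (∀ i j, i ≠ j → 20 * (Ls X 0 : ℝ) ≤ dist (loc X 0 (z i)) (loc X 0 (z j))) →
      μ (⋂ i, B (z i)) ≤ ∏ i, f (z i)) (k : ℕ) (a : ℤ × ℤ) :
    μ (Bad X B k a) ≤ Fk X f k a := by
  have h := measure_iInter_Bad_le μ hX hprod k Unit (fun _ => a)
    (fun i j hij => absurd (Subsingleton.elim i j) hij)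
  rw [Set.iInter_const] at h
  simpa using h

/-- events depending on disjoint finite sets of coordinates are independent -/
theorem infinitePi_inter {ι : Type*} {Ω : ι → Type*} [∀ i, MeasurableSpace (Ω i)]
    [∀ i, Nonempty (Ω i)]
    (P : ∀ i, Measure (Ω i)) [∀ i, IsProbabilityMeasure (P i)] {A A' : Finset ι}
    (hA : Disjoint A A') {B B' : Set (∀ i, Ω i)} (hB : MeasurableSet B) (hB' : MeasurableSet B')
    (hdep : ∀ x y : ∀ i, Ω i, (∀ i ∈ A, x i = y i) → x ∈ B → y ∈ B)
    (hdep' : ∀ x y : ∀ i, Ω i, (∀ i ∈ A', x i = y i) → x ∈ B' → y ∈ B') :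
    Measure.infinitePi P (B ∩ B') = Measure.infinitePi P B * Measure.infinitePi P B' := by
  classical
  have hI : iIndepFun (fun i (w : ∀ i, Ω i) => w i) (Measure.infinitePi P) :=
    iIndepFun_infinitePi (X := fun i (w : Ω i) => w) (fun i => measurable_id)
  have hJ := hI.indepFun_finset A A' hA (fun i => measurable_pi_apply i)
  have x₀ : ∀ i, Ω i := fun i => Classical.arbitrary _
  set e : ∀ s : Finset ι, (∀ i : s, Ω i) → ∀ i, Ω i := fun s y i =>
    if h : i ∈ s then y ⟨i, h⟩ else x₀ i with he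
  have hme : ∀ s, Measurable (e s) := by
    intro j
    refine measurable_pi_lambda _ fun i => ?_
    by_cases h : i ∈ j
    · simp only [he, h, dite_true]
      exact measurable_pi_apply _
    · simp only [he, h, dite_false]
      exact measurable_const
  have hBe : B = (fun (w : ∀ i, Ω i) (i : A) => w i) ⁻¹' (e A ⁻¹' B) := by
    ext w
    simp only [Set.mem_preimage]
    constructor
    · refine hdep _ _ fun i hi => ?_
      simp [he, hi]
    · refine hdep _ _ fun i hi => ?_
      simp [he, hi]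
  have hBe' : B' = (fun (w : ∀ i, Ω i) (i : A') => w i) ⁻¹' (e A' ⁻¹' B') := by
    ext w
    simp only [Set.mem_preimage]
    constructor
    · refine hdep' _ _ fun i hi => ?_
      simp [he, hi]
    · refine hdep' _ _ fun i hi => ?_
      simp [he, hi]
  have := hJ.measure_inter_preimage_eq_mul _ _ ((hme A) hB) ((hme A') hB')
  rw [← hBe, ← hBe'] at this
  exact this

/-- independence of events depending on disjoint finite sets of coordinates -/
theorem infinitePi_iInter {ι : Type*} {Ω : ι → Type*} [∀ i, MeasurableSpace (Ω i)]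
    [∀ i, Nonempty (Ω i)]
    (P : ∀ i, Measure (Ω i)) [∀ i, IsProbabilityMeasure (P i)] {J : Type*} [Fintype J]
    (A : J → Finset ι) (hA : ∀ i j, i ≠ j → Disjoint (A i) (A j)) (B : J → Set (∀ i, Ω i))
    (hB : ∀ j, MeasurableSet (B j))
    (hdep : ∀ j, ∀ x y : ∀ i, Ω i, (∀ i ∈ A j, x i = y i) → x ∈ B j → y ∈ B j) :
    Measure.infinitePi P (⋂ j, B j) = ∏ j, Measure.infinitePi P (B j) := by
  classical
  have h : ∀ s : Finset J, Measure.infinitePi P (⋂ j ∈ s, B j) =
      ∏ j ∈ s, Measure.infinitePi P (B j) := by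
    intro s
    induction s using Finset.induction_on with
    | empty => simp
    | insert j s hj ih =>
      rw [Finset.set_biInter_insert, Finset.prod_insert hj, ← ih]
      refine infinitePi_inter P (A := A j) (A' := s.biUnion A) ?_ (hB j)
        (Finset.measurableSet_biInter _ fun i _ => hB i) (hdep j) ?_
      · rw [Finset.disjoint_biUnion_right]
        intro i hi
        exact hA j i (fun h => hj (h ▸ hi))
      · intro x y hxy hx
        simp only [Set.mem_iInter] at hx ⊢
        intro i hi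
        exact hdep i x y (fun l hl => hxy l (Finset.mem_biUnion.2 ⟨i, hi, hl⟩)) (hx i hi)
  have := h Finset.univ
  simpa using this

end Pool.Agent.Lib.MP_3e2d90_pr
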