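import Mathlib
import Pool.Agent.Lib.MP_3e2d90_pr.Quench

/-!
# Local dependence of the level-0 events on the marks, Fubini
-/

open MeasureTheory ProbabilityTheory Set
open scoped NNReal ENNReal

namespace Pool.Agent.Lib.MP_3e2d90_pr

/-- the lines of cell `m` have their parameter in `[m, m + 1)` -/
def Reg (w : LineConf) : Prop := ∀ (m : ℤ) (i : ℕ), ((w m).2 i).1 ∈ Ico (m : ℝ) (m + 1)

/-- marks which can influence the level-0 events at `z` -/
def locSet' (X : ℕ) (w : LineConf) (z : ℤ × ℤ) : Set (ℤ × ℕ × ℤ) :=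
  {a | a.2.1 < (w a.1).1 ∧ (w a.1).2 a.2.1 ∈ Near (6 * Ls X 0) (loc X 0 z) ∧
    |(a.2.2 : ℝ) - tr ((w a.1).2 a.2.1).2 (loc X 0 z)| ≤ 6 * Ls X 0}

lemma locSet'_finite (X : ℕ) {w : LineConf} (hw : Reg w) (z : ℤ × ℤ) :
    (locSet' X w z).Finite := by
  obtain ⟨N, hN⟩ := exists_nat_ge (‖loc X 0 z‖ + 6 * Ls X 0 + 1)
  set K := (Finset.Icc (-(N : ℤ)) N).sup (fun m => (w m).1) with hK
  refine Set.Finite.subset (Finset.finite_toSet
    ((Finset.Icc (-(N : ℤ)) N) ×ˢ (Finset.range K ×ˢ (Finset.Icc (-(N : ℤ)) N)))) ?_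
  rintro ⟨m, i, k⟩ ⟨h1, h2, h3⟩
  have h2' : |((w m).2 i).1 - pr ((w m).2 i).2 (loc X 0 z)| ≤ 6 * Ls X 0 := h2
  have h4 := abs_pr_le ((w m).2 i).2 (loc X 0 z)
  have h5 := abs_tr_le ((w m).2 i).2 (loc X 0 z)
  have h6 := hw m i
  rw [Set.mem_Ico] at h6
  simp only at h1 h3
  have hm : m ∈ Finset.Icc (-(N : ℤ)) N := by
    rw [Finset.mem_Icc]
    rw [abs_le] at h2' h4
    constructor
    · have : (-(N : ℝ)) ≤ m := by linarith
      exact_mod_cast this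
    · have : (m : ℝ) ≤ N := by linarith
      exact_mod_cast this
  have hk : k ∈ Finset.Icc (-(N : ℤ)) N := by
    rw [Finset.mem_Icc]
    rw [abs_le] at h3 h5
    constructor
    · have : (-(N : ℝ)) ≤ k := by linarith
      exact_mod_cast this
    · have : (k : ℝ) ≤ N := by linarith
      exact_mod_cast this
  have hi : i ∈ Finset.range K := by
    rw [Finset.mem_range]
    exact h1.trans_le (Finset.le_sup (f := fun m => (w m).1) hm)
  exact Finset.mem_coe.2 (Finset.mem_product.2 ⟨hm, Finset.mem_product.2 ⟨hi, hk⟩⟩)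

/-- the finite set of marks which can influence the level-0 events at `z` -/
noncomputable def locSet (X : ℕ) {w : LineConf} (hw : Reg w) (z : ℤ × ℤ) :
    Finset (ℤ × ℕ × ℤ) := (locSet'_finite X hw z).toFinset

lemma mem_locSet {X : ℕ} {w : LineConf} {hw : Reg w} {z : ℤ × ℤ} {a : ℤ × ℕ × ℤ} :
    a ∈ locSet X hw z ↔ a.2.1 < (w a.1).1 ∧ (w a.1).2 a.2.1 ∈ Near (6 * Ls X 0) (loc X 0 z) ∧
    |(a.2.2 : ℝ) - tr ((w a.1).2 a.2.1).2 (loc X 0 z)| ≤ 6 * Ls X 0 := by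
  rw [locSet, Set.Finite.mem_toFinset]
  rfl

lemma locSet_disjoint {X : ℕ} (hX : 100 ≤ X) {w : LineConf} (hw : Reg w) {z z' : ℤ × ℤ}
    (h : 20 * (Ls X 0 : ℝ) ≤ dist (loc X 0 z) (loc X 0 z')) :
    Disjoint (locSet X hw z) (locSet X hw z') := by
  rw [Finset.disjoint_left]
  intro a ha ha'
  rw [mem_locSet] at ha ha'
  set q := (w a.1).2 a.2.1 with hq
  have h1 : |q.1 - pr q.2 (loc X 0 z)| ≤ 6 * Ls X 0 := ha.2.1
  have h2 : |q.1 - pr q.2 (loc X 0 z')| ≤ 6 * Ls X 0 := ha'.2.1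
  have h3 := ha.2.2
  have h4 := ha'.2.2
  have h5 := pr_sq_add_tr_sq q.2 (loc X 0 z - loc X 0 z')
  rw [← dist_eq_norm] at h5
  have h6 : |pr q.2 (loc X 0 z - loc X 0 z')| ≤ 12 * Ls X 0 := by
    rw [pr_sub]
    rw [abs_le] at h1 h2 ⊢
    constructor <;> linarith
  have h7 : |tr q.2 (loc X 0 z - loc X 0 z')| ≤ 12 * Ls X 0 := by
    rw [tr_sub]
    rw [abs_le] at h3 h4 ⊢
    constructor <;> linarith
  have hL : (0 : ℝ) < Ls X 0 := by
    have := Ls_ge_real hX 0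
    linarith [show (0 : ℝ) < 10 ^ 10 by norm_num]
  have h8 := sq_le_sq' (abs_le.1 h6).1 (abs_le.1 h6).2
  have h9 := sq_le_sq' (abs_le.1 h7).1 (abs_le.1 h7).2
  nlinarith

/-- product bound for local events -/
theorem hprod_of_local {X : ℕ} (hX : 100 ≤ X) {w : LineConf} (hw : Reg w) (l : ℝ≥0)
    {B : ℤ × ℤ → Set MarkConf} (hB : ∀ y, MeasurableSet (B y))
    (hdep : ∀ y, ∀ x x' : MarkConf, (∀ a ∈ locSet X hw y, x a = x' a) → x ∈ B y → x' ∈ B y)
    (hprob : ∀ a : ℤ × ℕ × ℤ, IsProbabilityMeasure (finPoisson l (cellLaw a.2.2)))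
    (ι : Type) [Fintype ι] (z : ι → ℤ × ℤ)
    (hz : ∀ i j, i ≠ j → 20 * (Ls X 0 : ℝ) ≤ dist (loc X 0 (z i)) (loc X 0 (z j))) :
    markLaw l (⋂ i, B (z i)) ≤ ∏ i, markLaw l (B (z i)) := by
  refine le_of_eq ?_
  rw [markLaw]
  exact infinitePi_iInter _ (fun i => locSet X hw (z i))
    (fun i j hij => locSet_disjoint hX hw (hz i j hij)) (fun i => B (z i)) (fun i => hB _)
    (fun i => hdep (z i))

lemma preimage_Bad {Ω Ω' : Type*} (X : ℕ) (B : ℤ × ℤ → Set Ω) (g : Ω' → Ω) (k : ℕ)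
    (a : ℤ × ℤ) : g ⁻¹' (Bad X B k a) = Bad X (fun y => g ⁻¹' (B y)) k a := by
  induction k generalizing a with
  | zero => rfl
  | succ k ih =>
    simp only [Bad, Set.preimage_iInter, Set.preimage_iUnion, ih]

/-- Fubini and the quenched product bound -/
theorem cox_Bad_le {X : ℕ} (hX : 100 ≤ X) (γ l : ℝ≥0) [SFinite (markLaw l)]
    (hreg : ∀ᵐ w ∂(lineLaw γ), Reg w)
    (hprob : ∀ a : ℤ × ℕ × ℤ, IsProbabilityMeasure (finPoisson l (cellLaw a.2.2)))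
    {B : ℤ × ℤ → Set (LineConf × MarkConf)} (hB : ∀ y, MeasurableSet (B y))
    (hdep : ∀ (w : LineConf) (hw : Reg w) (y : ℤ × ℤ) (x x' : MarkConf),
      (∀ a ∈ locSet X hw y, x a = x' a) → (w, x) ∈ B y → (w, x') ∈ B y)
    (k : ℕ) (a : ℤ × ℤ) :
    coxLaw γ l (Bad X B k a) ≤
      ∫⁻ w, Fk X (fun y => markLaw l (Prod.mk w ⁻¹' (B y))) k a ∂(lineLaw γ) := by
  rw [coxLaw, Measure.prod_apply (measurableSet_Bad X hB k a)]
  refine lintegral_mono_ae ?_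
  filter_upwards [hreg] with w hw
  rw [preimage_Bad]
  exact measure_Bad_le_Fk (markLaw l) hX (fun ι _ z hz =>
    hprod_of_local hX hw l (fun y => measurable_prodMk_left (hB y))
      (fun y x x' hx hxB => hdep w hw y x x' hx hxB) hprob ι z hz) k a

end Pool.Agent.Lib.MP_3e2d90_pr
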