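import Mathlib
import Pool.Agent.Lib.MP_3e2d90_pr.Local
import Pool.Agent.Lib.MP_3e2d90_pr.Hit
import Pool.Agent.Lib.MP_3e2d90_pr.LineMeas
import Pool.Agent.Lib.MP_3e2d90_pr.Link

/-!
# Small lemmas for the quenched bounds (helper43, helper69)
-/

open MeasureTheory ProbabilityTheory Set
open scoped NNReal ENNReal

namespace Pool.Agent.Lib.MP_3e2d90_pr

lemma markLaw_nonempty (l : ℝ≥0) (a : ℤ × ℕ × ℤ) :
    markLaw l {x | 0 < (x a).1} = 1 - ENNReal.ofReal (Real.exp (-l)) := by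
  rw [← markLaw_empty l a]
  have hm : MeasurableSet {x : MarkConf | (x a).1 = 0} :=
    (measurable_fst.comp (measurable_pi_apply a)) (measurableSet_singleton 0)
  have e : {x : MarkConf | 0 < (x a).1} = {x : MarkConf | (x a).1 = 0}ᶜ := by
    ext x
    simp only [mem_ofPred_eq, mem_compl_iff]
    omega
  rw [e, prob_compl_eq_one_sub hm]

lemma markLaw_nonempty_le (l : ℝ≥0) (a : ℤ × ℕ × ℤ) :
    markLaw l {x | 0 < (x a).1} ≤ l := by
  rw [markLaw_nonempty, tsub_le_iff_right]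
  have h1 := Real.add_one_le_exp (-(l : ℝ))
  have h2 : (1 : ℝ) ≤ l + Real.exp (-(l : ℝ)) := by linarith
  calc (1 : ℝ≥0∞) = ENNReal.ofReal 1 := ENNReal.ofReal_one.symm
    _ ≤ ENNReal.ofReal (l + Real.exp (-(l : ℝ))) := ENNReal.ofReal_le_ofReal h2
    _ = l + ENNReal.ofReal (Real.exp (-(l : ℝ))) := by
        rw [ENNReal.ofReal_add (NNReal.coe_nonneg l) (by positivity), ENNReal.ofReal_coe_nnreal]

open Classical in
lemma ext_sum_hit {α : Type*} {W : Finset α} (H : α → Set (ℝ × ℝ)) (w : LineConf) (S : Finset ℤ)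
    {z : α} (hz : z ∈ W) :
    ext (0 + ∑ m ∈ S, ∑ i ∈ Finset.range (w m).1, hit W H ((w m).2 i)) z =
      ∑ m ∈ S, ((Finset.range (w m).1).filter (fun i => (w m).2 i ∈ H z)).card := by
  have h1 : ∀ n : W → ℕ, ext n z = n ⟨z, hz⟩ := by
    intro n
    unfold ext
    simp [hz]
  rw [h1, zero_add, Finset.sum_apply]
  refine Finset.sum_congr rfl fun m _ => ?_
  rw [Finset.sum_apply, Finset.card_filter]
  rfl

/-- the integers close to a real number -/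
noncomputable def cells (t r : ℝ) : Finset ℤ := Finset.Icc ⌈t - r⌉ ⌊t + r⌋

lemma mem_cells {t r : ℝ} {k : ℤ} : k ∈ cells t r ↔ |(k : ℝ) - t| ≤ r := by
  rw [cells, Finset.mem_Icc, Int.ceil_le, Int.le_floor, abs_le]
  constructor
  · rintro ⟨h1, h2⟩
    constructor <;> linarith
  · rintro ⟨h1, h2⟩
    constructor <;> linarith

lemma card_cells_le (t : ℝ) (n : ℕ) : (cells t n).card ≤ 2 * n + 1 := by
  rw [cells, Int.card_Icc]
  have h1 : (⌊t + n⌋ : ℝ) ≤ t + n := Int.floor_le _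
  have h2 : t - n ≤ (⌈t - n⌉ : ℝ) := Int.le_ceil _
  have h3 : ((⌊t + n⌋ : ℤ) : ℝ) - ((⌈t - n⌉ : ℤ) : ℝ) ≤ 2 * n := by linarith
  have h4 : ⌊t + (n : ℝ)⌋ - ⌈t - (n : ℝ)⌉ ≤ 2 * (n : ℤ) := by exact_mod_cast h3
  omega

lemma ae_Reg (γ : ℝ≥0) : ∀ᵐ w ∂(lineLaw γ), Reg w := by
  filter_upwards [ae_lineLaw γ] with w hw m i using (hw m i).1

/-- the level-0 nodes within distance `r` of a point form a finite set -/
lemma finite_locNodes {X : ℕ} (hX : 100 ≤ X) (c : ℂ) (r : ℝ) :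
    {z : ℤ × ℤ | dist (loc X 0 z) c ≤ r}.Finite := by
  obtain ⟨N, hN⟩ := exists_nat_ge (‖c‖ + r)
  refine Set.Finite.subset (Finset.finite_toSet
    ((Finset.Icc (-(N : ℤ)) N) ×ˢ (Finset.Icc (-(N : ℤ)) N))) ?_
  rintro ⟨x, y⟩ hz
  have hz' : dist (loc X 0 (x, y)) c ≤ r := hz
  rw [dist_eq_norm] at hz'
  have h1 : ‖loc X 0 (x, y)‖ ≤ N := by
    have := norm_sub_norm_le (loc X 0 (x, y)) c
    linarith
  have hL : (1 : ℝ) ≤ Ls X 0 := by
    have := Ls_ge_real hX 0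
    linarith [show (1 : ℝ) ≤ 10 ^ 10 by norm_num]
  have h2 : |(loc X 0 (x, y)).re| ≤ N := (Complex.abs_re_le_norm _).trans h1
  have h3 : |(loc X 0 (x, y)).im| ≤ N := (Complex.abs_im_le_norm _).trans h1
  have e1 : (loc X 0 (x, y)).re = (Ls X 0 : ℝ) * x := rfl
  have e2 : (loc X 0 (x, y)).im = (Ls X 0 : ℝ) * y := rfl
  rw [e1, abs_mul, abs_of_nonneg (by positivity : (0 : ℝ) ≤ Ls X 0)] at h2
  rw [e2, abs_mul, abs_of_nonneg (by positivity : (0 : ℝ) ≤ Ls X 0)] at h3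
  have h4 : |(x : ℝ)| ≤ N := by nlinarith [abs_nonneg (x : ℝ)]
  have h5 : |(y : ℝ)| ≤ N := by nlinarith [abs_nonneg (y : ℝ)]
  have h6 : |x| ≤ (N : ℤ) := by exact_mod_cast h4
  have h7 : |y| ≤ (N : ℤ) := by exact_mod_cast h5
  rw [abs_le] at h6 h7
  exact Finset.mem_coe.2 (Finset.mem_product.2 ⟨Finset.mem_Icc.2 h6, Finset.mem_Icc.2 h7⟩)

end Pool.Agent.Lib.MP_3e2d90_pr
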