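import Mathlib
import Pool.Agent.Lib.MP_3e2d90_pr.Local2
import Pool.Agent.Lib.MP_3e2d90_pr.AC

/-!
# Small `λ`: probability of bad nodes
-/

open MeasureTheory ProbabilityTheory Set
open scoped NNReal ENNReal

namespace Pool.Agent.Lib.MP_3e2d90_pr

lemma measurable_line (m : ℤ) (i : ℕ) : Measurable fun w : LineConf => (w m).2 i :=
  (measurable_pi_apply i).comp (measurable_snd.comp (measurable_pi_apply m))

lemma measurable_count (m : ℤ) : Measurable fun w : LineConf => (w m).1 :=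
  measurable_fst.comp (measurable_pi_apply m)

lemma measurable_tr_snd (z : ℂ) : Measurable (fun q : ℝ × ℝ => tr q.2 z) := by
  unfold tr
  exact (measurable_const.mul (Real.measurable_cos.comp measurable_snd)).sub
    (measurable_const.mul (Real.measurable_sin.comp measurable_snd))

lemma measurableSet_BAC (X : ℕ) (z : ℤ × ℤ) : MeasurableSet (BAC X z) := by
  have e : BAC X z = ⋃ (m : ℤ), ⋃ (i : ℕ), ⋃ (k : ℤ),
      {w : LineConf × MarkConf | i < (w.1 m).1} ∩ ({w | 0 < (w.2 (m, i, k)).1} ∩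
      ({w | (w.1 m).2 i ∈ Near (3 * Ls X 0) (loc X 0 z)} ∩
      {w | |(k : ℝ) - tr ((w.1 m).2 i).2 (loc X 0 z)| ≤ 3 * Ls X 0})) := by
    ext w
    simp only [BAC, Set.mem_iUnion, Set.mem_inter_iff]
    rfl
  rw [e]
  refine MeasurableSet.iUnion fun m => MeasurableSet.iUnion fun i => MeasurableSet.iUnion fun k => ?_
  refine MeasurableSet.inter ?_ (MeasurableSet.inter ?_ (MeasurableSet.inter ?_ ?_))
  · exact measurableSet_lt measurable_const ((measurable_count m).comp measurable_fst)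
  · exact measurableSet_lt measurable_const
      (measurable_fst.comp ((measurable_pi_apply (m, i, k)).comp measurable_snd))
  · exact ((measurable_line m i).comp measurable_fst) (measurableSet_Near _ _)
  · have h1 : Measurable fun w : LineConf × MarkConf =>
        |(k : ℝ) - tr ((w.1 m).2 i).2 (loc X 0 z)| :=
      (measurable_const.sub ((measurable_tr_snd _).comp
        ((measurable_line m i).comp measurable_fst))).norm
    exact measurableSet_le h1 measurable_const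

lemma BAC_dep (X : ℕ) (w : LineConf) (hw : Reg w) (y : ℤ × ℤ) (x x' : MarkConf)
    (h : ∀ a ∈ locSet X hw y, x a = x' a) (hx : (w, x) ∈ BAC X y) : (w, x') ∈ BAC X y := by
  obtain ⟨m, i, k, h1, h2, h3, h4⟩ := hx
  refine ⟨m, i, k, h1, ?_, h3, h4⟩
  have h5 : (m, i, k) ∈ locSet X hw y := by
    rw [mem_locSet]
    have h0 : (0 : ℝ) ≤ Ls X 0 := by positivity
    have h3' : |((w m).2 i).1 - pr ((w m).2 i).2 (loc X 0 y)| ≤ 3 * Ls X 0 := h3
    have h4' : |(k : ℝ) - tr ((w m).2 i).2 (loc X 0 y)| ≤ 3 * Ls X 0 := h4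
    refine ⟨h1, ?_, ?_⟩
    · change |((w m).2 i).1 - pr ((w m).2 i).2 (loc X 0 y)| ≤ 6 * Ls X 0
      linarith
    · change |(k : ℝ) - tr ((w m).2 i).2 (loc X 0 y)| ≤ 6 * Ls X 0
      linarith
  have h6 := h _ h5
  simp only at h2 ⊢
  rwa [← h6]

/-- probability that some arc cell near `z` is occupied, given the lines -/
lemma markLaw_BAC_le {X : ℕ} {w : LineConf} (hw : Reg w) (l : ℝ≥0) {S : Finset ℤ}
    {W : Finset (ℤ × ℤ)} {z : ℤ × ℤ} (hz : z ∈ W)
    (hS : ∀ m : ℤ, |(m : ℝ)| ≤ ‖loc X 0 z‖ + 3 * Ls X 0 + 1 → m ∈ S) :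
    markLaw l (Prod.mk w ⁻¹' (BAC X z)) ≤ fAC ((6 * Ls X 0 + 1) * l)
      (0 + ∑ m ∈ S, ∑ i ∈ Finset.range (w m).1, hAC X W ((w m).2 i)) z := by
  classical
  rw [fAC]
  refine le_min prob_le_one ?_
  have hext := ext_sum_hit (fun z => Near (3 * Ls X 0) (loc X 0 z)) w S hz
  have hsub : Prod.mk w ⁻¹' (BAC X z) ⊆ ⋃ m ∈ S, ⋃ i ∈ (Finset.range (w m).1).filter
      (fun i => (w m).2 i ∈ Near (3 * Ls X 0) (loc X 0 z)),
      ⋃ k ∈ cells (tr ((w m).2 i).2 (loc X 0 z)) ((3 * Ls X 0 : ℕ) : ℝ),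
        {x : MarkConf | 0 < (x (m, i, k)).1} := by
    rintro x ⟨m, i, k, h1, h2, h3, h4⟩
    simp only [Set.mem_iUnion]
    have h3' : |((w m).2 i).1 - pr ((w m).2 i).2 (loc X 0 z)| ≤ 3 * Ls X 0 := h3
    refine ⟨m, hS m ?_, i, Finset.mem_filter.2 ⟨Finset.mem_range.2 h1, h3⟩, k, ?_, h2⟩
    · have h5 := abs_pr_le ((w m).2 i).2 (loc X 0 z)
      have h6 := hw m i
      rw [Set.mem_Ico] at h6
      rw [abs_le] at h3' h5 ⊢
      constructor <;> linarith
    · rw [mem_cells]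
      push_cast
      exact h4
  refine (measure_mono hsub).trans ?_
  refine (measure_biUnion_finset_le _ _).trans ?_
  have h1 : ∀ m ∈ S, markLaw l (⋃ i ∈ (Finset.range (w m).1).filter
      (fun i => (w m).2 i ∈ Near (3 * Ls X 0) (loc X 0 z)),
      ⋃ k ∈ cells (tr ((w m).2 i).2 (loc X 0 z)) ((3 * Ls X 0 : ℕ) : ℝ),
        {x : MarkConf | 0 < (x (m, i, k)).1}) ≤
      (((Finset.range (w m).1).filter
      (fun i => (w m).2 i ∈ Near (3 * Ls X 0) (loc X 0 z))).card : ℝ≥0∞) *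
        ((6 * Ls X 0 + 1) * l) := by
    intro m _
    refine (measure_biUnion_finset_le _ _).trans ?_
    rw [← nsmul_eq_mul]
    refine Finset.sum_le_card_nsmul _ _ _ fun i _ => ?_
    refine (measure_biUnion_finset_le _ _).trans ?_
    refine (Finset.sum_le_card_nsmul _ _ (l : ℝ≥0∞) fun k _ => markLaw_nonempty_le l _).trans ?_
    rw [nsmul_eq_mul]
    gcongr
    have h2 := card_cells_le (tr ((w m).2 i).2 (loc X 0 z)) (3 * Ls X 0)
    have h3 : ((cells (tr ((w m).2 i).2 (loc X 0 z)) ((3 * Ls X 0 : ℕ) : ℝ)).card : ℝ≥0∞) ≤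
        ((2 * (3 * Ls X 0) + 1 : ℕ) : ℝ≥0∞) := by exact_mod_cast h2
    refine h3.trans (le_of_eq ?_)
    push_cast
    ring
  refine (Finset.sum_le_sum h1).trans (le_of_eq ?_)
  rw [← Finset.sum_mul, mul_comm]
  congr 1
  have h2 : ext (0 + ∑ m ∈ S, ∑ i ∈ Finset.range (w m).1, hAC X W ((w m).2 i)) z =
      ∑ m ∈ S, ((Finset.range (w m).1).filter
        (fun i => (w m).2 i ∈ Near (3 * Ls X 0) (loc X 0 z))).card := hext
  rw [h2]
  push_cast
  rfl

theorem AC_final (γ : ℝ≥0) : ∃ X₀ : ℕ, ∀ X ≥ X₀, ∃ l₀ : ℝ≥0, 0 < l₀ ∧ ∀ l ≤ l₀, ∀ k a,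
    coxLaw γ l (Bad X (BAC X) k a) ≤ ((xs X k : ℝ≥0∞) ^ 81)⁻¹ := by
  obtain ⟨X₀, hX₀⟩ := AC_recursion γ
  refine ⟨max X₀ 100, fun X hX => ?_⟩
  have hX1 : 100 ≤ X := (le_max_right _ _).trans hX
  obtain ⟨c₀, hc₀, hrec⟩ := hX₀ X ((le_max_left _ _).trans hX)
  have hc1 : min c₀ 1 ≠ ⊤ := ne_top_of_le_ne_top ENNReal.one_ne_top (min_le_right _ _)
  have hd : ((6 * Ls X 0 + 1 : ℕ) : ℝ≥0) ≠ 0 := by positivity
  refine ⟨(min c₀ 1).toNNReal / ((6 * Ls X 0 + 1 : ℕ) : ℝ≥0), ?_, fun l hl k a => ?_⟩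
  · refine div_pos ?_ (by positivity)
    rw [ENNReal.toNNReal_pos_iff]
    exact ⟨lt_min hc₀ one_pos, hc1.lt_top⟩
  have hc : ((6 * Ls X 0 + 1) * l : ℝ≥0∞) ≤ c₀ := by
    have h1 : l * ((6 * Ls X 0 + 1 : ℕ) : ℝ≥0) ≤ (min c₀ 1).toNNReal := by
      rwa [le_div_iff₀ (by positivity)] at hl
    have h2 : ((l * ((6 * Ls X 0 + 1 : ℕ) : ℝ≥0) : ℝ≥0) : ℝ≥0∞) ≤
        ((min c₀ 1).toNNReal : ℝ≥0∞) := by exact_mod_cast h1
    rw [ENNReal.coe_toNNReal hc1] at h2
    refine le_trans (le_of_eq ?_) (h2.trans (min_le_left _ _))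
    push_cast
    ring
  set W : Finset (ℤ × ℤ) := (finite_locNodes hX1 (loc X k a) (3 * Ls X k)).toFinset with hW
  obtain ⟨N, hN⟩ := exists_nat_ge (‖loc X k a‖ + 3 * Ls X k + 3 * Ls X 0 + 1)
  set S : Finset ℤ := Finset.Icc (-(N : ℤ)) N with hS
  refine (cox_Bad_le hX1 γ l (ae_Reg γ) (fun a => inferInstance) (measurableSet_BAC X)
    (fun w hw y x x' h hx => BAC_dep X w hw y x x' h hx) k a).trans ?_
  calc ∫⁻ w, Fk X (fun y => markLaw l (Prod.mk w ⁻¹' (BAC X y))) k a ∂(lineLaw γ)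
      ≤ ∫⁻ w, Fk X (fAC ((6 * Ls X 0 + 1) * l)
        (0 + ∑ m ∈ S, ∑ i ∈ Finset.range (w m).1, hAC X W ((w m).2 i))) k a ∂(lineLaw γ) := by
        refine lintegral_mono_ae ?_
        filter_upwards [ae_Reg γ] with w hw
        refine Fk_mono_local hX1 k a fun z hz => ?_
        refine markLaw_BAC_le hw l ?_ ?_
        · rw [hW, Set.Finite.mem_toFinset]
          exact hz
        · intro m hm
          rw [hS, Finset.mem_Icc]
          have h1 : ‖loc X 0 z‖ ≤ ‖loc X k a‖ + 3 * Ls X k := by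
            rw [dist_eq_norm] at hz
            have := norm_sub_norm_le (loc X 0 z) (loc X k a)
            linarith
          rw [abs_le] at hm
          constructor
          · have : (-(N : ℝ)) ≤ m := by linarith
            exact_mod_cast this
          · have : (m : ℝ) ≤ N := by linarith
            exact_mod_cast this
    _ = Phi (nuS γ S) (hAC X W) (fun n => Fk X (fAC ((6 * Ls X 0 + 1) * l) n) k a) 0 :=
        lintegral_lineLaw γ (measurable_hAC X W) S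
          (fun n => Fk X (fAC ((6 * Ls X 0 + 1) * l) n) k a) 0
    _ ≤ ((xs X k : ℝ≥0∞) ^ 81)⁻¹ := by
        have := hrec _ hc S W k a []
        simpa using this

end Pool.Agent.Lib.MP_3e2d90_pr
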