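import Mathlib
import Pool.Agent.Lib.MP_3e2d90_pr.Hit
import Pool.Agent.Lib.MP_3e2d90_pr.Count
import Pool.Agent.Lib.MP_3e2d90_pr.LineMeas

/-!
# The annealed recursion for large `λ`
-/

open MeasureTheory ProbabilityTheory Set
open scoped NNReal ENNReal

namespace Pool.Agent.Lib.MP_3e2d90_pr

lemma bd_finite_nuS (γ : ℝ≥0) (S : Finset ℤ) : IsFiniteMeasure (nuS γ S) := by
  classical
  have h1 : IsFiniteMeasure ((ENNReal.ofReal Real.pi)⁻¹ • volume.restrict (Ico 0 Real.pi)) :=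
    Measure.smul_finite _ (ENNReal.inv_ne_top.2 ofReal_pi_ne_zero)
  unfold nuS
  induction S using Finset.induction_on with
  | empty => simp only [Finset.sum_empty]; infer_instance
  | insert m S hm ih =>
    rw [Finset.sum_insert hm]
    infer_instance

lemma measurable_hBD (X : ℕ) (W : Finset ((ℤ × ℤ) × Bool)) : Measurable (hBD X W) :=
  measurable_hit W fun _ => measurableSet_Tset _ _ _

lemma ext_hBD_of_not_mem {X : ℕ} {W : Finset ((ℤ × ℤ) × Bool)} {q : ℝ × ℝ} {z : ℤ × ℤ} {t : Bool}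
    (hq : q ∉ Tset X t z) : ext (hBD X W q) (z, t) = 0 :=
  ext_hit_of_not_mem (W := W) (H := fun z : (ℤ × ℤ) × Bool => Tset X z.2 z.1) (z := (z, t)) hq

lemma ext_hBD_of_mem {X : ℕ} {W : Finset ((ℤ × ℤ) × Bool)} {q : ℝ × ℝ} {z : ℤ × ℤ} {t : Bool}
    (hz : (z, t) ∈ W) (hq : q ∈ Tset X t z) : ext (hBD X W q) (z, t) = 1 :=
  ext_hit_of_mem (W := W) (H := fun z : (ℤ × ℤ) × Bool => Tset X z.2 z.1) (z := (z, t)) hz hq

lemma Tset_subset_Near (X : ℕ) (t : Bool) (z : ℤ × ℤ) :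
    Tset X t z ⊆ Near ((Ls X 0 : ℝ) / 8) (loc X 0 z) := fun _ hq => hq.1

/-- a node in `nb z` is at distance at most `3 L_0` from `z` -/
lemma dist_nb {X : ℕ} {z z' : ℤ × ℤ} (h : z' ∈ nb z) :
    dist (loc X 0 z') (loc X 0 z) ≤ 3 * Ls X 0 := by
  simp only [nb, Finset.mem_product, Finset.mem_Icc] at h
  obtain ⟨⟨h1, h2⟩, h3, h4⟩ := h
  have hL : (0 : ℝ) ≤ Ls X 0 := by positivity
  have a1 : |((z'.1 : ℝ)) - z.1| ≤ 2 := by
    rw [abs_le]
    constructor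
    · have : (z.1 : ℝ) - 2 ≤ z'.1 := by exact_mod_cast h1
      linarith
    · have : (z'.1 : ℝ) ≤ z.1 + 2 := by exact_mod_cast h2
      linarith
  have a2 : |((z'.2 : ℝ)) - z.2| ≤ 2 := by
    rw [abs_le]
    constructor
    · have : (z.2 : ℝ) - 2 ≤ z'.2 := by exact_mod_cast h3
      linarith
    · have : (z'.2 : ℝ) ≤ z.2 + 2 := by exact_mod_cast h4
      linarith
  rw [dist_eq_norm, ← abs_of_nonneg (by positivity : (0 : ℝ) ≤ 3 * Ls X 0), ← abs_norm]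
  refine sq_le_sq.1 ?_
  rw [← Complex.normSq_eq_norm_sq, Complex.normSq_apply]
  simp only [loc, Complex.sub_re, Complex.sub_im]
  have b1 : ((z'.1 : ℝ) - z.1) ^ 2 ≤ 4 := by
    have := sq_le_sq.2 (a1.trans (le_abs_self 2))
    linarith
  have b2 : ((z'.2 : ℝ) - z.2) ^ 2 ≤ 4 := by
    have := sq_le_sq.2 (a2.trans (le_abs_self 2))
    linarith
  have e : ((Ls X 0 : ℝ) * z'.1 - Ls X 0 * z.1) * ((Ls X 0 : ℝ) * z'.1 - Ls X 0 * z.1) +
      ((Ls X 0 : ℝ) * z'.2 - Ls X 0 * z.2) * ((Ls X 0 : ℝ) * z'.2 - Ls X 0 * z.2) =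
      (Ls X 0 : ℝ) ^ 2 * (((z'.1 : ℝ) - z.1) ^ 2 + ((z'.2 : ℝ) - z.2) ^ 2) := by ring
  rw [e]
  have : (0 : ℝ) ≤ (Ls X 0 : ℝ) ^ 2 := by positivity
  nlinarith

/-- insensitivity of the level-`k` bound to far lines -/
lemma Fk_BD_insens {X : ℕ} (hX : 100 ≤ X) {W : Finset ((ℤ × ℤ) × Bool)} {k : ℕ}
    {b : ℤ × ℤ} {q : ℝ × ℝ} (hq : q ∉ Near (7 * Ls X k) (loc X k b)) (n : W → ℕ) :
    Fk X (fBD (n + hBD X W q)) k b = Fk X (fBD n) k b := by
  refine Fk_congr hX k b fun z hz => ?_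
  have key : ∀ z' ∈ nb z, ∀ t : Bool, ext (n + hBD X W q) (z', t) = ext n (z', t) := by
    intro z' hz' t
    have h1 : q ∉ Tset X t z' := by
      intro h
      refine hq ?_
      have h2 : |q.1 - pr q.2 (loc X 0 z')| ≤ Ls X 0 / 8 := h.1
      have h3 : |pr q.2 (loc X 0 z' - loc X 0 z)| ≤ ‖loc X 0 z' - loc X 0 z‖ := abs_pr_le _ _
      have h4 : |pr q.2 (loc X 0 z - loc X k b)| ≤ ‖loc X 0 z - loc X k b‖ := abs_pr_le _ _
      rw [pr_sub, ← dist_eq_norm] at h3 h4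
      have h5 := Ls_mono_zero hX k
      have h6 := dist_nb (X := X) hz'
      have h0 : (0 : ℝ) ≤ Ls X 0 := Nat.cast_nonneg _
      have e : q.1 - pr q.2 (loc X k b) = (q.1 - pr q.2 (loc X 0 z')) +
        ((pr q.2 (loc X 0 z') - pr q.2 (loc X 0 z)) +
        (pr q.2 (loc X 0 z) - pr q.2 (loc X k b))) := by ring
      have h7 : |q.1 - pr q.2 (loc X k b)| ≤ Ls X 0 / 8 + (3 * Ls X 0 + 3 * Ls X k) := by
        rw [e]
        exact (abs_add_le _ _).trans (add_le_add h2 ((abs_add_le _ _).trans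
          (add_le_add (h3.trans h6) (h4.trans hz))))
      exact h7.trans (by linarith)
    rw [ext_add, ext_hBD_of_not_mem h1, add_zero]
  have e : ∑ z' ∈ nb z, ∑ t : Bool, (2⁻¹ : ℝ≥0∞) ^ ext (n + hBD X W q) (z', t) =
      ∑ z' ∈ nb z, ∑ t : Bool, (2⁻¹ : ℝ≥0∞) ^ ext n (z', t) :=
    Finset.sum_congr rfl fun z' hz' => Finset.sum_congr rfl fun t _ => by rw [key z' hz' t]
  unfold fBD
  rw [e]

lemma Fk_BD_anti {X : ℕ} {W : Finset ((ℤ × ℤ) × Bool)} (k : ℕ)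
    (b : ℤ × ℤ) (n n' : W → ℕ) :
    Fk X (fBD (n + n')) k b ≤ Fk X (fBD n) k b := by
  refine Fk_mono (fun z => ?_) k b
  rw [fBD, fBD]
  refine min_le_min le_rfl (Finset.sum_le_sum fun z' _ => Finset.sum_le_sum fun t _ => ?_)
  rw [ext_add, pow_add]
  calc (2⁻¹ : ℝ≥0∞) ^ ext n (z', t) * 2⁻¹ ^ ext n' (z', t)
      ≤ (2⁻¹ : ℝ≥0∞) ^ ext n (z', t) * 1 := by
        gcongr
        exact pow_le_one₀ (by positivity) (by simp)
    _ = _ := mul_one _

/-- base of the recursion -/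
lemma BD_base {X : ℕ} {W : Finset ((ℤ × ℤ) × Bool)} (ν : Measure (ℝ × ℝ)) [IsFiniteMeasure ν]
    {m : ℝ} (hm : 50 * Real.exp (-m / 2) ≤ ((xs X 0 : ℝ) ^ 81)⁻¹)
    (hx : 0 < xs X 0) (a : ℤ × ℤ)
    (hν : ∀ z t, dist (loc X 0 z) (loc X 0 a) ≤ 6 * Ls X 0 →
      (z, t) ∈ W ∧ ENNReal.ofReal m ≤ ν (Tset X t z)) :
    Phi ν (hBD X W) (fun n => Fk X (fBD n) 0 a) 0 ≤ ((xs X 0 : ℝ≥0∞) ^ 81)⁻¹ := by
  have hme := measurable_hBD X W
  have h1 : Phi ν (hBD X W) (fun n => Fk X (fBD n) 0 a) 0 ≤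
      Phi ν (hBD X W) (fun n => ∑ z' ∈ nb a, ∑ t : Bool, (2⁻¹ : ℝ≥0∞) ^ ext n (z', t)) 0 :=
    Phi_mono (fun n => min_le_right _ _) 0
  refine h1.trans ?_
  rw [Phi_sum (nb a) ν hme (fun z' n => ∑ t : Bool, (2⁻¹ : ℝ≥0∞) ^ ext n (z', t))]
  have h2 : ∀ z' ∈ nb a, Phi ν (hBD X W) (fun n => ∑ t : Bool, (2⁻¹ : ℝ≥0∞) ^ ext n (z', t)) 0 ≤
      2 * ENNReal.ofReal (Real.exp (-m / 2)) := by
    intro z' hz'
    rw [Phi_sum Finset.univ ν hme (fun t n => (2⁻¹ : ℝ≥0∞) ^ ext n (z', t))]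
    have h3 : ∀ t ∈ (Finset.univ : Finset Bool),
        Phi ν (hBD X W) (fun n => (2⁻¹ : ℝ≥0∞) ^ ext n (z', t)) 0 ≤
          ENNReal.ofReal (Real.exp (-m / 2)) := by
      intro t _
      have hL : (0 : ℝ) ≤ Ls X 0 := by positivity
      obtain ⟨hW, hT⟩ := hν z' t ((dist_nb (X := X) hz').trans (by linarith))
      rw [Phi_half ν hme (F := fun n => (2⁻¹ : ℝ≥0∞) ^ ext n (z', t)) (H := Tset X t z')
        (measurableSet_Tset _ _ _)]
      · rw [ext_zero, pow_zero, mul_one]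
        refine ENNReal.ofReal_le_ofReal (Real.exp_le_exp.2 ?_)
        have h4 : m ≤ (ν (Tset X t z')).toReal := by
          rw [← ENNReal.ofReal_le_iff_le_toReal (measure_ne_top _ _)]
          exact hT
        linarith
      · intro n q hq
        rw [ext_add, ext_hBD_of_mem hW hq, pow_succ, mul_comm]
      · intro n q hq
        rw [ext_add, ext_hBD_of_not_mem hq, add_zero]
    refine (Finset.sum_le_card_nsmul _ _ _ h3).trans (le_of_eq ?_)
    rw [nsmul_eq_mul, Finset.card_univ, Fintype.card_bool]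
    norm_num
  refine (Finset.sum_le_card_nsmul _ _ _ h2).trans ?_
  have hc : (nb a).card = 25 := by
    simp only [nb, Finset.card_product, Int.card_Icc]
    have e1 : (a.1 + 2 + 1 - (a.1 - 2)).toNat = 5 := by
      rw [show a.1 + 2 + 1 - (a.1 - 2) = 5 by ring]; rfl
    have e2 : (a.2 + 2 + 1 - (a.2 - 2)).toNat = 5 := by
      rw [show a.2 + 2 + 1 - (a.2 - 2) = 5 by ring]; rfl
    rw [e1, e2]
  rw [hc, nsmul_eq_mul]
  have hx' : (0 : ℝ) < (xs X 0 : ℝ) ^ 81 := by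
    have : (0 : ℝ) < xs X 0 := by exact_mod_cast hx
    positivity
  have e : ((xs X 0 : ℝ≥0∞) ^ 81)⁻¹ = ENNReal.ofReal (((xs X 0 : ℝ) ^ 81)⁻¹) := by
    rw [ENNReal.ofReal_inv_of_pos hx', ENNReal.ofReal_pow (by positivity), ENNReal.ofReal_natCast]
  rw [e]
  have e2 : (((25 : ℕ) : ℝ≥0∞)) * (2 * ENNReal.ofReal (Real.exp (-m / 2))) =
      ENNReal.ofReal (50 * Real.exp (-m / 2)) := by
    rw [ENNReal.ofReal_mul (by norm_num), ← mul_assoc]
    congr 1
    rw [ENNReal.ofReal_ofNat]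
    norm_num
  rw [e2]
  exact ENNReal.ofReal_le_ofReal hm

/-- measure of the common lines of two children through a given target set -/
lemma BD_loss (γ : ℝ≥0) (S : Finset ℤ) {X : ℕ} (hX : 100 ≤ X) {k : ℕ} {b : Fin 4 → ℤ × ℤ}
    (hb : ∀ i j, i ≠ j → (Ls X (k + 1) : ℝ) / 170 ≤ dist (loc X k (b i)) (loc X k (b j)))
    (i : Fin 4) (z : ℤ × ℤ) (t : Bool) (hz : dist (loc X 0 z) (loc X k (b i)) ≤ 6 * Ls X k) :
    nuS γ S (Tset X t z ∩ {q | ∃ i j, i ≠ j ∧ q ∈ Near (7 * Ls X k) (loc X k (b i)) ∧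
      q ∈ Near (7 * Ls X k) (loc X k (b j))}) ≤
      ENNReal.ofReal (γ * (27200 * Ls X 0 / (Ls X k : ℝ) ^ 2)) := by
  have hL : (0 : ℝ) < Ls X k := by
    have := Ls_ge_real hX k
    linarith [show (0 : ℝ) < 10 ^ 10 by norm_num]
  have hL0 : (0 : ℝ) ≤ Ls X 0 := Nat.cast_nonneg _
  have hL1 := Ls_mono_zero hX k
  have hbig := big_le hX k
  have hsub : Tset X t z ∩ {q | ∃ i j, i ≠ j ∧ q ∈ Near (7 * Ls X k) (loc X k (b i)) ∧
      q ∈ Near (7 * Ls X k) (loc X k (b j))} ⊆ ⋃ l ∈ (Finset.univ : Finset (Fin 4)),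
      if l ≠ i then (Near ((Ls X 0 : ℝ) / 8) (loc X 0 z) ∩
        Near (7 * Ls X k) (loc X k (b l))) else ∅ := by
    rintro q ⟨hqT, i', j', hij, h1, h2⟩
    simp only [Set.mem_iUnion]
    by_cases hi : i' = i
    · refine ⟨j', Finset.mem_univ _, ?_⟩
      rw [if_pos (fun h => hij (hi.trans h.symm))]
      exact ⟨Tset_subset_Near X t z hqT, h2⟩
    · refine ⟨i', Finset.mem_univ _, ?_⟩
      rw [if_pos hi]
      exact ⟨Tset_subset_Near X t z hqT, h1⟩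
  refine (measure_mono hsub).trans ((measure_biUnion_finset_le _ _).trans ?_)
  have h1 : ∀ l ∈ (Finset.univ : Finset (Fin 4)), nuS γ S (if l ≠ i then
      (Near ((Ls X 0 : ℝ) / 8) (loc X 0 z) ∩ Near (7 * Ls X k) (loc X k (b l))) else ∅) ≤
      ENNReal.ofReal (γ * (6800 * Ls X 0 / (Ls X k : ℝ) ^ 2)) := by
    intro l _
    split_ifs with hl
    · have hd : (Ls X (k + 1) : ℝ) / 340 ≤ dist (loc X 0 z) (loc X k (b l)) := by
        have h2 := hb i l (Ne.symm hl)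
        have h3 := dist_triangle_left (loc X k (b i)) (loc X k (b l)) (loc X 0 z)
        have h4 : (10 : ℝ) ^ 20 * Ls X k ≥ 2040 * Ls X k := by nlinarith
        linarith
      refine (nuS_Near_inter_le γ S (d := (Ls X (k + 1) : ℝ) / 340) (by positivity)
        (by positivity) ?_ hd).trans (ENNReal.ofReal_le_ofReal ?_)
      · rw [Ls_succ_real]; positivity
      · refine mul_le_mul_of_nonneg_left ?_ γ.coe_nonneg
        have e : 6800 * (Ls X 0 : ℝ) / (Ls X k : ℝ) ^ 2 =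
            20 * ((Ls X 0 : ℝ) / 8) * (8 * Ls X k) / ((Ls X (k + 1) : ℝ) / 340) := by
          rw [Ls_succ_real]
          field_simp
          ring
        rw [e]
        refine div_le_div_of_nonneg_right ?_ (by positivity)
        refine mul_le_mul_of_nonneg_left ?_ (by positivity)
        linarith
    · rw [measure_empty]; exact zero_le
  refine (Finset.sum_le_card_nsmul _ _ _ h1).trans ?_
  rw [nsmul_eq_mul, Finset.card_univ, Fintype.card_fin,
    ← ENNReal.ofReal_natCast, ← ENNReal.ofReal_mul (by positivity)]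
  refine ENNReal.ofReal_le_ofReal (le_of_eq ?_)
  push_cast
  ring

/-- the lower bounds for the measures of the target sets -/
noncomputable def mB (γ : ℝ≥0) (X k : ℕ) : ℝ :=
  γ * Ls X 0 / 80 * (1 - (1 / 2) ^ (k + 1))

lemma Ls_ge_two_pow {X : ℕ} (hX : 100 ≤ X) (k : ℕ) : (10 : ℝ) ^ 10 * 2 ^ k ≤ Ls X k := by
  induction k with
  | zero => simpa using Ls_ge_real hX 0
  | succ k ih =>
    have h := big_le hX k
    have h0 : (0 : ℝ) ≤ Ls X k := Nat.cast_nonneg _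
    have e : (10 : ℝ) ^ 10 * 2 ^ (k + 1) = 2 * (10 ^ 10 * 2 ^ k) := by ring
    rw [e]
    nlinarith

lemma mB_add_le {γ : ℝ≥0} {X : ℕ} (hX : 100 ≤ X) (k : ℕ) :
    mB γ X k + γ * (27200 * Ls X 0 / (Ls X k : ℝ) ^ 2) ≤ mB γ X (k + 1) := by
  have h1 := Ls_ge_two_pow hX k
  have h2 : (0 : ℝ) < 2 ^ k := by positivity
  have h3 : (1 : ℝ) ≤ 2 ^ k := one_le_pow₀ (by norm_num)
  have hL : (0 : ℝ) < Ls X k := lt_of_lt_of_le (by positivity) h1
  have hL0 : (0 : ℝ) ≤ Ls X 0 := Nat.cast_nonneg _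
  have h4 : 27200 / (Ls X k : ℝ) ^ 2 ≤ (1 / 80) * (1 / 2) ^ (k + 2) := by
    rw [div_le_iff₀ (by positivity), one_div_pow (2 : ℝ) (k + 2), pow_add]
    have h5 : (10 ^ 10 * 2 ^ k : ℝ) ^ 2 ≤ (Ls X k : ℝ) ^ 2 := pow_le_pow_left₀ (by positivity) h1 2
    have h6 : (1 / 80 : ℝ) * (1 / (2 ^ k * 2 ^ 2)) * (10 ^ 10 * 2 ^ k) ^ 2 =
        (10 ^ 20 / 320) * 2 ^ k := by
      field_simp
      ring
    calc (27200 : ℝ) ≤ (10 ^ 20 / 320) * 1 := by norm_num
      _ ≤ (10 ^ 20 / 320) * 2 ^ k := by gcongr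
      _ = (1 / 80 : ℝ) * (1 / (2 ^ k * 2 ^ 2)) * (10 ^ 10 * 2 ^ k) ^ 2 := h6.symm
      _ ≤ _ := by gcongr
  have h7 : mB γ X (k + 1) - mB γ X k = γ * Ls X 0 * ((1 / 80) * (1 / 2) ^ (k + 2)) := by
    unfold mB
    ring
  have h8 : (γ : ℝ) * (27200 * Ls X 0 / (Ls X k : ℝ) ^ 2) =
      γ * Ls X 0 * (27200 / (Ls X k : ℝ) ^ 2) := by ring
  have h9 : (γ : ℝ) * Ls X 0 * (27200 / (Ls X k : ℝ) ^ 2) ≤
      γ * Ls X 0 * ((1 / 80) * (1 / 2) ^ (k + 2)) :=
    mul_le_mul_of_nonneg_left h4 (mul_nonneg γ.coe_nonneg hL0)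
  linarith

lemma mB_nonneg (γ : ℝ≥0) (X k : ℕ) : 0 ≤ mB γ X k := by
  unfold mB
  have h : ((1 : ℝ) / 2) ^ (k + 1) ≤ 1 := pow_le_one₀ (by norm_num) (by norm_num)
  have h0 : (0 : ℝ) ≤ γ * Ls X 0 / 80 := by positivity
  exact mul_nonneg h0 (by linarith)

lemma mB_le (γ : ℝ≥0) (X k : ℕ) : mB γ X k ≤ γ * Ls X 0 / 80 := by
  unfold mB
  have h : 0 ≤ ((1 : ℝ) / 2) ^ (k + 1) := by positivity
  have h0 : (0 : ℝ) ≤ γ * Ls X 0 / 80 := by positivity
  nlinarith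

/-- the internal form of the recursion -/
lemma BD_internal (γ : ℝ≥0) {X : ℕ} (hX : 100 ≤ X) (hX4 : 49 ^ 4 ≤ X)
    (hm : 50 * Real.exp (-mB γ X 0 / 2) ≤ ((xs X 0 : ℝ) ^ 81)⁻¹)
    (S : Finset ℤ) (W : Finset ((ℤ × ℤ) × Bool)) (k : ℕ) :
    ∀ (a : ℤ × ℤ) (ν : Measure (ℝ × ℝ)), ν ≤ nuS γ S →
      (∀ z t, dist (loc X 0 z) (loc X k a) ≤ 6 * Ls X k →
        (z, t) ∈ W ∧ ENNReal.ofReal (mB γ X k) ≤ ν (Tset X t z)) →
      Phi ν (hBD X W) (fun n => Fk X (fBD n) k a) 0 ≤ ((xs X k : ℝ≥0∞) ^ 81)⁻¹ := by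
  classical
  have hfin := bd_finite_nuS γ S
  have hme := measurable_hBD X W
  induction k with
  | zero =>
    intro a ν hνS hν
    have : IsFiniteMeasure ν := isFiniteMeasure_of_le _ hνS
    refine BD_base ν hm ?_ a hν
    exact lt_of_lt_of_le (by omega) (le_xs X 0)
  | succ k ih =>
    intro a ν hνS hν
    have : IsFiniteMeasure ν := isFiniteMeasure_of_le _ hνS
    have hx1 : (1 : ℝ≥0∞) ≤ xs X k := by
      exact_mod_cast (by norm_num : 1 ≤ 100).trans (hX.trans (le_xs X k))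
    have hx0 : (xs X k : ℝ≥0∞) ≠ 0 := (zero_lt_one.trans_le hx1).ne'
    have hxt : (xs X k : ℝ≥0∞) ≠ ⊤ := ENNReal.natCast_ne_top _
    set m : Fin 4 ↪ Fin 85 := Fin.castLEEmb (by norm_num) with hmdef
    set P := Fintype.piFinset (fun j => Circ X k (m j) a) with hP
    set x : ℝ≥0∞ := ((xs X k : ℕ) : ℝ≥0∞) with hxdef
    have hone : ∀ b ∈ P, Phi ν (hBD X W) (fun n => ∏ j, Fk X (fBD n) k (b j)) 0 ≤
        ∏ _j : Fin 4, (x ^ 81)⁻¹ := by
      intro b hb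
      have hb' := Fintype.mem_piFinset.1 hb
      have hbd : ∀ i j, i ≠ j → (Ls X (k + 1) : ℝ) / 170 ≤
          dist (loc X k (b i)) (loc X k (b j)) := fun i j hij =>
        dist_children hX (fun h => hij (m.injective h)) (hb' i) (hb' j)
      set C : Set (ℝ × ℝ) := {q | ∃ i j, i ≠ j ∧ q ∈ Near (7 * Ls X k) (loc X k (b i)) ∧
        q ∈ Near (7 * Ls X k) (loc X k (b j))} with hCdef
      have hC : MeasurableSet C := by
        have e : C = ⋃ i, ⋃ j, ⋃ (_ : i ≠ j), (Near (7 * Ls X k) (loc X k (b i)) ∩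
            Near (7 * Ls X k) (loc X k (b j))) := by
          ext q
          simp only [hCdef, Set.mem_ofPred_eq, Set.mem_iUnion, Set.mem_inter_iff, exists_prop]
        rw [e]
        exact MeasurableSet.iUnion fun i => MeasurableSet.iUnion fun j =>
          MeasurableSet.iUnion fun _ => (measurableSet_Near _ _).inter (measurableSet_Near _ _)
      have hanti : ∀ (n : W → ℕ) q, (∏ j, Fk X (fBD (n + hBD X W q)) k (b j)) ≤
          ∏ j, Fk X (fBD n) k (b j) := fun n q =>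
        Finset.prod_le_prod' fun j _ => Fk_BD_anti k (b j) n (hBD X W q)
      have h1 := Phi_le_restrict ν hme (F := fun n => ∏ j, Fk X (fBD n) k (b j)) hanti hC.compl 0
      have h2 := Phi_prod (ν.restrict Cᶜ) hme (fun (j : Fin 4) n => Fk X (fBD n) k (b j)) (by
        rw [ae_restrict_iff' hC.compl]
        refine Filter.Eventually.of_forall fun q hq i j hij => ?_
        by_cases hi : q ∈ Near (7 * Ls X k) (loc X k (b i))
        · right
          intro n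
          refine Fk_BD_insens hX (fun hj => hq ?_) n
          exact ⟨i, j, hij, hi, hj⟩
        · left
          intro n
          exact Fk_BD_insens hX hi n) 0
      refine h1.trans (h2.le.trans (Finset.prod_le_prod' fun j _ => ?_))
      refine ih (b j) (ν.restrict Cᶜ) (Measure.restrict_le_self.trans hνS) fun z t hz => ?_
      have hdz : dist (loc X 0 z) (loc X (k + 1) a) ≤ 6 * Ls X (k + 1) := by
        have h3 := dist_child_le (hb' j)
        have h4 := dist_triangle (loc X 0 z) (loc X k (b j)) (loc X (k + 1) a)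
        have h5 := big_le hX k
        have h0 : (0 : ℝ) ≤ Ls X k := Nat.cast_nonneg _
        have h6 : (10 : ℝ) ^ 20 * Ls X k ≥ 340 * Ls X k := by nlinarith
        linarith
      obtain ⟨hW, hT⟩ := hν z t hdz
      refine ⟨hW, ?_⟩
      have h7 : ν (Tset X t z ∩ C) ≤
          ENNReal.ofReal (γ * (27200 * Ls X 0 / (Ls X k : ℝ) ^ 2)) :=
        (hνS _).trans (BD_loss γ S hX hbd j z t hz)
      have h8 : ν (Tset X t z) ≤ ν (Tset X t z ∩ C) + ν (Tset X t z \ C) :=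
        measure_le_inter_add_sdiff _ _ _
      have h9 : ν (Tset X t z \ C) = ν.restrict Cᶜ (Tset X t z) := by
        rw [Measure.restrict_apply (measurableSet_Tset _ _ _), Set.sdiff_eq]
      rw [h9] at h8
      have h10 : ENNReal.ofReal (γ * (27200 * Ls X 0 / (Ls X k : ℝ) ^ 2)) +
          ENNReal.ofReal (mB γ X k) ≤
          ENNReal.ofReal (γ * (27200 * Ls X 0 / (Ls X k : ℝ) ^ 2)) +
          ν.restrict Cᶜ (Tset X t z) := by
        rw [← ENNReal.ofReal_add (by positivity) (mB_nonneg _ _ _)]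
        calc ENNReal.ofReal (γ * (27200 * Ls X 0 / (Ls X k : ℝ) ^ 2) + mB γ X k)
            ≤ ENNReal.ofReal (mB γ X (k + 1)) := by
              refine ENNReal.ofReal_le_ofReal ?_
              rw [add_comm]
              exact mB_add_le hX k
          _ ≤ ν (Tset X t z) := hT
          _ ≤ _ := h8.trans (by gcongr)
      exact (ENNReal.add_le_add_iff_left ENNReal.ofReal_ne_top).1 h10
    calc Phi ν (hBD X W) (fun n => Fk X (fBD n) (k + 1) a) 0
        ≤ Phi ν (hBD X W) (fun n => ∑ b ∈ P, ∏ j, Fk X (fBD n) k (b j)) 0 := by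
          refine Phi_mono (fun n => ?_) _
          refine (min_le_right _ _).trans ((iInf_le _ m).trans (le_of_eq ?_))
          rw [Finset.prod_univ_sum]
      _ = ∑ b ∈ P, Phi ν (hBD X W) (fun n => ∏ j, Fk X (fBD n) k (b j)) 0 := by
          rw [Phi_sum P _ hme (fun b n => ∏ j, Fk X (fBD n) k (b j))]
      _ ≤ ∑ b ∈ P, ∏ _j : Fin 4, (x ^ 81)⁻¹ := Finset.sum_le_sum hone
      _ = (P.card : ℝ≥0∞) * (x ^ 324)⁻¹ := by
          rw [Finset.sum_const, nsmul_eq_mul, Finset.prod_const, Finset.card_univ,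
            Fintype.card_fin, ENNReal.inv_pow, ENNReal.inv_pow, ← pow_mul]
      _ ≤ (x * x ^ 80) * (x ^ 324)⁻¹ := by
          gcongr
          have h11 : P.card ≤ ∏ _j : Fin 4, 49 * Ls X k ^ 4 := by
            rw [hP, Fintype.card_piFinset]
            exact Finset.prod_le_prod' fun j _ => card_Circ_le (by omega) k (m j) a
          have h12 : (∏ _j : Fin 4, 49 * Ls X k ^ 4) = 49 ^ 4 * xs X k ^ 80 := by
            rw [Finset.prod_const, Finset.card_univ, Fintype.card_fin, Ls]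
            ring
          have h13 : P.card ≤ xs X k * xs X k ^ 80 := by
            refine (h11.trans h12.le).trans ?_
            gcongr
            exact hX4.trans (le_xs X k)
          rw [hxdef]
          exact_mod_cast h13
      _ = ((x ^ 3) ^ 81)⁻¹ := by
          have e : x ^ 324 = (x * x ^ 80) * (x ^ 3) ^ 81 := by ring
          have h14 : x * x ^ 80 ≠ 0 := mul_ne_zero hx0 (pow_ne_zero _ hx0)
          have h15 : x * x ^ 80 ≠ ⊤ := ENNReal.mul_ne_top hxt (ENNReal.pow_ne_top hxt)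
          rw [e, ENNReal.mul_inv (Or.inl h14) (Or.inl h15), ← mul_assoc,
            ENNReal.mul_inv_cancel h14 h15, one_mul]
      _ = _ := by
          rw [xs_succ, hxdef]
          push_cast
          rfl

lemma BD_large {γ : ℝ≥0} (hγ : 0 < γ) : ∃ N : ℕ, ∀ X ≥ N,
    50 * Real.exp (-mB γ X 0 / 2) ≤ ((xs X 0 : ℝ) ^ 81)⁻¹ := by
  have hc : (0 : ℝ) < γ / 320 := by positivity
  have h1 := (tendsto_rpow_mul_exp_neg_mul_atTop_nhds_zero 81 ((γ : ℝ) / 320) hc).comp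
    (tendsto_natCast_atTop_atTop (R := ℝ))
  have h2 := h1.eventually (gt_mem_nhds (show (0 : ℝ) < 1 / 50 by norm_num))
  obtain ⟨N, hN⟩ := Filter.eventually_atTop.1 h2
  refine ⟨max N 1, fun X hX => ?_⟩
  have h3 := hN X ((le_max_left _ _).trans hX)
  have hX1 : (1 : ℝ) ≤ X := by exact_mod_cast (le_max_right _ _).trans hX
  simp only [Function.comp_apply] at h3
  have e1 : (X : ℝ) ^ (81 : ℝ) = (X : ℝ) ^ 81 := by
    rw [← Real.rpow_natCast]; norm_num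
  rw [e1] at h3
  have e2 : xs X 0 = X := by simp [xs]
  have e3 : mB γ X 0 = γ / 160 * (X : ℝ) ^ 5 := by
    unfold mB
    rw [Ls, e2]
    push_cast
    ring
  have h4 : (X : ℝ) ≤ (X : ℝ) ^ 5 := le_self_pow₀ hX1 (by norm_num)
  have h5 : Real.exp (-mB γ X 0 / 2) ≤ Real.exp (-((γ : ℝ) / 320) * X) := by
    refine Real.exp_le_exp.2 ?_
    rw [e3]
    have := mul_le_mul_of_nonneg_left h4 hc.le
    linarith
  have hpos : (0 : ℝ) < (X : ℝ) ^ 81 := by positivity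
  rw [e2, ← one_div, le_div_iff₀ hpos]
  calc 50 * Real.exp (-mB γ X 0 / 2) * (X : ℝ) ^ 81
      ≤ 50 * Real.exp (-((γ : ℝ) / 320) * X) * (X : ℝ) ^ 81 := by gcongr
    _ = 50 * ((X : ℝ) ^ 81 * Real.exp (-((γ : ℝ) / 320) * X)) := by ring
    _ ≤ 50 * (1 / 50) := by gcongr
    _ = 1 := by norm_num

theorem BD_recursion {γ : ℝ≥0} (hγ : 0 < γ) : ∃ X₀ : ℕ, ∀ X ≥ X₀, ∀ (k : ℕ) (a : ℤ × ℤ)
    (S : Finset ℤ) (W : Finset ((ℤ × ℤ) × Bool)),
    (∀ m : ℤ, |(m : ℝ)| ≤ ‖loc X k a‖ + 10 * Ls X k → m ∈ S) →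
    (∀ z t, dist (loc X 0 z) (loc X k a) ≤ 10 * Ls X k → (z, t) ∈ W) →
    Phi (nuS γ S) (hBD X W) (fun n => Fk X (fBD n) k a) 0 ≤ ((xs X k : ℝ≥0∞) ^ 81)⁻¹ := by
  obtain ⟨N, hN⟩ := BD_large hγ
  refine ⟨max N (max 100 (49 ^ 4)), fun X hX k a S W hS hW => ?_⟩
  have hX100 : 100 ≤ X := ((le_max_left _ _).trans (le_max_right _ _)).trans hX
  have hX4 : 49 ^ 4 ≤ X := ((le_max_right _ _).trans (le_max_right _ _)).trans hX
  refine BD_internal γ hX100 hX4 (hN X ((le_max_left _ _).trans hX)) S W k a (nuS γ S) le_rfl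
    fun z t hz => ⟨hW z t (hz.trans ?_), ?_⟩
  · have h0 : (0 : ℝ) ≤ Ls X k := Nat.cast_nonneg _
    linarith
  · refine (ENNReal.ofReal_le_ofReal (mB_le γ X k)).trans (le_nuS_Tset γ X t z S fun m hm => hS m ?_)
    have h1 : ‖loc X 0 z‖ ≤ dist (loc X 0 z) (loc X k a) + ‖loc X k a‖ := by
      rw [dist_eq_norm]
      have := norm_add_le (loc X 0 z - loc X k a) (loc X k a)
      rwa [sub_add_cancel] at this
    have h2 := Ls_mono_zero hX100 k
    have h3 := Ls_ge_real hX100 k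
    linarith [show (10 : ℝ) ^ 10 ≥ 2 by norm_num]

end Pool.Agent.Lib.MP_3e2d90_pr
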