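import Mathlib
import Pool.Agent.Lib.MP_3e2d90_pr.Local2
import Pool.Agent.Lib.MP_3e2d90_pr.ACFin
import Pool.Agent.Lib.MP_3e2d90_pr.BD

/-!
# Large `λ`: probability of bad nodes
-/

open MeasureTheory ProbabilityTheory Set
open scoped NNReal ENNReal

namespace Pool.Agent.Lib.MP_3e2d90_pr

lemma measurableSet_Cov (X : ℕ) (t : Bool) (z : ℤ × ℤ) : MeasurableSet (Cov X t z) := by
  have e : Cov X t z = ⋃ (m : ℤ), ⋃ (i : ℕ),
      {w : LineConf × MarkConf | i < (w.1 m).1} ∩ ({w | (w.1 m).2 i ∈ Tset X t z} ∩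
      ⋂ (k : ℤ), ({w : LineConf × MarkConf |
        |(k : ℝ) - tr ((w.1 m).2 i).2 (loc X 0 z)| ≤ 3 * Ls X 0}ᶜ ∪
        {w | 0 < (w.2 (m, i, k)).1})) := by
    ext w
    simp only [Cov, Set.mem_iUnion, Set.mem_inter_iff, Set.mem_iInter, Set.mem_union,
      Set.mem_compl_iff, Set.mem_ofPred_eq]
    refine exists_congr fun m => exists_congr fun i => and_congr_right fun _ =>
      and_congr_right fun _ => forall_congr' fun k => ?_
    exact imp_iff_not_or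
  rw [e]
  refine MeasurableSet.iUnion fun m => MeasurableSet.iUnion fun i => ?_
  refine MeasurableSet.inter ?_ (MeasurableSet.inter ?_ (MeasurableSet.iInter fun k =>
    MeasurableSet.union (MeasurableSet.compl ?_) ?_))
  · exact measurableSet_lt measurable_const ((measurable_count m).comp measurable_fst)
  · exact ((measurable_line m i).comp measurable_fst) (measurableSet_Tset _ _ _)
  · have h1 : Measurable fun w : LineConf × MarkConf =>
        |(k : ℝ) - tr ((w.1 m).2 i).2 (loc X 0 z)| :=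
      (measurable_const.sub ((measurable_tr_snd _).comp
        ((measurable_line m i).comp measurable_fst))).norm
    exact measurableSet_le h1 measurable_const
  · exact measurableSet_lt measurable_const
      (measurable_fst.comp ((measurable_pi_apply (m, i, k)).comp measurable_snd))

lemma BBD_eq (X : ℕ) (z : ℤ × ℤ) : BBD X z = ⋃ z' ∈ nb z, ⋃ t : Bool, (Cov X t z')ᶜ := by
  ext w
  simp only [BBD, Set.mem_iUnion, Set.mem_compl_iff]
  constructor
  · rintro ⟨z', h, t, ht⟩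
    exact ⟨z', h, t, ht⟩
  · rintro ⟨z', h, t, ht⟩
    exact ⟨z', h, t, ht⟩

lemma measurableSet_BBD (X : ℕ) (z : ℤ × ℤ) : MeasurableSet (BBD X z) := by
  rw [BBD_eq]
  exact Finset.measurableSet_biUnion _ fun z' _ => MeasurableSet.iUnion fun t =>
    (measurableSet_Cov X t z').compl

lemma BBD_dep (X : ℕ) (w : LineConf) (hw : Reg w) (y : ℤ × ℤ) (x x' : MarkConf)
    (h : ∀ a ∈ locSet X hw y, x a = x' a) (hx : (w, x) ∈ BBD X y) : (w, x') ∈ BBD X y := by
  obtain ⟨z', hz', t, ht⟩ := hx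
  refine ⟨z', hz', t, fun hcov => ht ?_⟩
  obtain ⟨m, i, h1, h2, h3⟩ := hcov
  refine ⟨m, i, h1, h2, fun k hk => ?_⟩
  have h4 := h3 k hk
  have hd := dist_nb (X := X) hz'
  have h0 : (0 : ℝ) ≤ Ls X 0 := by positivity
  have h2' : |((w m).2 i).1 - pr ((w m).2 i).2 (loc X 0 z')| ≤ Ls X 0 / 8 := h2.1
  have hk' : |(k : ℝ) - tr ((w m).2 i).2 (loc X 0 z')| ≤ 3 * Ls X 0 := hk
  have h5 : |pr ((w m).2 i).2 (loc X 0 z') - pr ((w m).2 i).2 (loc X 0 y)| ≤ 3 * Ls X 0 := by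
    rw [← pr_sub]
    exact (abs_pr_le _ _).trans (by rw [← dist_eq_norm]; exact hd)
  have h6 : |tr ((w m).2 i).2 (loc X 0 z') - tr ((w m).2 i).2 (loc X 0 y)| ≤ 3 * Ls X 0 := by
    rw [← tr_sub]
    exact (abs_tr_le _ _).trans (by rw [← dist_eq_norm]; exact hd)
  have h7 : (m, i, k) ∈ locSet X hw y := by
    rw [mem_locSet]
    refine ⟨h1, ?_, ?_⟩
    · change |((w m).2 i).1 - pr ((w m).2 i).2 (loc X 0 y)| ≤ 6 * Ls X 0
      rw [abs_le] at h2' h5 ⊢
      constructor <;> linarith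
    · change |(k : ℝ) - tr ((w m).2 i).2 (loc X 0 y)| ≤ 6 * Ls X 0
      rw [abs_le] at hk' h6 ⊢
      constructor <;> linarith
  have h8 := h _ h7
  simp only at h4 ⊢
  rwa [h8]

/-- the lines of type `t` at `z'` in the cells `S` -/
noncomputable def lineSet (X : ℕ) (w : LineConf) (S : Finset ℤ) (t : Bool) (z' : ℤ × ℤ) :
    Finset (Σ _ : ℤ, ℕ) :=
  open Classical in
  S.sigma fun m => (Finset.range (w m).1).filter (fun i => (w m).2 i ∈ Tset X t z')

lemma mem_lineSet {X : ℕ} {w : LineConf} {S : Finset ℤ} {t : Bool} {z' : ℤ × ℤ}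
    {p : Σ _ : ℤ, ℕ} : p ∈ lineSet X w S t z' ↔
      p.1 ∈ S ∧ p.2 < (w p.1).1 ∧ (w p.1).2 p.2 ∈ Tset X t z' := by
  classical
  rw [lineSet, Finset.mem_sigma, Finset.mem_filter, Finset.mem_range]

/-- the set of marks of the line `p` near `z'` -/
noncomputable def lineCells (X : ℕ) (w : LineConf) (z' : ℤ × ℤ) (p : Σ _ : ℤ, ℕ) :
    Finset (ℤ × ℕ × ℤ) :=
  (cells (tr ((w p.1).2 p.2).2 (loc X 0 z')) ((3 * Ls X 0 : ℕ) : ℝ)).image
    fun k => (p.1, p.2, k)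

lemma mem_lineCells {X : ℕ} {w : LineConf} {z' : ℤ × ℤ} {p : Σ _ : ℤ, ℕ} {a : ℤ × ℕ × ℤ} :
    a ∈ lineCells X w z' p ↔ a.1 = p.1 ∧ a.2.1 = p.2 ∧
      |(a.2.2 : ℝ) - tr ((w p.1).2 p.2).2 (loc X 0 z')| ≤ 3 * Ls X 0 := by
  obtain ⟨m, i, k⟩ := a
  rw [lineCells, Finset.mem_image]
  constructor
  · rintro ⟨k', h, h'⟩
    rw [mem_cells] at h
    push_cast at h
    simp only [Prod.mk.injEq] at h'
    obtain ⟨h1, h2, rfl⟩ := h'
    exact ⟨h1.symm, h2.symm, h⟩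
  · rintro ⟨h1, h2, h⟩
    refine ⟨k, ?_, ?_⟩
    · rw [mem_cells]
      push_cast
      exact h
    · simp only at h1 h2
      rw [h1, h2]

/-- the marks for which the line `p` is not covered near `z'` -/
def gapSet (X : ℕ) (w : LineConf) (z' : ℤ × ℤ) (p : Σ _ : ℤ, ℕ) : Set MarkConf :=
  ⋃ a ∈ lineCells X w z' p, {x : MarkConf | (x a).1 = 0}

lemma measurableSet_gapSet (X : ℕ) (w : LineConf) (z' : ℤ × ℤ) (p : Σ _ : ℤ, ℕ) :
    MeasurableSet (gapSet X w z' p) :=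
  Finset.measurableSet_biUnion _ fun a _ =>
    (measurable_fst.comp (measurable_pi_apply a)) (measurableSet_singleton 0)

lemma markLaw_gapSet_le {X : ℕ} {l : ℝ≥0}
    (hl : ((2 * (3 * Ls X 0) + 1 : ℕ) : ℝ≥0∞) * ENNReal.ofReal (Real.exp (-l)) ≤ 2⁻¹)
    (w : LineConf) (z' : ℤ × ℤ) (p : Σ _ : ℤ, ℕ) :
    markLaw l (gapSet X w z' p) ≤ 2⁻¹ := by
  refine (measure_biUnion_finset_le _ _).trans (le_trans ?_ hl)
  refine (Finset.sum_le_card_nsmul _ _ (ENNReal.ofReal (Real.exp (-l))) fun a _ =>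
    (markLaw_empty l a).le).trans ?_
  rw [nsmul_eq_mul]
  gcongr
  exact Finset.card_image_le.trans (card_cells_le _ _)

lemma markLaw_not_Cov_le {X : ℕ} {l : ℝ≥0}
    (hl : ((2 * (3 * Ls X 0) + 1 : ℕ) : ℝ≥0∞) * ENNReal.ofReal (Real.exp (-l)) ≤ 2⁻¹)
    (w : LineConf) (S : Finset ℤ) (t : Bool) (z' : ℤ × ℤ) :
    markLaw l {x | (w, x) ∉ Cov X t z'} ≤ (2⁻¹ : ℝ≥0∞) ^ (lineSet X w S t z').card := by
  classical
  have hsub : {x | (w, x) ∉ Cov X t z'} ⊆ ⋂ p : lineSet X w S t z', gapSet X w z' p := by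
    intro x hx
    rw [Set.mem_iInter]
    rintro ⟨p, hp⟩
    rw [mem_lineSet] at hp
    by_contra hgap
    refine hx ⟨p.1, p.2, hp.2.1, hp.2.2, fun k hk => ?_⟩
    by_contra h0
    refine hgap ?_
    rw [gapSet, Set.mem_iUnion₂]
    refine ⟨(p.1, p.2, k), mem_lineCells.2 ⟨rfl, rfl, hk⟩, ?_⟩
    simp only at h0
    change (x (p.1, p.2, k)).1 = 0
    omega
  refine (measure_mono hsub).trans ?_
  have hind : markLaw l (⋂ p : lineSet X w S t z', gapSet X w z' p) =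
      ∏ p : lineSet X w S t z', markLaw l (gapSet X w z' p) := by
    rw [markLaw]
    refine infinitePi_iInter _ (fun p : lineSet X w S t z' => lineCells X w z' p)
      (fun p p' hpp' => ?_) _ (fun p => measurableSet_gapSet X w z' p) (fun p x y hxy hx => ?_)
    · rw [Finset.disjoint_left]
      intro a ha ha'
      rw [mem_lineCells] at ha ha'
      apply hpp'
      apply Subtype.ext
      have h1 : p.1.1 = p'.1.1 := ha.1.symm.trans ha'.1
      have h2 : p.1.2 = p'.1.2 := ha.2.1.symm.trans ha'.2.1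
      exact Sigma.ext h1 (heq_of_eq h2)
    · rw [gapSet, Set.mem_iUnion₂] at hx ⊢
      obtain ⟨a, ha, hxa⟩ := hx
      refine ⟨a, ha, ?_⟩
      have hxa' : (x a).1 = 0 := hxa
      change (y a).1 = 0
      rw [← hxy a ha]
      exact hxa'
  rw [hind]
  calc ∏ p : lineSet X w S t z', markLaw l (gapSet X w z' p)
      ≤ ∏ _p : lineSet X w S t z', (2⁻¹ : ℝ≥0∞) :=
        Finset.prod_le_prod' fun p _ => markLaw_gapSet_le hl w z' p
    _ = (2⁻¹ : ℝ≥0∞) ^ (lineSet X w S t z').card := by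
        rw [Finset.prod_const, Finset.card_univ, Fintype.card_coe]

lemma markLaw_BBD_le {X : ℕ} {l : ℝ≥0}
    (hl : ((2 * (3 * Ls X 0) + 1 : ℕ) : ℝ≥0∞) * ENNReal.ofReal (Real.exp (-l)) ≤ 2⁻¹)
    (w : LineConf) (S : Finset ℤ) {W : Finset ((ℤ × ℤ) × Bool)} {z : ℤ × ℤ}
    (hz : ∀ z' ∈ nb z, ∀ t, (z', t) ∈ W) :
    markLaw l (Prod.mk w ⁻¹' (BBD X z)) ≤ fBD
      (0 + ∑ m ∈ S, ∑ i ∈ Finset.range (w m).1, hBD X W ((w m).2 i)) z := by
  classical
  rw [fBD]
  refine le_min prob_le_one ?_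
  have hsub : Prod.mk w ⁻¹' (BBD X z) ⊆ ⋃ z' ∈ nb z, ⋃ t : Bool, {x | (w, x) ∉ Cov X t z'} := by
    rintro x ⟨z', hz', t, ht⟩
    simp only [Set.mem_iUnion]
    exact ⟨z', hz', t, ht⟩
  refine (measure_mono hsub).trans ?_
  refine (measure_biUnion_finset_le _ _).trans (Finset.sum_le_sum fun z' hz' => ?_)
  refine (measure_iUnion_fintype_le _ _).trans (Finset.sum_le_sum fun t _ => ?_)
  have hext := ext_sum_hit (fun z : (ℤ × ℤ) × Bool => Tset X z.2 z.1) w S (hz z' hz' t)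
  have h2 : ext (0 + ∑ m ∈ S, ∑ i ∈ Finset.range (w m).1, hBD X W ((w m).2 i)) (z', t) =
      (lineSet X w S t z').card := by
    rw [lineSet, Finset.card_sigma]
    exact hext
  rw [h2]
  exact markLaw_not_Cov_le hl w S t z'

lemma BD_l1 (N : ℕ) : ∃ l₁ : ℝ≥0, ∀ l ≥ l₁,
    (N : ℝ≥0∞) * ENNReal.ofReal (Real.exp (-(l : ℝ≥0))) ≤ 2⁻¹ := by
  refine ⟨2 * N, fun l hl => ?_⟩
  have h1 := Real.add_one_le_exp (l : ℝ)
  have h2 : (2 * N : ℝ) ≤ l := by exact_mod_cast hl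
  have h3 : (N : ℝ) * Real.exp (-(l : ℝ)) ≤ 2⁻¹ := by
    rw [Real.exp_neg]
    have h4 : (0 : ℝ) < Real.exp l := Real.exp_pos _
    rw [← div_eq_mul_inv, div_le_iff₀ h4]
    linarith
  calc (N : ℝ≥0∞) * ENNReal.ofReal (Real.exp (-(l : ℝ)))
      = ENNReal.ofReal (N * Real.exp (-(l : ℝ))) := by
        rw [ENNReal.ofReal_mul (by positivity), ENNReal.ofReal_natCast]
    _ ≤ ENNReal.ofReal 2⁻¹ := ENNReal.ofReal_le_ofReal h3
    _ = 2⁻¹ := by rw [ENNReal.ofReal_inv_of_pos (by norm_num)]; norm_num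

theorem BD_final {γ : ℝ≥0} (hγ : 0 < γ) : ∃ X₀ : ℕ, ∀ X ≥ X₀, ∃ l₁ : ℝ≥0, ∀ l ≥ l₁, ∀ k a,
    coxLaw γ l (Bad X (BBD X) k a) ≤ ((xs X k : ℝ≥0∞) ^ 81)⁻¹ := by
  classical
  obtain ⟨X₀, hX₀⟩ := BD_recursion hγ
  refine ⟨max X₀ 100, fun X hX => ?_⟩
  have hX1 : 100 ≤ X := (le_max_right _ _).trans hX
  have hrec := hX₀ X ((le_max_left _ _).trans hX)
  obtain ⟨l₁, hl₁⟩ := BD_l1 (2 * (3 * Ls X 0) + 1)
  refine ⟨l₁, fun l hl k a => ?_⟩
  have hll := hl₁ l hl
  set W : Finset ((ℤ × ℤ) × Bool) :=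
    (finite_locNodes hX1 (loc X k a) (10 * Ls X k)).toFinset ×ˢ Finset.univ with hW
  obtain ⟨N, hN⟩ := exists_nat_ge (‖loc X k a‖ + 10 * Ls X k)
  set S : Finset ℤ := Finset.Icc (-(N : ℤ)) N with hS
  refine (cox_Bad_le hX1 γ l (ae_Reg γ) (fun a => inferInstance) (measurableSet_BBD X)
    (fun w hw y x x' h hx => BBD_dep X w hw y x x' h hx) k a).trans ?_
  calc ∫⁻ w, Fk X (fun y => markLaw l (Prod.mk w ⁻¹' (BBD X y))) k a ∂(lineLaw γ)
      ≤ ∫⁻ w, Fk X (fBD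
        (0 + ∑ m ∈ S, ∑ i ∈ Finset.range (w m).1, hBD X W ((w m).2 i))) k a ∂(lineLaw γ) := by
        refine lintegral_mono fun w => ?_
        refine Fk_mono_local hX1 k a fun z hz => ?_
        refine markLaw_BBD_le hll w S fun z' hz' t => ?_
        rw [hW, Finset.mem_product, Set.Finite.mem_toFinset]
        refine ⟨?_, Finset.mem_univ _⟩
        have h1 := dist_nb (X := X) hz'
        have h2 := dist_triangle (loc X 0 z') (loc X 0 z) (loc X k a)
        have h3 := Ls_mono_zero hX1 k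
        have h4 : (0 : ℝ) ≤ Ls X k := by positivity
        change dist (loc X 0 z') (loc X k a) ≤ 10 * Ls X k
        linarith
    _ = Phi (nuS γ S) (hBD X W) (fun n => Fk X (fBD n) k a) 0 :=
        lintegral_lineLaw γ (measurable_hBD X W) S (fun n => Fk X (fBD n) k a) 0
    _ ≤ ((xs X k : ℝ≥0∞) ^ 81)⁻¹ := by
        refine hrec k a S W (fun m hm => ?_) (fun z t hz => ?_)
        · rw [hS, Finset.mem_Icc]
          rw [abs_le] at hm
          constructor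
          · have : (-(N : ℝ)) ≤ m := by linarith
            exact_mod_cast this
          · have : (m : ℝ) ≤ N := by linarith
            exact_mod_cast this
        · rw [hW, Finset.mem_product, Set.Finite.mem_toFinset]
          exact ⟨hz, Finset.mem_univ _⟩

end Pool.Agent.Lib.MP_3e2d90_pr
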