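import Mathlib
import Pool.Agent.Lib.MP_3e2d90_pr.Nodes

/-!
# Crosses and frames in the plane
-/

open MeasureTheory ProbabilityTheory Set
open scoped NNReal ENNReal

namespace Pool.Agent.Lib.MP_3e2d90_pr

section Plane

lemma Ls_pos {X : ℕ} (hX : 1 ≤ X) : (0 : ℝ) < Ls X 0 := by
  have h1 := le_xs X 0
  have h2 := xs_le_Ls X 0
  have : 0 < Ls X 0 := by omega
  exact_mod_cast this

lemma slope_aux {c s δ L : ℝ} (hcs : c ^ 2 + s ^ 2 = 1) (hs : |s| ≤ 1 / 5) (hδ : |δ| ≤ L / 8) :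
    c ≠ 0 ∧ |s / c| ≤ 205 / 1000 ∧ |δ / c| ≤ 13 / 100 * L := by
  have hc2 : 24 / 25 ≤ c ^ 2 := by
    have : s ^ 2 ≤ (1 / 5) ^ 2 := sq_le_sq' (by linarith [neg_abs_le s]) (by linarith [le_abs_self s])
    linarith
  have hc : 979 / 1000 ≤ |c| := by
    by_contra h
    push Not at h
    have := abs_nonneg c
    have : |c| ^ 2 < (979 / 1000) ^ 2 := pow_lt_pow_left₀ h this (by norm_num)
    rw [sq_abs] at this
    norm_num at this
    linarith
  have hc0 : 0 < |c| := by linarith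
  refine ⟨abs_pos.1 hc0, ?_, ?_⟩
  · rw [abs_div, div_le_iff₀ hc0]
    nlinarith
  · rw [abs_div, div_le_iff₀ hc0]
    have : 0 ≤ L := by linarith [abs_nonneg δ]
    nlinarith

/-- vertical lines in slope form -/
lemma slope_true {X : ℕ} {z : ℤ × ℤ} {q : ℝ × ℝ} (hq : q ∈ Tset X true z) :
    ∃ c e t : ℝ, c ≠ 0 ∧ |t| ≤ 205 / 1000 ∧ |e| ≤ 13 / 100 * (Ls X 0 : ℝ) ∧
      ∀ x : ℂ, pr q.2 x - q.1 = c * ((x.re - (loc X 0 z).re) + t * (x.im - (loc X 0 z).im) - e) := by
  obtain ⟨h1, h2⟩ := hq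
  simp only [if_true] at h2
  obtain ⟨hc, ht, he⟩ := slope_aux (Real.cos_sq_add_sin_sq q.2) h2 h1
  refine ⟨Real.cos q.2, _, _, hc, ht, he, ?_⟩
  intro x
  field_simp
  simp only [pr]
  ring

/-- horizontal lines in slope form -/
lemma slope_false {X : ℕ} {z : ℤ × ℤ} {q : ℝ × ℝ} (hq : q ∈ Tset X false z) :
    ∃ c e t : ℝ, c ≠ 0 ∧ |t| ≤ 205 / 1000 ∧ |e| ≤ 13 / 100 * (Ls X 0 : ℝ) ∧
      ∀ x : ℂ, pr q.2 x - q.1 = c * ((x.im - (loc X 0 z).im) + t * (x.re - (loc X 0 z).re) - e) := by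
  obtain ⟨h1, h2⟩ := hq
  simp only [Bool.false_eq_true, if_false] at h2
  obtain ⟨hc, ht, he⟩ := slope_aux (Real.sin_sq_add_cos_sq q.2) h2 h1
  refine ⟨Real.sin q.2, _, _, hc, ht, he, ?_⟩
  intro x
  field_simp
  simp only [pr]
  ring

lemma abs_mul_le_of {a b A B : ℝ} (ha : |a| ≤ A) (hb : |b| ≤ B) (hA : 0 ≤ A) : |a * b| ≤ A * B := by
  rw [abs_mul]
  exact mul_le_mul ha hb (abs_nonneg _) hA

/-- the basic bound -/
lemma slope_bound {u v i j t t' e e' L : ℝ} (hL : 0 ≤ L) (hi : |i| ≤ L) (hj : |j| ≤ L)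
    (ht : |t| ≤ 205 / 1000) (ht' : |t'| ≤ 205 / 1000) (he : |e| ≤ 13 / 100 * L)
    (he' : |e'| ≤ 13 / 100 * L) (hu : |u - i| ≤ |e| + |t| * |v - j|)
    (hv : |v| ≤ |e'| + |t'| * |u|) : |u| ≤ 3 / 2 * L ∧ |v - j| ≤ 3 / 2 * L := by
  have h1 : |t| * |v - j| ≤ 205 / 1000 * |v - j| :=
    mul_le_mul_of_nonneg_right ht (abs_nonneg _)
  have h2 : |t'| * |u| ≤ 205 / 1000 * |u| :=
    mul_le_mul_of_nonneg_right ht' (abs_nonneg _)
  have h3 : |u| ≤ |u - i| + |i| := by
    have := abs_add_le (u - i) i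
    simpa using this
  have h4 : |v - j| ≤ |v| + |j| := abs_sub _ _
  constructor
  · linarith
  · linarith

theorem seg_inter_seg {X : ℕ} (hX : 1 ≤ X) {z z' : ℤ × ℤ} (h : starAdj z z') {q q' : ℝ × ℝ}
    (hq : q ∈ Tset X false z) (hq' : q' ∈ Tset X true z') :
    (seg X false z q ∩ seg X true z' q').Nonempty := by
  have hL := Ls_pos hX
  obtain ⟨c, e, t, hc, ht, he, H⟩ := slope_false hq
  obtain ⟨c', e', t', hc', ht', he', H'⟩ := slope_true hq'
  set L : ℝ := (Ls X 0 : ℝ) with hLdef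
  set i : ℝ := (loc X 0 z').re - (loc X 0 z).re with hi
  set j : ℝ := (loc X 0 z').im - (loc X 0 z).im with hj
  have hi' : |i| ≤ L := by
    have : i = L * ((z'.1 - z.1 : ℤ) : ℝ) := by simp [hi, loc]; ring
    rw [this, abs_mul, abs_of_pos hL]
    have h1 : |((z'.1 - z.1 : ℤ) : ℝ)| ≤ 1 := by
      have := h.1
      rw [abs_sub_comm] at this
      exact_mod_cast this
    nlinarith
  have hj' : |j| ≤ L := by
    have : j = L * ((z'.2 - z.2 : ℤ) : ℝ) := by simp [hj, loc]; ring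
    rw [this, abs_mul, abs_of_pos hL]
    have h1 : |((z'.2 - z.2 : ℤ) : ℝ)| ≤ 1 := by
      have := h.2
      rw [abs_sub_comm] at this
      exact_mod_cast this
    nlinarith
  -- the intersection point in coordinates relative to `z`
  have htt : |t' * t| ≤ 205 / 1000 * (205 / 1000) := abs_mul_le_of ht' ht (by norm_num)
  have hD : 1 - t' * t ≠ 0 := by
    have := le_abs_self (t' * t)
    intro h0
    linarith
  -- v + t u = e, (u - i) + t' (v - j) = e'
  set u : ℝ := (i + e' + t' * j - t' * e) / (1 - t' * t) with hu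
  set v : ℝ := e - t * u with hv
  have eq1 : v + t * u - e = 0 := by rw [hv]; ring
  have eq2 : (u - i) + t' * (v - j) - e' = 0 := by
    rw [hv, hu]; field_simp; ring
  obtain ⟨b1, b2⟩ := slope_bound (u := u) (v := v) hL.le hi' hj' ht' ht he' he
    (by
      have : u - i = e' - t' * (v - j) := by linarith
      rw [this, ← abs_mul]
      exact abs_sub _ _)
    (by
      rw [hv, ← abs_mul]
      exact abs_sub _ _)
  refine ⟨⟨(loc X 0 z).re + u, (loc X 0 z).im + v⟩, ⟨?_, ?_⟩, ⟨?_, ?_⟩⟩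
  · have := H ⟨(loc X 0 z).re + u, (loc X 0 z).im + v⟩
    simp only [add_sub_cancel_left] at this
    rw [eq1, mul_zero] at this
    linarith
  · simp only [Bool.false_eq_true, if_false, add_sub_cancel_left]
    exact b1
  · have := H' ⟨(loc X 0 z).re + u, (loc X 0 z).im + v⟩
    have e1 : (loc X 0 z).re + u - (loc X 0 z').re = u - i := by rw [hi]; ring
    have e2 : (loc X 0 z).im + v - (loc X 0 z').im = v - j := by rw [hj]; ring
    simp only [e1, e2] at this
    rw [eq2, mul_zero] at this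
    linarith
  · have e2 : (loc X 0 z).im + v - (loc X 0 z').im = v - j := by rw [hj]; ring
    simp only [if_true, e2]
    exact b2

lemma continuous_pr (θ : ℝ) : Continuous (pr θ) := by
  unfold pr
  fun_prop

lemma conv_aux {a b x y z M : ℝ} (ha : 0 ≤ a) (hb : 0 ≤ b) (hab : a + b = 1)
    (hx : |x - z| ≤ M) (hy : |y - z| ≤ M) : |a * x + b * y - z| ≤ M := by
  have e : a * x + b * y - z = a * (x - z) + b * (y - z) := by linear_combination z * hab
  rw [e]
  calc |a * (x - z) + b * (y - z)| ≤ |a * (x - z)| + |b * (y - z)| := abs_add_le _ _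
    _ = a * |x - z| + b * |y - z| := by rw [abs_mul, abs_mul, abs_of_nonneg ha, abs_of_nonneg hb]
    _ ≤ a * M + b * M := by gcongr
    _ = M := by rw [← add_mul, hab, one_mul]

theorem isPreconnected_seg (X : ℕ) (t : Bool) (z : ℤ × ℤ) (q : ℝ × ℝ) :
    IsPreconnected (seg X t z q) := by
  apply Convex.isPreconnected
  intro x hx y hy a b ha hb hab
  obtain ⟨h1, h2⟩ := hx
  obtain ⟨h3, h4⟩ := hy
  refine ⟨?_, ?_⟩
  · simp only [pr, Complex.add_re, Complex.add_im, Complex.real_smul, Complex.mul_re,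
      Complex.mul_im, Complex.ofReal_re, Complex.ofReal_im, zero_mul, sub_zero, add_zero] at *
    linear_combination a * h1 + b * h3 + q.1 * hab
  · cases t
    · simp only [Bool.false_eq_true, if_false, Complex.add_re, Complex.real_smul, Complex.mul_re,
        Complex.ofReal_re, Complex.ofReal_im, zero_mul, sub_zero] at *
      exact conv_aux ha hb hab h2 h4
    · simp only [if_true, Complex.add_im, Complex.real_smul, Complex.mul_im,
        Complex.ofReal_re, Complex.ofReal_im, zero_mul, add_zero] at *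
      exact conv_aux ha hb hab h2 h4

/-- the region enclosed by a frame -/
theorem frame {X : ℕ} (hX : 1 ≤ X) {z : ℤ × ℤ} {U : Set ℂ} (hU : IsPreconnected U)
    (hUz : (U ∩ box X z).Nonempty) {q₁ q₂ q₃ q₄ : ℝ × ℝ}
    (h1 : q₁ ∈ Tset X true (z.1 + 1, z.2)) (h2 : q₂ ∈ Tset X true (z.1 - 1, z.2))
    (h3 : q₃ ∈ Tset X false (z.1, z.2 + 1)) (h4 : q₄ ∈ Tset X false (z.1, z.2 - 1))
    (hd : Disjoint U (seg X true (z.1 + 1, z.2) q₁ ∪ seg X true (z.1 - 1, z.2) q₂ ∪
      seg X false (z.1, z.2 + 1) q₃ ∪ seg X false (z.1, z.2 - 1) q₄)) :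
    Bornology.IsBounded U := by
  have hL := Ls_pos hX
  obtain ⟨c1, e1, t1, hc1, ht1, he1, H1⟩ := slope_true h1
  obtain ⟨c2, e2, t2, hc2, ht2, he2, H2⟩ := slope_true h2
  obtain ⟨c3, e3, t3, hc3, ht3, he3, H3⟩ := slope_false h3
  obtain ⟨c4, e4, t4, hc4, ht4, he4, H4⟩ := slope_false h4
  set L : ℝ := (Ls X 0 : ℝ) with hLdef
  set x0 : ℝ := (loc X 0 z).re with hx0
  set y0 : ℝ := (loc X 0 z).im with hy0
  have r1 : (loc X 0 (z.1 + 1, z.2)).re = x0 + L := by simp [loc, hx0, hLdef]; ring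
  have r2 : (loc X 0 (z.1 - 1, z.2)).re = x0 - L := by simp [loc, hx0, hLdef]; ring
  have r3 : (loc X 0 (z.1, z.2 + 1)).re = x0 := by simp [loc, hx0]
  have r4 : (loc X 0 (z.1, z.2 - 1)).re = x0 := by simp [loc, hx0]
  have i1 : (loc X 0 (z.1 + 1, z.2)).im = y0 := by simp [loc, hy0]
  have i2 : (loc X 0 (z.1 - 1, z.2)).im = y0 := by simp [loc, hy0]
  have i3 : (loc X 0 (z.1, z.2 + 1)).im = y0 + L := by simp [loc, hy0, hLdef]; ring
  have i4 : (loc X 0 (z.1, z.2 - 1)).im = y0 - L := by simp [loc, hy0, hLdef]; ring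
  simp only [r1, i1] at H1
  simp only [r2, i2] at H2
  simp only [r3, i3] at H3
  simp only [r4, i4] at H4
  -- the four half planes
  let g1 : ℂ → ℝ := fun x => (x.re - (x0 + L)) + t1 * (x.im - y0) - e1
  let g2 : ℂ → ℝ := fun x => (x.re - (x0 - L)) + t2 * (x.im - y0) - e2
  let g3 : ℂ → ℝ := fun x => (x.im - (y0 + L)) + t3 * (x.re - x0) - e3
  let g4 : ℂ → ℝ := fun x => (x.im - (y0 - L)) + t4 * (x.re - x0) - e4
  have k1 : Continuous g1 := by fun_prop
  have k2 : Continuous g2 := by fun_prop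
  have k3 : Continuous g3 := by fun_prop
  have k4 : Continuous g4 := by fun_prop
  let G : Set ℂ := {x | g1 x < 0 ∧ 0 < g2 x ∧ g3 x < 0 ∧ 0 < g4 x}
  let F : Set ℂ := {x | g1 x ≤ 0 ∧ 0 ≤ g2 x ∧ g3 x ≤ 0 ∧ 0 ≤ g4 x}
  have hG : IsOpen G := by
    refine (isOpen_lt k1 continuous_const).inter ((isOpen_lt continuous_const k2).inter
      ((isOpen_lt k3 continuous_const).inter (isOpen_lt continuous_const k4)))
  have hF : IsClosed F := by
    refine (isClosed_le k1 continuous_const).inter ((isClosed_le continuous_const k2).inter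
      ((isClosed_le k3 continuous_const).inter (isClosed_le continuous_const k4)))
  have hGF : G ⊆ F := fun x hx => ⟨hx.1.le, hx.2.1.le, hx.2.2.1.le, hx.2.2.2.le⟩
  -- bound on `F`
  have hb : ∀ x ∈ F, |x.re - x0| ≤ 3 / 2 * L ∧ |x.im - y0| ≤ 3 / 2 * L := by
    intro x hx
    obtain ⟨f1, f2, f3, f4⟩ := hx
    simp only [g1, g2, g3, g4] at f1 f2 f3 f4
    have m1 := abs_le.1 (abs_mul_le_of ht1 (le_refl |x.im - y0|) (by norm_num))
    have m2 := abs_le.1 (abs_mul_le_of ht2 (le_refl |x.im - y0|) (by norm_num))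
    have m3 := abs_le.1 (abs_mul_le_of ht3 (le_refl |x.re - x0|) (by norm_num))
    have m4 := abs_le.1 (abs_mul_le_of ht4 (le_refl |x.re - x0|) (by norm_num))
    have n1 := abs_le.1 he1
    have n2 := abs_le.1 he2
    have n3 := abs_le.1 he3
    have n4 := abs_le.1 he4
    have a1 : |x.re - x0| ≤ L + 13 / 100 * L + 205 / 1000 * |x.im - y0| := by
      rw [abs_le]; constructor <;> linarith
    have a2 : |x.im - y0| ≤ L + 13 / 100 * L + 205 / 1000 * |x.re - x0| := by
      rw [abs_le]; constructor <;> linarith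
    constructor <;> linarith
  -- the box is inside `G`
  have hboxG : box X z ⊆ G := by
    intro x hx
    obtain ⟨b1, b2⟩ := hx
    have b1 : |x.re - x0| ≤ L / 2 := b1
    have b2 : |x.im - y0| ≤ L / 2 := b2
    have m1 := abs_le.1 (abs_mul_le_of ht1 b2 (by norm_num))
    have m2 := abs_le.1 (abs_mul_le_of ht2 b2 (by norm_num))
    have m3 := abs_le.1 (abs_mul_le_of ht3 b1 (by norm_num))
    have m4 := abs_le.1 (abs_mul_le_of ht4 b1 (by norm_num))
    have n1 := abs_le.1 he1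
    have n2 := abs_le.1 he2
    have n3 := abs_le.1 he3
    have n4 := abs_le.1 he4
    rw [abs_le] at b1 b2
    refine ⟨?_, ?_, ?_, ?_⟩ <;> simp only [g1, g2, g3, g4] <;> linarith
  -- `U` is inside `G`
  have hUG : U ⊆ G := by
    by_contra hcon
    have hcov : U ⊆ G ∪ Fᶜ := by
      intro x hxU
      by_contra hx
      rw [mem_union, not_or, mem_compl_iff, not_not] at hx
      obtain ⟨hxG, hxF⟩ := hx
      have hxb := hb x hxF
      obtain ⟨f1, f2, f3, f4⟩ := hxF
      apply disjoint_left.1 hd hxU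
      by_cases z1 : g1 x = 0
      · refine Or.inl (Or.inl (Or.inl ⟨?_, ?_⟩))
        · have := H1 x
          rw [show x.re - (x0 + L) + t1 * (x.im - y0) - e1 = 0 from z1, mul_zero] at this
          linarith
        · simp only [if_true, i1]; exact hxb.2
      by_cases z2 : g2 x = 0
      · refine Or.inl (Or.inl (Or.inr ⟨?_, ?_⟩))
        · have := H2 x
          rw [show x.re - (x0 - L) + t2 * (x.im - y0) - e2 = 0 from z2, mul_zero] at this
          linarith
        · simp only [if_true, i2]; exact hxb.2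
      by_cases z3 : g3 x = 0
      · refine Or.inl (Or.inr ⟨?_, ?_⟩)
        · have := H3 x
          rw [show x.im - (y0 + L) + t3 * (x.re - x0) - e3 = 0 from z3, mul_zero] at this
          linarith
        · simp only [Bool.false_eq_true, if_false, r3]; exact hxb.1
      by_cases z4 : g4 x = 0
      · refine Or.inr ⟨?_, ?_⟩
        · have := H4 x
          rw [show x.im - (y0 - L) + t4 * (x.re - x0) - e4 = 0 from z4, mul_zero] at this
          linarith
        · simp only [Bool.false_eq_true, if_false, r4]; exact hxb.1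
      exact absurd ⟨lt_of_le_of_ne f1 z1, lt_of_le_of_ne f2 (Ne.symm z2),
        lt_of_le_of_ne f3 z3, lt_of_le_of_ne f4 (Ne.symm z4)⟩ hxG
    have hne : (U ∩ Fᶜ).Nonempty := by
      obtain ⟨x, hxU, hxG⟩ := not_subset.1 hcon
      exact ⟨x, hxU, (hcov hxU).resolve_left hxG⟩
    have hUne : (U ∩ G).Nonempty := by
      obtain ⟨x, hxU, hxb⟩ := hUz
      exact ⟨x, hxU, hboxG hxb⟩
    obtain ⟨x, -, hxG, hxF⟩ := hU G Fᶜ hG hF.isOpen_compl hcov hUne hne
    exact hxF (hGF hxG)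
  -- `G` is bounded
  refine (Metric.isBounded_closedBall (x := (⟨x0, y0⟩ : ℂ)) (r := 3 * L)).subset ?_
  intro x hx
  obtain ⟨b1, b2⟩ := hb x (hGF (hUG hx))
  rw [Metric.mem_closedBall, dist_eq_norm]
  refine (Complex.norm_le_abs_re_add_abs_im _).trans ?_
  simp only [Complex.sub_re, Complex.sub_im]
  linarith

/-- a covered line gives an occupied segment -/
theorem seg_subset_occupied {X : ℕ} (hX : 10 ≤ X) {t : Bool} {z : ℤ × ℤ}
    {w : LineConf × MarkConf}
    (hw : ∀ (a : ℤ × ℕ × ℤ) r, ((w.2 a).2 r) ∈ Ico (a.2.2 : ℝ) (a.2.2 + 1)) {m : ℤ} {i : ℕ}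
    (hi : i < (w.1 m).1) (hT : (w.1 m).2 i ∈ Tset X t z)
    (hc : ∀ k : ℤ, |(k : ℝ) - tr ((w.1 m).2 i).2 (loc X 0 z)| ≤ 3 * Ls X 0 →
      0 < (w.2 (m, i, k)).1) : seg X t z ((w.1 m).2 i) ⊆ occupied w := by
  have hL : (10 : ℝ) ≤ Ls X 0 := by
    have h1 := le_xs X 0
    have h2 := xs_le_Ls X 0
    have : 10 ≤ Ls X 0 := by omega
    exact_mod_cast this
  set q := (w.1 m).2 i with hq
  intro x hx
  -- distance to the node
  have hdist : ‖x - loc X 0 z‖ ≤ 2 * Ls X 0 := by
    refine (Complex.norm_le_abs_re_add_abs_im _).trans ?_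
    simp only [Complex.sub_re, Complex.sub_im]
    cases t
    · obtain ⟨c, e, t, hc', ht, he, H⟩ := slope_false hT
      obtain ⟨h1, h2⟩ := hx
      simp only [Bool.false_eq_true, if_false] at h2
      have h3 := H x
      rw [h1, sub_self] at h3
      have h4 : (x.im - (loc X 0 z).im) + t * (x.re - (loc X 0 z).re) - e = 0 :=
        (mul_eq_zero.1 h3.symm).resolve_left hc'
      have h5 := abs_mul_le_of ht h2 (by norm_num)
      have h6 : |x.im - (loc X 0 z).im| ≤ |e| + |t * (x.re - (loc X 0 z).re)| := by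
        have : x.im - (loc X 0 z).im = e - t * (x.re - (loc X 0 z).re) := by linarith
        rw [this]
        exact abs_sub _ _
      linarith
    · obtain ⟨c, e, t, hc', ht, he, H⟩ := slope_true hT
      obtain ⟨h1, h2⟩ := hx
      simp only [if_true] at h2
      have h3 := H x
      rw [h1, sub_self] at h3
      have h4 : (x.re - (loc X 0 z).re) + t * (x.im - (loc X 0 z).im) - e = 0 :=
        (mul_eq_zero.1 h3.symm).resolve_left hc'
      have h5 := abs_mul_le_of ht h2 (by norm_num)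
      have h6 : |x.re - (loc X 0 z).re| ≤ |e| + |t * (x.im - (loc X 0 z).im)| := by
        have : x.re - (loc X 0 z).re = e - t * (x.im - (loc X 0 z).im) := by linarith
        rw [this]
        exact abs_sub _ _
      linarith
  set s : ℝ := tr q.2 x with hs
  have hk : |((⌊s⌋ : ℤ) : ℝ) - tr q.2 (loc X 0 z)| ≤ 3 * Ls X 0 := by
    have h1 : |s - tr q.2 (loc X 0 z)| ≤ 2 * Ls X 0 := by
      rw [hs, ← tr_sub]
      exact (abs_tr_le _ _).trans hdist
    have h2 : |((⌊s⌋ : ℤ) : ℝ) - s| ≤ 1 := by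
      rw [abs_le]
      constructor
      · linarith [Int.lt_floor_add_one s]
      · linarith [Int.floor_le s]
    have h3 := abs_add_le (((⌊s⌋ : ℤ) : ℝ) - s) (s - tr q.2 (loc X 0 z))
    have h4 : ((⌊s⌋ : ℤ) : ℝ) - s + (s - tr q.2 (loc X 0 z)) =
      ((⌊s⌋ : ℤ) : ℝ) - tr q.2 (loc X 0 z) := by ring
    rw [h4] at h3
    linarith
  have hpos := hc ⌊s⌋ hk
  have hmark := hw (m, i, ⌊s⌋) 0
  simp only at hmark
  set s' : ℝ := (w.2 (m, i, ⌊s⌋)).2 0 with hs'
  refine mem_iUnion₂.2 ⟨linePt q.1 q.2 s', ⟨m, i, ⌊s⌋, 0, hi, hpos, rfl⟩, ?_⟩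
  have hxs : x = linePt q.1 q.2 s := by
    have h1 := hx.1
    have hcs := Real.cos_sq_add_sin_sq q.2
    simp only [pr] at h1
    apply Complex.ext
    · simp only [linePt, hs, tr]
      rw [← h1]
      linear_combination -x.re * hcs
    · simp only [linePt, hs, tr]
      rw [← h1]
      linear_combination -x.im * hcs
  rw [Metric.mem_closedBall, hxs, dist_eq_norm]
  have hn : ‖linePt q.1 q.2 s - linePt q.1 q.2 s'‖ = |s - s'| := by
    rw [← sq_eq_sq₀ (norm_nonneg _) (abs_nonneg _), sq_abs, ← Complex.normSq_eq_norm_sq,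
      Complex.normSq_apply]
    simp only [linePt, Complex.sub_re, Complex.sub_im]
    have hcs := Real.cos_sq_add_sin_sq q.2
    linear_combination (s - s') ^ 2 * hcs
  rw [hn, abs_le]
  constructor
  · linarith [Int.floor_le s, hmark.2]
  · linarith [Int.lt_floor_add_one s, hmark.1]

end Plane

end Pool.Agent.Lib.MP_3e2d90_pr
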