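import Mathlib
import Pool.Agent.Lib.MP_3e2d90_pr.Nodes
import Pool.Agent.Lib.MP_3e2d90_pr.Plane

/-!
# Deterministic part of the large `λ` regime
-/

open MeasureTheory ProbabilityTheory Set
open scoped NNReal ENNReal

namespace Pool.Agent.Lib.MP_3e2d90_pr

section DetLarge

/-- every point is in the box of some node -/
lemma exists_box {X : ℕ} (hX : 1 ≤ X) (s : ℂ) : ∃ z : ℤ × ℤ, s ∈ box X z := by
  have hL := Ls_pos hX
  refine ⟨(round (s.re / Ls X 0), round (s.im / Ls X 0)), ?_, ?_⟩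
  · have := abs_sub_round (s.re / (Ls X 0 : ℝ))
    have e : s.re - (loc X 0 (round (s.re / Ls X 0), round (s.im / Ls X 0))).re =
        (s.re / (Ls X 0 : ℝ) - round (s.re / (Ls X 0 : ℝ))) * Ls X 0 := by
      simp only [loc]; field_simp
    rw [e, abs_mul, abs_of_pos hL]
    nlinarith
  · have := abs_sub_round (s.im / (Ls X 0 : ℝ))
    have e : s.im - (loc X 0 (round (s.re / Ls X 0), round (s.im / Ls X 0))).im =
        (s.im / (Ls X 0 : ℝ) - round (s.im / (Ls X 0 : ℝ))) * Ls X 0 := by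
      simp only [loc]; field_simp
    rw [e, abs_mul, abs_of_pos hL]
    nlinarith

/-- nodes close in the plane are close in `ℤ²` -/
lemma starAdj_of_box {X : ℕ} (hX : 1 ≤ X) {s : ℂ} {y z : ℤ × ℤ} (hs : s ∈ box X z)
    (hy : s ∈ Metric.closedBall (loc X 0 y) (Ls X 0)) : starAdj z y := by
  have hL := Ls_pos hX
  rw [Metric.mem_closedBall, dist_eq_norm] at hy
  have h1 := (Complex.abs_re_le_norm (s - loc X 0 y)).trans hy
  have h2 := (Complex.abs_im_le_norm (s - loc X 0 y)).trans hy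
  obtain ⟨h3, h4⟩ := hs
  simp only [Complex.sub_re, Complex.sub_im, loc] at h1 h2 h3 h4
  have key : ∀ {x : ℝ} {a b : ℤ}, |x - (Ls X 0 : ℝ) * b| ≤ Ls X 0 →
      |x - (Ls X 0 : ℝ) * a| ≤ Ls X 0 / 2 → |a - b| ≤ 1 := by
    intro x a b hb ha
    have h5 : |(Ls X 0 : ℝ) * (a - b : ℤ)| < Ls X 0 * 2 := by
      have e : (Ls X 0 : ℝ) * (a - b : ℤ) = (x - Ls X 0 * b) - (x - Ls X 0 * a) := by
        push_cast; ring
      rw [e]
      refine (abs_sub _ _).trans_lt ?_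
      linarith
    rw [abs_mul, abs_of_pos hL] at h5
    have h6 : |((a - b : ℤ) : ℝ)| < 2 := lt_of_mul_lt_mul_left h5 hL.le
    have h7 : |a - b| < 2 := by exact_mod_cast h6
    omega
  exact ⟨key h1 h3, key h2 h4⟩

lemma mem_nb {y z : ℤ × ℤ} : z ∈ nb y ↔ |z.1 - y.1| ≤ 2 ∧ |z.2 - y.2| ≤ 2 := by
  unfold nb
  rw [Finset.mem_product, Finset.mem_Icc, Finset.mem_Icc, abs_le, abs_le]
  constructor
  · rintro ⟨⟨h1, h2⟩, h3, h4⟩
    refine ⟨⟨?_, ?_⟩, ?_, ?_⟩ <;> omega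
  · rintro ⟨⟨h1, h2⟩, h3, h4⟩
    refine ⟨⟨?_, ?_⟩, ?_, ?_⟩ <;> omega

/-- a covered line -/
lemma exists_seg_of_Cov {X : ℕ} (hX : 10 ≤ X) {t : Bool} {z : ℤ × ℤ} {w : LineConf × MarkConf}
    (hw : ∀ (a : ℤ × ℕ × ℤ) r, ((w.2 a).2 r) ∈ Ico (a.2.2 : ℝ) (a.2.2 + 1))
    (h : w ∈ Cov X t z) : ∃ q ∈ Tset X t z, seg X t z q ⊆ occupied w := by
  obtain ⟨m, i, hi, hT, hc⟩ := h
  exact ⟨_, hT, seg_subset_occupied hX hw hi hT hc⟩

lemma not_percolates_vacant {X : ℕ} (hX : 100 ≤ X) {w : LineConf × MarkConf}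
    (hw : ∀ (a : ℤ × ℕ × ℤ) r, ((w.2 a).2 r) ∈ Ico (a.2.2 : ℝ) (a.2.2 + 1))
    (hb : ∀ U : Set ℂ, IsPreconnected U →
      (∀ y, (U ∩ Metric.closedBall (loc X 0 y) (Ls X 0)).Nonempty → w ∈ BBD X y) →
      Bornology.IsBounded U) : ¬ Percolates (vacant w) := by
  rintro ⟨x, hx, hub⟩
  set U := connectedComponentIn (vacant w) x with hU
  have hUc : IsPreconnected U := isPreconnected_connectedComponentIn
  have hUv : U ⊆ vacant w := connectedComponentIn_subset _ _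
  apply hub
  by_contra hcon
  have : ∃ y, (U ∩ Metric.closedBall (loc X 0 y) (Ls X 0)).Nonempty ∧ w ∉ BBD X y := by
    by_contra hno
    push Not at hno
    exact hcon (hb U hUc hno)
  obtain ⟨y, ⟨s, hsU, hsy⟩, hy⟩ := this
  obtain ⟨z, hz⟩ := exists_box (by omega : 1 ≤ X) s
  have hzy := starAdj_of_box (by omega) hz hsy
  have hcov : ∀ z' ∈ nb y, ∀ t, ∃ q ∈ Tset X t z', seg X t z' q ⊆ occupied w := by
    intro z' hz' t
    apply exists_seg_of_Cov (by omega) hw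
    by_contra hn
    exact hy ⟨z', hz', t, hn⟩
  obtain ⟨ha, hb'⟩ := hzy
  rw [abs_le] at ha hb'
  obtain ⟨q1, hq1, hs1⟩ := hcov (z.1 + 1, z.2) (by
    rw [mem_nb, abs_le, abs_le]; refine ⟨⟨?_, ?_⟩, ?_, ?_⟩ <;> simp only <;> omega) true
  obtain ⟨q2, hq2, hs2⟩ := hcov (z.1 - 1, z.2) (by
    rw [mem_nb, abs_le, abs_le]; refine ⟨⟨?_, ?_⟩, ?_, ?_⟩ <;> simp only <;> omega) true
  obtain ⟨q3, hq3, hs3⟩ := hcov (z.1, z.2 + 1) (by
    rw [mem_nb, abs_le, abs_le]; refine ⟨⟨?_, ?_⟩, ?_, ?_⟩ <;> simp only <;> omega) false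
  obtain ⟨q4, hq4, hs4⟩ := hcov (z.1, z.2 - 1) (by
    rw [mem_nb, abs_le, abs_le]; refine ⟨⟨?_, ?_⟩, ?_, ?_⟩ <;> simp only <;> omega) false
  refine hcon (frame (by omega) hUc ⟨s, hsU, hz⟩ hq1 hq2 hq3 hq4 ?_)
  rw [disjoint_left]
  intro p hpU hp
  apply hUv hpU
  rcases hp with ((hp | hp) | hp) | hp
  · exact hs1 hp
  · exact hs2 hp
  · exact hs3 hp
  · exact hs4 hp

/-- a set of boxes hit by a bounded set is finite -/
lemma finite_nodes {X : ℕ} (hX : 1 ≤ X) {V : Set ℂ} (hV : Bornology.IsBounded V) (R : ℝ) :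
    {z : ℤ × ℤ | ∃ p ∈ V, ‖p - loc X 0 z‖ ≤ R}.Finite := by
  have hL := Ls_pos hX
  have hL1 : (1 : ℝ) ≤ Ls X 0 := by
    have : 0 < Ls X 0 := by exact_mod_cast hL
    exact_mod_cast this
  obtain ⟨M, hM⟩ := hV.exists_norm_le
  obtain ⟨N, hN⟩ := exists_nat_ge (M + R)
  refine ((Set.finite_Icc (-(N : ℤ)) N).prod (Set.finite_Icc (-(N : ℤ)) N)).subset ?_
  rintro z ⟨p, hp, hpz⟩
  have h1 : ‖loc X 0 z‖ ≤ N := by
    have h2 := hM p hp
    have h3 := norm_sub_le p (p - loc X 0 z)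
    rw [sub_sub_cancel] at h3
    linarith
  have h4 := (Complex.abs_re_le_norm (loc X 0 z)).trans h1
  have h5 := (Complex.abs_im_le_norm (loc X 0 z)).trans h1
  simp only [loc, abs_mul, abs_of_pos hL] at h4 h5
  have key : ∀ a : ℤ, (Ls X 0 : ℝ) * |(a : ℝ)| ≤ N → a ∈ Icc (-(N : ℤ)) N := by
    intro a ha
    have h6 : |(a : ℝ)| ≤ N := by nlinarith [abs_nonneg (a : ℝ)]
    have h7 : |a| ≤ (N : ℤ) := by exact_mod_cast h6
    rw [abs_le] at h7
    exact h7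
  exact ⟨key _ h4, key _ h5⟩

lemma percolates_of_subset {A V : Set ℂ} (hV : IsPreconnected V) (hne : V.Nonempty)
    (hVA : V ⊆ A) (hub : ¬ Bornology.IsBounded V) : Percolates A := by
  obtain ⟨x, hx⟩ := hne
  refine ⟨x, hVA hx, fun hb => hub (hb.subset ?_)⟩
  exact hV.subset_connectedComponentIn hx hVA

lemma reflTransGen_of_NNConn {S : Set (ℤ × ℤ)} (hS : NNConn S) {u v : ℤ × ℤ} (hu : u ∈ S)
    (hv : v ∈ S) {R : ℤ × ℤ → ℤ × ℤ → Prop} (hR : ∀ a b, nnAdj a b → a ∈ S → b ∈ S → R a b) :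
    Relation.ReflTransGen R u v := by
  have := hS u hu v hv
  clear hv
  induction this with
  | refl => exact Relation.ReflTransGen.refl
  | tail _ h ih => exact ih.tail (hR _ _ h.1 h.2.1 h.2.2)

lemma starAdj_of_nnAdj {u v : ℤ × ℤ} (h : nnAdj u v) : starAdj u v := by
  unfold nnAdj at h
  have := abs_nonneg (u.1 - v.1)
  have := abs_nonneg (u.2 - v.2)
  constructor <;> omega

lemma starAdj_refl (u : ℤ × ℤ) : starAdj u u := by simp [starAdj]

lemma seg_near {X : ℕ} (hX : 1 ≤ X) {z : ℤ × ℤ} {q q' : ℝ × ℝ} {p : ℂ}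
    (hp : p ∈ seg X false z q ∩ seg X true z q') : ‖p - loc X 0 z‖ ≤ 3 * Ls X 0 := by
  have hL := Ls_pos hX
  obtain ⟨⟨-, h1⟩, -, h2⟩ := hp
  simp only [Bool.false_eq_true, if_false, if_true] at h1 h2
  refine (Complex.norm_le_abs_re_add_abs_im _).trans ?_
  simp only [Complex.sub_re, Complex.sub_im]
  linarith

lemma percolates_occupied {X : ℕ} (hX : 100 ≤ X) {w : LineConf × MarkConf}
    (hw : ∀ (a : ℤ × ℕ × ℤ) r, ((w.2 a).2 r) ∈ Ico (a.2.2 : ℝ) (a.2.2 + 1))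
    (hc : ∀ Cl : Set (ℤ × ℤ), (∀ y ∈ Cl, ∀ y', starAdj y y' → w ∈ BBD X y') →
      ∃ S ⊆ Clᶜ, S.Infinite ∧ NNConn S) : Percolates (occupied w) := by
  obtain ⟨S, hS, hSinf, hSc⟩ := hc {z | ∃ t, w ∉ Cov X t z} (by
    rintro y ⟨t, ht⟩ y' hy
    refine ⟨y, ?_, t, ht⟩
    rw [mem_nb]
    exact ⟨hy.1.trans (by norm_num), hy.2.trans (by norm_num)⟩)
  have hcov : ∀ z ∈ S, ∀ t, ∃ q ∈ Tset X t z, seg X t z q ⊆ occupied w := by
    intro z hz t
    apply exists_seg_of_Cov (by omega) hw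
    by_contra hn
    exact hS hz ⟨t, hn⟩
  choose! Q hQ1 hQ2 using hcov
  set V : ℤ × ℤ → Set ℂ := fun z => seg X false z (Q z false) ∪ seg X true z (Q z true) with hV
  have hmeet : ∀ z ∈ S, ∀ z' ∈ S, starAdj z z' →
      (seg X false z (Q z false) ∩ seg X true z' (Q z' true)).Nonempty := fun z hz z' hz' h =>
    seg_inter_seg (by omega) h (hQ1 z hz false) (hQ1 z' hz' true)
  have hVc : ∀ z ∈ S, IsPreconnected (V z) := by
    intro z hz
    obtain ⟨p, hp1, hp2⟩ := hmeet z hz z hz (starAdj_refl z)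
    exact IsPreconnected.union p hp1 hp2 (isPreconnected_seg _ _ _ _) (isPreconnected_seg _ _ _ _)
  have hU : IsPreconnected (⋃ z ∈ S, V z) := by
    refine IsPreconnected.biUnion_of_reflTransGen hVc ?_
    intro u hu v hv
    refine reflTransGen_of_NNConn hSc hu hv ?_
    intro a b hab ha hb
    refine ⟨?_, ha⟩
    obtain ⟨p, hp1, hp2⟩ := hmeet a ha b hb (starAdj_of_nnAdj hab)
    exact ⟨p, Or.inl hp1, Or.inr hp2⟩
  have hUo : (⋃ z ∈ S, V z) ⊆ occupied w := by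
    refine iUnion₂_subset fun z hz => ?_
    exact union_subset (hQ2 z hz false) (hQ2 z hz true)
  have hub : ¬ Bornology.IsBounded (⋃ z ∈ S, V z) := by
    intro hb
    refine hSinf ((finite_nodes (by omega : 1 ≤ X) hb (3 * Ls X 0)).subset ?_)
    intro z hz
    obtain ⟨p, hp⟩ := hmeet z hz z hz (starAdj_refl z)
    exact ⟨p, mem_iUnion₂.2 ⟨z, hz, Or.inl hp.1⟩, seg_near (by omega) hp⟩
  have hne : (⋃ z ∈ S, V z).Nonempty := by
    obtain ⟨z, hz⟩ := hSinf.nonempty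
    obtain ⟨p, hp⟩ := hmeet z hz z hz (starAdj_refl z)
    exact ⟨p, mem_iUnion₂.2 ⟨z, hz, Or.inl hp.1⟩⟩
  exact percolates_of_subset hU hne hUo hub

end DetLarge

end Pool.Agent.Lib.MP_3e2d90_pr
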