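import Mathlib
import Pool.Agent.Lib.MP_3e2d90_pr.Nodes
import Pool.Agent.Lib.MP_3e2d90_pr.DetLarge

/-!
# Deterministic part of the small `λ` regime
-/

open MeasureTheory ProbabilityTheory Set
open scoped NNReal ENNReal

namespace Pool.Agent.Lib.MP_3e2d90_pr

section DetSmall

lemma pr_linePt (p θ s : ℝ) : pr θ (linePt p θ s) = p := by
  simp only [pr, linePt]
  have := Real.cos_sq_add_sin_sq θ
  linear_combination p * this

lemma tr_linePt (p θ s : ℝ) : tr θ (linePt p θ s) = s := by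
  simp only [tr, linePt]
  have := Real.cos_sq_add_sin_sq θ
  linear_combination s * this

lemma mem_BAC {X : ℕ} (hX : 10 ≤ X) {w : LineConf × MarkConf}
    (hw : ∀ (a : ℤ × ℕ × ℤ) r, ((w.2 a).2 r) ∈ Ico (a.2.2 : ℝ) (a.2.2 + 1)) {s : ℂ}
    (hs : s ∈ occupied w) {y : ℤ × ℤ} (hy : ‖s - loc X 0 y‖ ≤ 22 / 10 * Ls X 0) :
    w ∈ BAC X y := by
  have hL : (10 : ℝ) ≤ Ls X 0 := by
    have h1 := le_xs X 0
    have h2 := xs_le_Ls X 0
    have : 10 ≤ Ls X 0 := by omega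
    exact_mod_cast this
  obtain ⟨P, ⟨m, i, k, r, hi, hr, hP⟩, hsP⟩ := mem_iUnion₂.1 hs
  rw [Metric.mem_closedBall, dist_comm, dist_eq_norm] at hsP
  have hPy : ‖P - loc X 0 y‖ ≤ 22 / 10 * Ls X 0 + 1 := by
    have := norm_add_le (P - s) (s - loc X 0 y)
    rw [sub_add_sub_cancel] at this
    linarith
  refine ⟨m, i, k, hi, by omega, ?_, ?_⟩
  · change |((w.1 m).2 i).1 - pr ((w.1 m).2 i).2 (loc X 0 y)| ≤ _
    have h1 := abs_pr_le ((w.1 m).2 i).2 (P - loc X 0 y)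
    rw [pr_sub, hP, pr_linePt, ← hP] at h1
    linarith
  · have h1 := abs_tr_le ((w.1 m).2 i).2 (P - loc X 0 y)
    rw [tr_sub, hP, tr_linePt, ← hP] at h1
    have h2 := hw (m, i, k) r
    simp only at h2
    have h3 : |(k : ℝ) - (w.2 (m, i, k)).2 r| ≤ 1 := by
      rw [abs_le]
      constructor
      · linarith [h2.2]
      · linarith [h2.1]
    have h4 := abs_add_le ((k : ℝ) - (w.2 (m, i, k)).2 r)
      ((w.2 (m, i, k)).2 r - tr ((w.1 m).2 i).2 (loc X 0 y))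
    rw [sub_add_sub_cancel] at h4
    linarith

lemma not_percolates_occupied {X : ℕ} (hX : 100 ≤ X) {w : LineConf × MarkConf}
    (hw : ∀ (a : ℤ × ℕ × ℤ) r, ((w.2 a).2 r) ∈ Ico (a.2.2 : ℝ) (a.2.2 + 1))
    (hb : ∀ U : Set ℂ, IsPreconnected U →
      (∀ y, (U ∩ Metric.closedBall (loc X 0 y) (Ls X 0)).Nonempty → w ∈ BAC X y) →
      Bornology.IsBounded U) : ¬ Percolates (occupied w) := by
  rintro ⟨x, hx, hub⟩
  apply hub
  refine hb _ isPreconnected_connectedComponentIn ?_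
  rintro y ⟨s, hs, hsy⟩
  rw [Metric.mem_closedBall, dist_eq_norm] at hsy
  refine mem_BAC (by omega) hw (connectedComponentIn_subset _ _ hs) ?_
  have := Ls_pos (by omega : 1 ≤ X)
  linarith

lemma convex_box (X : ℕ) (z : ℤ × ℤ) : Convex ℝ (box X z) := by
  intro x hx y hy a b ha hb hab
  obtain ⟨h1, h2⟩ := hx
  obtain ⟨h3, h4⟩ := hy
  refine ⟨?_, ?_⟩
  · simp only [Complex.add_re, Complex.real_smul, Complex.mul_re,
      Complex.ofReal_re, Complex.ofReal_im, zero_mul, sub_zero]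
    exact conv_aux ha hb hab h1 h3
  · simp only [Complex.add_im, Complex.real_smul, Complex.mul_im,
      Complex.ofReal_re, Complex.ofReal_im, zero_mul, add_zero]
    exact conv_aux ha hb hab h2 h4

lemma loc_mem_box (X : ℕ) (z : ℤ × ℤ) : loc X 0 z ∈ box X z := by
  refine ⟨?_, ?_⟩ <;> simp <;> positivity

lemma box_inter_box {X : ℕ} {u v : ℤ × ℤ} (h : starAdj u v) :
    (box X u ∩ box X v).Nonempty := by
  have hL : (0 : ℝ) ≤ Ls X 0 := by positivity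
  have key : ∀ {a b : ℤ}, |a - b| ≤ 1 →
      |(Ls X 0 : ℝ) * ((a + b) / 2) - Ls X 0 * a| ≤ Ls X 0 / 2 ∧
      |(Ls X 0 : ℝ) * ((a + b) / 2) - Ls X 0 * b| ≤ Ls X 0 / 2 := by
    intro a b hab
    have h1 : |(a : ℝ) - b| ≤ 1 := by exact_mod_cast hab
    have e1 : (Ls X 0 : ℝ) * ((a + b) / 2) - Ls X 0 * a = -((Ls X 0 : ℝ) / 2 * (a - b)) := by ring
    have e2 : (Ls X 0 : ℝ) * ((a + b) / 2) - Ls X 0 * b = (Ls X 0 : ℝ) / 2 * (a - b) := by ring
    rw [e1, e2, abs_neg, abs_mul, abs_of_nonneg (by positivity : (0 : ℝ) ≤ (Ls X 0 : ℝ) / 2)]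
    constructor <;> nlinarith
  refine ⟨⟨(Ls X 0 : ℝ) * ((u.1 + v.1) / 2), (Ls X 0 : ℝ) * ((u.2 + v.2) / 2)⟩,
    ⟨?_, ?_⟩, ?_, ?_⟩
  · exact (key h.1).1
  · exact (key h.2).1
  · exact (key h.1).2
  · exact (key h.2).2

lemma percolates_vacant {X : ℕ} (hX : 100 ≤ X) {w : LineConf × MarkConf}
    (hw : ∀ (a : ℤ × ℕ × ℤ) r, ((w.2 a).2 r) ∈ Ico (a.2.2 : ℝ) (a.2.2 + 1))
    (hc : ∀ Cl : Set (ℤ × ℤ), (∀ y ∈ Cl, ∀ y', starAdj y y' → w ∈ BAC X y') →
      ∃ S ⊆ Clᶜ, S.Infinite ∧ NNConn S) : Percolates (vacant w) := by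
  have hL := Ls_pos (by omega : 1 ≤ X)
  obtain ⟨S, hS, hSinf, hSc⟩ := hc {z | (box X z ∩ occupied w).Nonempty} (by
    rintro y ⟨s, hs, hsO⟩ y' hy
    refine mem_BAC (by omega) hw hsO ?_
    have key : ∀ {x : ℝ} {a b : ℤ}, |x - (Ls X 0 : ℝ) * a| ≤ Ls X 0 / 2 → |a - b| ≤ 1 →
        (x - (Ls X 0 : ℝ) * b) ^ 2 ≤ (3 / 2 * Ls X 0) ^ 2 := by
      intro x a b h1 h2
      have h3 : |(a : ℝ) - b| ≤ 1 := by exact_mod_cast h2
      have h4 : |(Ls X 0 : ℝ) * (a - b)| ≤ Ls X 0 := by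
        rw [abs_mul, abs_of_pos hL]; nlinarith
      have h5 : |x - (Ls X 0 : ℝ) * b| ≤ 3 / 2 * Ls X 0 := by
        have h6 := abs_add_le (x - (Ls X 0 : ℝ) * a) ((Ls X 0 : ℝ) * (a - b))
        have h7 : (x - (Ls X 0 : ℝ) * a) + (Ls X 0 : ℝ) * (a - b) = x - (Ls X 0 : ℝ) * b := by ring
        rw [h7] at h6
        linarith
      exact sq_le_sq' (by linarith [neg_abs_le (x - (Ls X 0 : ℝ) * b)])
        (by linarith [le_abs_self (x - (Ls X 0 : ℝ) * b)])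
    have e1 := key hs.1 hy.1
    have e2 := key hs.2 hy.2
    have e3 : ‖s - loc X 0 y'‖ ^ 2 ≤ (22 / 10 * (Ls X 0 : ℝ)) ^ 2 := by
      rw [← Complex.normSq_eq_norm_sq, Complex.normSq_apply]
      simp only [Complex.sub_re, Complex.sub_im, loc]
      nlinarith
    exact le_of_sq_le_sq e3 (by positivity))
  have hV : (⋃ z ∈ S, box X z) ⊆ vacant w := by
    refine iUnion₂_subset fun z hz p hp hpO => ?_
    exact hS hz ⟨p, hp, hpO⟩
  have hU : IsPreconnected (⋃ z ∈ S, box X z) := by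
    refine IsPreconnected.biUnion_of_reflTransGen (fun z _ => (convex_box X z).isPreconnected) ?_
    intro u hu v hv
    refine reflTransGen_of_NNConn hSc hu hv ?_
    intro a b hab ha _
    exact ⟨box_inter_box (starAdj_of_nnAdj hab), ha⟩
  have hub : ¬ Bornology.IsBounded (⋃ z ∈ S, box X z) := by
    intro hb
    refine hSinf ((finite_nodes (by omega : 1 ≤ X) hb 0).subset ?_)
    intro z hz
    exact ⟨loc X 0 z, mem_iUnion₂.2 ⟨z, hz, loc_mem_box X z⟩, by simp⟩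
  have hne : (⋃ z ∈ S, box X z).Nonempty := by
    obtain ⟨z, hz⟩ := hSinf.nonempty
    exact ⟨loc X 0 z, mem_iUnion₂.2 ⟨z, hz, loc_mem_box X z⟩⟩
  exact percolates_of_subset hU hne hV hub

end DetSmall

end Pool.Agent.Lib.MP_3e2d90_pr
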