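import Mathlib
import Pool.Agent.Lib.MP_3e2d90_pr.Nodes

/-!
# Planar duality on `ℤ²`
-/

open MeasureTheory ProbabilityTheory Set
open scoped NNReal ENNReal

namespace Pool.Agent.Lib.MP_3e2d90_pr

section Dual

/-- discrete primitive on `ℤ` -/
noncomputable def prim (h : ℤ → ZMod 2) (x : ℤ) : ZMod 2 :=
  ∑ i ∈ Finset.Ico 0 x, h i - ∑ i ∈ Finset.Ico x 0, h i

lemma prim_zero (h : ℤ → ZMod 2) : prim h 0 = 0 := by simp [prim]

lemma prim_succ (h : ℤ → ZMod 2) (x : ℤ) : prim h (x + 1) = prim h x + h x := by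
  unfold prim
  rcases le_or_gt 0 x with hx | hx
  · rw [Finset.Ico_eq_empty (a := x) (b := 0) (by omega),
      Finset.Ico_eq_empty (a := x + 1) (b := 0) (by omega)]
    have : Finset.Ico 0 (x + 1) = insert x (Finset.Ico 0 x) := by
      ext i; simp only [Finset.mem_Ico, Finset.mem_insert]; omega
    rw [this, Finset.sum_insert (by simp)]
    ring
  · rw [Finset.Ico_eq_empty (a := 0) (b := x) (by omega),
      Finset.Ico_eq_empty (a := 0) (b := x + 1) (by omega)]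
    have : Finset.Ico x 0 = insert x (Finset.Ico (x + 1) 0) := by
      ext i; simp only [Finset.mem_Ico, Finset.mem_insert]; omega
    rw [this, Finset.sum_insert (by simp)]
    ring

lemma int_rec {P : ℤ → Prop} (h0 : P 0) (h1 : ∀ x, P x ↔ P (x + 1)) (x : ℤ) : P x := by
  induction x using Int.induction_on with
  | zero => exact h0
  | succ i hi => exact (h1 _).1 hi
  | pred i hi => exact (h1 _).2 (by simpa using hi)

lemma exists_potential (H V : ℤ → ℤ → ZMod 2)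
    (hsq : ∀ x y, H x y + V (x + 1) y = V x y + H x (y + 1)) :
    ∃ f : ℤ → ℤ → ZMod 2, (∀ x y, f (x + 1) y = f x y + H x y) ∧
      (∀ x y, f x (y + 1) = f x y + V x y) := by
  refine ⟨fun x y => prim (fun x => H x 0) x + prim (fun y => V x y) y, ?_, ?_⟩
  · intro x y
    refine int_rec (P := fun y => prim (fun x => H x 0) (x + 1) + prim (fun y => V (x + 1) y) y =
      prim (fun x => H x 0) x + prim (fun y => V x y) y + H x y) ?_ ?_ y
    · simp only [prim_zero, prim_succ]; ring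
    · intro y
      simp only [prim_succ]
      have := hsq x y
      constructor
      · intro h
        linear_combination h + this
      · intro h
        linear_combination h - this
  · intro x y
    simp only [prim_succ]; ring

/-- connection in the complement of a box: the ray to the right -/
lemma ray_right (f : ℤ → ℤ × ℤ) (A : Set (ℤ × ℤ))
    (hf : ∀ x, nnAdj (f x) (f (x + 1))) {a : ℤ} (ha : ∀ x, a ≤ x → f x ∉ A) (k : ℕ) :
    Relation.ReflTransGen (fun x y => nnAdj x y ∧ x ∉ A ∧ y ∉ A) (f a) (f (a + k)) := by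
  induction k with
  | zero => simp; exact Relation.ReflTransGen.refl
  | succ k ih =>
    refine ih.tail ⟨?_, ha _ (by omega), ha _ (by push_cast; omega)⟩
    have := hf (a + k)
    push_cast
    rwa [← add_assoc]

open Classical in
/-- indicator of the cut edges with outer endpoint in `K` -/
noncomputable def cutE (A K : Set (ℤ × ℤ)) (u v : ℤ × ℤ) : ZMod 2 :=
  if (u ∈ A ∧ v ∉ A ∧ v ∈ K) ∨ (v ∈ A ∧ u ∉ A ∧ u ∈ K) then 1 else 0

lemma cutE_comm (A K : Set (ℤ × ℤ)) (u v : ℤ × ℤ) : cutE A K u v = cutE A K v u := by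
  unfold cutE
  congr 1
  exact propext or_comm

lemma nnAdj_comm {u v : ℤ × ℤ} (h : nnAdj u v) : nnAdj v u := by
  unfold nnAdj at *
  rw [abs_sub_comm v.1, abs_sub_comm v.2]; exact h

lemma nnAdj_cases {u v : ℤ × ℤ} (h : nnAdj u v) :
    v = (u.1 + 1, u.2) ∨ u = (v.1 + 1, v.2) ∨ v = (u.1, u.2 + 1) ∨ u = (v.1, v.2 + 1) := by
  unfold nnAdj at h
  obtain ⟨a, b⟩ := u
  obtain ⟨c, d⟩ := v
  simp only [Prod.mk.injEq] at *
  have h1 := abs_cases (a - c)
  have h2 := abs_cases (b - d)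
  omega

open Classical in
lemma square_aux (a0 a1 a2 a3 c0 c1 c2 c3 : Prop)
    (k12 : ¬ a1 → ¬ a2 → a0 ∨ a3 → (c1 ↔ c2)) (k03 : ¬ a0 → ¬ a3 → a1 ∨ a2 → (c0 ↔ c3))
    (k01 : ¬ a0 → ¬ a1 → a2 → a3 → (c0 ↔ c1)) (k23 : ¬ a2 → ¬ a3 → a0 → a1 → (c2 ↔ c3))
    (k02 : ¬ a0 → ¬ a2 → a1 → a3 → (c0 ↔ c2)) (k13 : ¬ a1 → ¬ a3 → a0 → a2 → (c1 ↔ c3)) :
    (if (a0 ∧ ¬ a1 ∧ c1) ∨ (a1 ∧ ¬ a0 ∧ c0) then 1 else 0 : ZMod 2) +
      (if (a1 ∧ ¬ a3 ∧ c3) ∨ (a3 ∧ ¬ a1 ∧ c1) then 1 else 0) =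
    (if (a0 ∧ ¬ a2 ∧ c2) ∨ (a2 ∧ ¬ a0 ∧ c0) then 1 else 0) +
      (if (a2 ∧ ¬ a3 ∧ c3) ∨ (a3 ∧ ¬ a2 ∧ c2) then 1 else 0) := by
  have hz : ∀ c : Prop, (if c then (1 : ZMod 2) else 0) + (if c then 1 else 0) = 0 := by
    intro c
    by_cases hc : c <;> simp only [hc, if_true, if_false] <;> decide
  by_cases h0 : a0 <;> by_cases h1 : a1 <;> by_cases h2 : a2 <;> by_cases h3 : a3 <;>
    simp only [h0, h1, h2, h3, true_and, false_and, not_true_eq_false, not_false_eq_true,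
      or_false, false_or, or_true, if_false, add_zero, zero_add, and_false, forall_const,
      IsEmpty.forall_iff] at * <;> simp only [*]

lemma separation (A K : Set (ℤ × ℤ))
    (hK : ∀ u v, u ∉ A → v ∉ A → starAdj u v → (∃ a ∈ A, nnAdj a u) → (∃ a ∈ A, nnAdj a v) →
      u ∈ K → v ∈ K) :
    ∃ f : ℤ × ℤ → ZMod 2, ∀ u v, nnAdj u v → f v = f u + cutE A K u v := by
  have hsq : ∀ x y : ℤ, cutE A K (x, y) (x + 1, y) + cutE A K (x + 1, y) (x + 1, y + 1) =
      cutE A K (x, y) (x, y + 1) + cutE A K (x, y + 1) (x + 1, y + 1) := by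
    intro x y
    set p0 : ℤ × ℤ := (x, y) with hp0
    set p1 : ℤ × ℤ := (x + 1, y) with hp1
    set p2 : ℤ × ℤ := (x, y + 1) with hp2
    set p3 : ℤ × ℤ := (x + 1, y + 1) with hp3
    have n01 : nnAdj p0 p1 := by simp [nnAdj, hp0, hp1]
    have n02 : nnAdj p0 p2 := by simp [nnAdj, hp0, hp2]
    have n13 : nnAdj p1 p3 := by simp [nnAdj, hp1, hp3]
    have n23 : nnAdj p2 p3 := by simp [nnAdj, hp2, hp3]
    have s01 : starAdj p0 p1 := by simp [starAdj, hp0, hp1]
    have s02 : starAdj p0 p2 := by simp [starAdj, hp0, hp2]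
    have s03 : starAdj p0 p3 := by simp [starAdj, hp0, hp3]
    have s12 : starAdj p1 p2 := by simp [starAdj, hp1, hp2]
    have s13 : starAdj p1 p3 := by simp [starAdj, hp1, hp3]
    have s23 : starAdj p2 p3 := by simp [starAdj, hp2, hp3]
    have hsym : ∀ {u v : ℤ × ℤ}, starAdj u v → starAdj v u := by
      intro u v h
      unfold starAdj at *
      rw [abs_sub_comm v.1, abs_sub_comm v.2]; exact h
    have key : ∀ u v, u ∉ A → v ∉ A → starAdj u v → (∃ a ∈ A, nnAdj a u) →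
        (∃ a ∈ A, nnAdj a v) → (u ∈ K ↔ v ∈ K) := fun u v h1 h2 h3 h4 h5 =>
      ⟨hK u v h1 h2 h3 h4 h5, hK v u h2 h1 (hsym h3) h5 h4⟩
    simp only [cutE]
    refine square_aux _ _ _ _ _ _ _ _ ?_ ?_ ?_ ?_ ?_ ?_
    · rintro h1 h2 (h | h)
      · exact key _ _ h1 h2 s12 ⟨_, h, n01⟩ ⟨_, h, n02⟩
      · exact key _ _ h1 h2 s12 ⟨_, h, nnAdj_comm n13⟩ ⟨_, h, nnAdj_comm n23⟩
    · rintro h1 h2 (h | h)
      · exact key _ _ h1 h2 s03 ⟨_, h, nnAdj_comm n01⟩ ⟨_, h, n13⟩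
      · exact key _ _ h1 h2 s03 ⟨_, h, nnAdj_comm n02⟩ ⟨_, h, n23⟩
    · rintro h1 h2 h h'
      exact key _ _ h1 h2 s01 ⟨_, h, nnAdj_comm n02⟩ ⟨_, h', nnAdj_comm n13⟩
    · rintro h1 h2 h h'
      exact key _ _ h1 h2 s23 ⟨_, h, n02⟩ ⟨_, h', n13⟩
    · rintro h1 h2 h h'
      exact key _ _ h1 h2 s02 ⟨_, h, nnAdj_comm n01⟩ ⟨_, h', nnAdj_comm n23⟩
    · rintro h1 h2 h h'
      exact key _ _ h1 h2 s13 ⟨_, h, n01⟩ ⟨_, h', n23⟩
  obtain ⟨f, hf1, hf2⟩ := exists_potential (fun x y => cutE A K (x, y) (x + 1, y))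
    (fun x y => cutE A K (x, y) (x, y + 1)) hsq
  refine ⟨fun u => f u.1 u.2, ?_⟩
  intro u v huv
  have hz : ∀ a : ZMod 2, a + a = 0 := by decide
  rcases nnAdj_cases huv with h | h | h | h
  · rw [h]; exact hf1 _ _
  · rw [h]
    have := hf1 v.1 v.2
    have h2 := cutE_comm A K (v.1 + 1, v.2) v
    simp only [h2]
    have h3 := hz (cutE A K v (v.1 + 1, v.2))
    have h4 : cutE A K (v.1, v.2) (v.1 + 1, v.2) = cutE A K v (v.1 + 1, v.2) := rfl
    linear_combination -this - h3 - h4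
  · rw [h]; exact hf2 _ _
  · rw [h]
    have := hf2 v.1 v.2
    have h2 := cutE_comm A K (v.1, v.2 + 1) v
    simp only [h2]
    have h3 := hz (cutE A K v (v.1, v.2 + 1))
    have h4 : cutE A K (v.1, v.2) (v.1, v.2 + 1) = cutE A K v (v.1, v.2 + 1) := rfl
    linear_combination -this - h3 - h4

/-- reachable from `w` inside `S` -/
def Reach (S : Set (ℤ × ℤ)) (w v : ℤ × ℤ) : Prop :=
  Relation.ReflTransGen (fun x y => nnAdj x y ∧ x ∈ S ∧ y ∈ S) w v

lemma Reach.symm {S : Set (ℤ × ℤ)} {w v : ℤ × ℤ} (h : Reach S w v) : Reach S v w := by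
  unfold Reach at *
  induction h with
  | refl => exact Relation.ReflTransGen.refl
  | tail _ h ih => exact Relation.ReflTransGen.head ⟨nnAdj_comm h.1, h.2.2, h.2.1⟩ ih

lemma Reach.mem {S : Set (ℤ × ℤ)} {w v : ℤ × ℤ} (h : Reach S w v) (hw : w ∈ S) : v ∈ S := by
  unfold Reach at *
  induction h with
  | refl => exact hw
  | tail _ h ih => exact h.2.2

/-- clusters are connected -/
lemma nnconn_cluster (S : Set (ℤ × ℤ)) (w : ℤ × ℤ) :
    NNConn {v | Reach S w v} := by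
  have key : ∀ v, Reach S w v → Relation.ReflTransGen
      (fun x y => nnAdj x y ∧ x ∈ {v | Reach S w v} ∧ y ∈ {v | Reach S w v}) w v := by
    intro v hv
    induction hv with
    | refl => exact Relation.ReflTransGen.refl
    | tail h1 h2 ih => exact ih.tail ⟨h2.1, h1, Relation.ReflTransGen.tail h1 h2⟩
  intro u hu v hv
  refine Relation.ReflTransGen.trans ?_ (key v hv)
  have := key u hu
  clear hv
  induction this with
  | refl => exact Relation.ReflTransGen.refl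
  | tail _ h ih => exact Relation.ReflTransGen.head ⟨nnAdj_comm h.1, h.2.2, h.2.1⟩ (ih h.2.1)

lemma cluster_finite {Op : Set (ℤ × ℤ)} (hfin : ∀ S ⊆ Op, NNConn S → S.Finite) (T : Set (ℤ × ℤ))
    (hT : T.Finite) (o : ℤ × ℤ) (ho : o ∈ T) : {v | Reach (Op ∪ T) o v}.Finite := by
  have hN : {w : ℤ × ℤ | w ∈ Op ∧ ∃ t ∈ T, nnAdj t w}.Finite := by
    have : {w : ℤ × ℤ | w ∈ Op ∧ ∃ t ∈ T, nnAdj t w} ⊆
        ⋃ t ∈ T, {(t.1 + 1, t.2), (t.1 - 1, t.2), (t.1, t.2 + 1), (t.1, t.2 - 1)} := by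
      rintro w ⟨-, t, ht, h⟩
      simp only [mem_iUnion, mem_insert_iff, mem_singleton_iff, exists_prop]
      refine ⟨t, ht, ?_⟩
      obtain ⟨a, b⟩ := w
      rcases nnAdj_cases h with h | h | h | h
      · left; exact h
      · right; left
        rw [h]; simp
      · right; right; left; exact h
      · right; right; right
        rw [h]; simp
    exact (hT.biUnion fun t _ => by simp).subset this
  refine (hT.union (hN.biUnion (t := fun w => {v | Reach Op w v}) fun w hw => ?_)).subset ?_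
  · refine hfin _ ?_ (nnconn_cluster Op w)
    intro v hv
    exact Reach.mem hv hw.1
  · intro v hv
    simp only [mem_ofPred_eq] at hv
    unfold Reach at hv
    induction hv with
    | refl => exact Or.inl ho
    | @tail b c h1 h2 ih =>
      obtain ⟨h3, h4, h5⟩ := h2
      by_cases hc : c ∈ T
      · exact Or.inl hc
      · have hc' : c ∈ Op := h5.resolve_right hc
        right
        simp only [mem_iUnion, exists_prop, mem_ofPred_eq]
        rcases ih with hb | hb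
        · exact ⟨c, ⟨hc', b, hb, h3⟩, Relation.ReflTransGen.refl⟩
        · simp only [mem_iUnion, exists_prop, mem_ofPred_eq] at hb
          obtain ⟨w, hw, hwb⟩ := hb
          exact ⟨w, hw, Relation.ReflTransGen.tail hwb ⟨h3, Reach.mem hwb hw.1, hc'⟩⟩

/-- path around a box -/
lemma path_around (A : Set (ℤ × ℤ)) (hA : A.Finite) {a b : ℤ} (ha : ∀ x, a ≤ x → (x, (0 : ℤ)) ∉ A)
    (hb : ∀ x, b ≤ x → (-x, (0 : ℤ)) ∉ A) :
    Relation.ReflTransGen (fun x y => nnAdj x y ∧ x ∉ A ∧ y ∉ A) (a, (0 : ℤ)) (-b, (0 : ℤ)) := by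
  obtain ⟨N, hN⟩ : ∃ N : ℕ, ∀ v ∈ A, |v.1| ≤ N ∧ |v.2| ≤ N := by
    obtain ⟨M, hM⟩ := (hA.image (fun v => v.1.natAbs + v.2.natAbs)).bddAbove
    refine ⟨M, fun v hv => ?_⟩
    have := hM ⟨v, hv, rfl⟩
    simp only at this
    rw [Int.abs_eq_natAbs, Int.abs_eq_natAbs]
    omega
  have hsym : ∀ {u v : ℤ × ℤ},
      Relation.ReflTransGen (fun x y => nnAdj x y ∧ x ∉ A ∧ y ∉ A) u v →
      Relation.ReflTransGen (fun x y => nnAdj x y ∧ x ∉ A ∧ y ∉ A) v u := by
    intro u v h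
    induction h with
    | refl => exact Relation.ReflTransGen.refl
    | tail _ h ih => exact Relation.ReflTransGen.head ⟨nnAdj_comm h.1, h.2.2, h.2.1⟩ ih
  have hout : ∀ x y : ℤ, (N : ℤ) < |x| ∨ (N : ℤ) < |y| → (x, y) ∉ A := by
    intro x y h hm
    have := hN _ hm
    simp only at this
    omega
  -- far to the right
  set K : ℕ := N + 1 + a.natAbs + b.natAbs with hK
  have e1 := ray_right (fun x => (x, (0 : ℤ))) A (fun x => by simp [nnAdj]) ha (K - a).toNat
  have e2 := ray_right (fun x => (-x, (0 : ℤ))) A (fun x => by simp [nnAdj]) hb (K - b).toNat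
  have e3 := ray_right (fun y => ((K : ℤ), y)) A (fun x => by simp [nnAdj]) (a := 0)
    (fun y _ => hout _ _ (by left; rw [abs_of_nonneg (by positivity)]; omega)) (N + 1)
  have e4 := ray_right (fun y => (-(K : ℤ), y)) A (fun x => by simp [nnAdj]) (a := 0)
    (fun y _ => hout _ _ (by left; rw [abs_neg, abs_of_nonneg (by positivity)]; omega)) (N + 1)
  have e5 := ray_right (fun x => (x, ((N : ℤ) + 1))) A (fun x => by simp [nnAdj]) (a := -(K : ℤ))
    (fun y _ => hout _ _ (by right; rw [abs_of_nonneg (by positivity)]; omega)) (2 * K)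
  have f1 : a + ((K - a).toNat : ℤ) = K := by omega
  have f2 : -(b + ((K - b).toNat : ℤ)) = -K := by omega
  simp only [f1, f2] at e1 e2
  have f3 : (0 : ℤ) + ((N + 1 : ℕ) : ℤ) = N + 1 := by push_cast; ring
  simp only [f3] at e3 e4
  have f5 : -(K : ℤ) + ((2 * K : ℕ) : ℤ) = K := by push_cast; ring
  simp only [f5] at e5
  exact ((e1.trans e3).trans (hsym e5)).trans ((hsym e4).trans (hsym e2))

theorem planar_duality (Op : Set (ℤ × ℤ)) (n : ℕ) :
    (∃ S ⊆ Op, S.Infinite ∧ NNConn S) ∨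
    ∃ a b : ℤ, (n : ℤ) < a ∧ (n : ℤ) < b ∧ (a, (0 : ℤ)) ∉ Op ∧ (-b, (0 : ℤ)) ∉ Op ∧
      Relation.ReflTransGen (fun x y => starAdj x y ∧ x ∉ Op ∧ y ∉ Op) (a, 0) (-b, 0) := by
  by_cases hex : ∃ S ⊆ Op, S.Infinite ∧ NNConn S
  · exact Or.inl hex
  right
  have hfin : ∀ S ⊆ Op, NNConn S → S.Finite := by
    intro S hS hc
    by_contra hinf
    exact hex ⟨S, hS, hinf, hc⟩
  set T : Set (ℤ × ℤ) := (fun x : ℤ => (x, (0 : ℤ))) '' (Icc (-(n : ℤ)) n) with hT
  have hTfin : T.Finite := (Set.finite_Icc _ _).image _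
  have h0T : ((0 : ℤ), (0 : ℤ)) ∈ T := ⟨0, ⟨by simp, by simp⟩, rfl⟩
  set A : Set (ℤ × ℤ) := {v | Reach (Op ∪ T) (0, 0) v} with hAdef
  have hA : A.Finite := cluster_finite hfin T hTfin _ h0T
  have hAsub : A ⊆ Op ∪ T := fun v hv => Reach.mem hv (Or.inr h0T)
  -- sites next to `A` are not in `Op`
  have hbd : ∀ u v, u ∈ A → v ∉ A → nnAdj u v → v ∉ Op := by
    intro u v hu hv huv hvO
    exact hv (Relation.ReflTransGen.tail hu ⟨huv, hAsub hu, Or.inl hvO⟩)
  -- the segment is in `A`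
  have hseg1 : ∀ k : ℕ, (k : ℤ) ≤ n → ((k : ℤ), (0 : ℤ)) ∈ A ∧ (-(k : ℤ), (0 : ℤ)) ∈ A := by
    intro k
    induction k with
    | zero => intro _; simp [hAdef, Reach]; exact Relation.ReflTransGen.refl
    | succ k ih =>
      intro hk
      push_cast at hk
      have := ih (by omega)
      constructor
      · refine Relation.ReflTransGen.tail this.1 ⟨by simp [nnAdj], Or.inr ⟨k, ?_, rfl⟩,
          Or.inr ⟨(k : ℤ) + 1, ?_, by push_cast; rfl⟩⟩
        · constructor <;> omega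
        · constructor <;> omega
      · refine Relation.ReflTransGen.tail this.2 ⟨by simp [nnAdj], Or.inr ⟨-(k : ℤ), ?_, rfl⟩,
          Or.inr ⟨-((k : ℤ) + 1), ?_, by push_cast; rfl⟩⟩
        · constructor <;> omega
        · constructor <;> omega
  have hmax : ∀ f : ℤ → ℤ × ℤ, Function.Injective f → f n ∈ A →
      ∃ a : ℤ, (n : ℤ) < a ∧ f (a - 1) ∈ A ∧ ∀ x, a ≤ x → f x ∉ A := by
    intro f hf hn
    have hfin : {x : ℤ | f x ∈ A}.Finite := hA.preimage hf.injOn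
    obtain ⟨m, hm, hmm⟩ := hfin.exists_maximalFor id _ ⟨n, hn⟩
    refine ⟨m + 1, ?_, by simpa using hm, ?_⟩
    · have := hmm hn
      simp only [id] at this
      by_contra hlt
      have := this (by omega)
      omega
    · intro x hx hxA
      have := hmm (j := x) hxA
      simp only [id] at this
      have := this (by omega)
      omega
  obtain ⟨a, hna, haA, haout⟩ := hmax (fun x => (x, 0)) (fun x y h => by simpa using h)
    (hseg1 n le_rfl).1
  obtain ⟨b, hnb, hbA, hbout⟩ := hmax (fun x => (-x, 0)) (fun x y h => by simpa using h)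
    (hseg1 n le_rfl).2
  have haO : (a, (0 : ℤ)) ∉ Op := hbd _ _ haA (haout a le_rfl) (by simp [nnAdj])
  have hbO : (-b, (0 : ℤ)) ∉ Op := hbd _ _ hbA (hbout b le_rfl) (by simp [nnAdj])
  refine ⟨a, b, hna, hnb, haO, hbO, ?_⟩
  set K : Set (ℤ × ℤ) :=
    {v | Relation.ReflTransGen (fun x y => starAdj x y ∧ x ∉ Op ∧ y ∉ Op) (a, 0) v} with hK
  obtain ⟨f, hf⟩ := separation A K (by
    rintro u v hu hv huv ⟨p, hp, hpu⟩ ⟨q, hq, hqv⟩ huK
    exact Relation.ReflTransGen.tail huK ⟨huv, hbd _ _ hp hu hpu, hbd _ _ hq hv hqv⟩)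
  -- `f` is constant on `A`
  have hfA : ∀ v ∈ A, f v = f (0, 0) := by
    intro v hv
    have : Relation.ReflTransGen (fun x y => nnAdj x y ∧ x ∈ A ∧ y ∈ A) (0, 0) v :=
      nnconn_cluster (Op ∪ T) (0, 0) _ Relation.ReflTransGen.refl _ hv
    induction this with
    | refl => rfl
    | @tail b c _ h ih =>
      rw [hf b c h.1, ih h.2.1]
      simp [cutE, h.2.1, h.2.2]
  have hfC : ∀ v, Relation.ReflTransGen (fun x y => nnAdj x y ∧ x ∉ A ∧ y ∉ A) (a, 0) v →
      f v = f (a, 0) := by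
    intro v hv
    induction hv with
    | refl => rfl
    | @tail b c _ h ih =>
      rw [hf b c h.1, ih]
      simp [cutE, h.2.1, h.2.2]
  have e1 := hf (a - 1, 0) (a, 0) (by simp [nnAdj])
  have e2 := hf (-(b - 1), 0) (-b, 0) (by simp [nnAdj])
  rw [hfA _ haA] at e1
  rw [hfA _ hbA, hfC _ (path_around A hA haout hbout), e1] at e2
  have haK : (a, (0 : ℤ)) ∈ K := Relation.ReflTransGen.refl
  have c1 : cutE A K (a - 1, 0) (a, 0) = 1 := by
    unfold cutE
    rw [if_pos]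
    exact Or.inl ⟨haA, haout a le_rfl, haK⟩
  rw [c1] at e2
  by_contra hcon
  have c2 : cutE A K (-(b - 1), 0) (-b, 0) = 0 := by
    unfold cutE
    rw [if_neg]
    rintro (⟨_, _, h⟩ | ⟨h, _, _⟩)
    · exact hcon h
    · exact hbout b le_rfl h
  rw [c2] at e2
  have : (1 : ZMod 2) = 0 := by linear_combination e2
  exact absurd this (by decide)

end Dual

end Pool.Agent.Lib.MP_3e2d90_pr
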