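import Mathlib
import Pool.Agent.Lib.MP_3e2d90_pr.Basic

/-!
# GEOM: connected sets force bad nodes
-/

open MeasureTheory ProbabilityTheory Set
open scoped NNReal ENNReal

namespace Pool.Agent.Lib.MP_3e2d90_pr

/-- the node of level `k` closest to a point -/
noncomputable def nearNode (X k : ℕ) (x : ℂ) : ℤ × ℤ :=
  (round (x.re / Ls X k), round (x.im / Ls X k))

lemma geom_abs_re {X : ℕ} (hX : 100 ≤ X) (k : ℕ) (x : ℂ) :
    |x.re - (loc X k (nearNode X k x)).re| ≤ Ls X k / 2 := by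
  have h0 : (0 : ℝ) < Ls X k := lt_of_lt_of_le (by norm_num) (Ls_ge_real hX k)
  have h := abs_sub_round (x.re / Ls X k)
  have e : x.re - (loc X k (nearNode X k x)).re =
      Ls X k * (x.re / Ls X k - (round (x.re / Ls X k) : ℤ)) := by
    simp only [loc, nearNode]
    field_simp
  rw [e, abs_mul, abs_of_pos h0]
  calc (Ls X k : ℝ) * |x.re / Ls X k - (round (x.re / Ls X k) : ℤ)| ≤ Ls X k * (1 / 2) := by gcongr
    _ = Ls X k / 2 := by ring

lemma geom_abs_im {X : ℕ} (hX : 100 ≤ X) (k : ℕ) (x : ℂ) :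
    |x.im - (loc X k (nearNode X k x)).im| ≤ Ls X k / 2 := by
  have h0 : (0 : ℝ) < Ls X k := lt_of_lt_of_le (by norm_num) (Ls_ge_real hX k)
  have h := abs_sub_round (x.im / Ls X k)
  have e : x.im - (loc X k (nearNode X k x)).im =
      Ls X k * (x.im / Ls X k - (round (x.im / Ls X k) : ℤ)) := by
    simp only [loc, nearNode]
    field_simp
  rw [e, abs_mul, abs_of_pos h0]
  calc (Ls X k : ℝ) * |x.im / Ls X k - (round (x.im / Ls X k) : ℤ)| ≤ Ls X k * (1 / 2) := by gcongr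
    _ = Ls X k / 2 := by ring

lemma geom_dist_nearNode {X : ℕ} (hX : 100 ≤ X) (k : ℕ) (x : ℂ) :
    dist x (loc X k (nearNode X k x)) ≤ Ls X k := by
  rw [dist_eq_norm]
  refine (Complex.norm_le_abs_re_add_abs_im _).trans ?_
  have h1 := geom_abs_re hX k x
  have h2 := geom_abs_im hX k x
  rw [Complex.sub_re, Complex.sub_im]
  linarith

/-- a point on the `m`-th circle has its nearest node in `Circ`. -/
lemma geom_nearNode_mem_Circ {X : ℕ} (hX : 100 ≤ X) (k : ℕ) (m : Fin 85) (a : ℤ × ℤ) {x : ℂ}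
    (hx : dist x (loc X (k + 1) a) = rad X k m) : nearNode X k x ∈ Circ X k m a := by
  have h0 : (0 : ℝ) < Ls X k := lt_of_lt_of_le (by norm_num) (Ls_ge_real hX k)
  have hd := geom_dist_nearNode hX k x
  have hr := rad_le X k m
  have hb := big_le hX k
  set b := nearNode X k x with hbdef
  have h3 : |dist (loc X k b) (loc X (k + 1) a) - rad X k m| ≤ Ls X k := by
    rw [← hx]
    refine (abs_dist_sub_le _ _ _).trans ?_
    rw [dist_comm]
    exact hd
  have h4 : dist (loc X k b) (loc X (k + 1) a) ≤ 3 * Ls X (k + 1) := by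
    have := (abs_le.1 h3).2
    nlinarith
  rw [dist_eq_norm] at h4
  have hre : |(loc X k b - loc X (k + 1) a).re| ≤ 3 * Ls X (k + 1) :=
    (Complex.abs_re_le_norm _).trans h4
  have him : |(loc X k b - loc X (k + 1) a).im| ≤ 3 * Ls X (k + 1) :=
    (Complex.abs_im_le_norm _).trans h4
  have key : ∀ u v : ℤ, |(Ls X k : ℝ) * v - Ls X (k + 1) * u| ≤ 3 * Ls X (k + 1) →
      u * (Ls X k : ℤ) ^ 2 - 3 * (Ls X k : ℤ) ^ 2 ≤ v ∧
        v ≤ u * (Ls X k : ℤ) ^ 2 + 3 * (Ls X k : ℤ) ^ 2 := by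
    intro u v h
    rw [Ls_succ_real] at h
    have e : (Ls X k : ℝ) * v - (Ls X k : ℝ) ^ 3 * u = Ls X k * (v - (Ls X k : ℝ) ^ 2 * u) := by
      ring
    rw [e, abs_mul, abs_of_pos h0] at h
    have h' : |(v : ℝ) - (Ls X k : ℝ) ^ 2 * u| ≤ 3 * (Ls X k : ℝ) ^ 2 := by
      have : (Ls X k : ℝ) * |(v : ℝ) - (Ls X k : ℝ) ^ 2 * u| ≤
          Ls X k * (3 * (Ls X k : ℝ) ^ 2) := by
        refine h.trans (le_of_eq ?_); ring
      exact le_of_mul_le_mul_left this h0
    rw [abs_le] at h'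
    constructor
    · have : ((u * (Ls X k : ℤ) ^ 2 - 3 * (Ls X k : ℤ) ^ 2 : ℤ) : ℝ) ≤ (v : ℝ) := by
        push_cast; linarith [h'.1]
      exact_mod_cast this
    · have : (v : ℝ) ≤ ((u * (Ls X k : ℤ) ^ 2 + 3 * (Ls X k : ℤ) ^ 2 : ℤ) : ℝ) := by
        push_cast; linarith [h'.2]
      exact_mod_cast this
  exact mem_Circ.2 ⟨key a.1 b.1 (by simpa [loc] using hre), key a.2 b.2 (by simpa [loc] using him),
    h3⟩

theorem bad_of_connected {Ω : Type*} {X : ℕ} (hX : 100 ≤ X) {B : ℤ × ℤ → Set Ω} {w : Ω}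
    {U : Set ℂ} (hU : IsPreconnected U)
    (h0 : ∀ y, (U ∩ Metric.closedBall (loc X 0 y) (Ls X 0)).Nonempty → w ∈ B y) (k : ℕ)
    (a : ℤ × ℤ) (h1 : (U ∩ Metric.closedBall (loc X k a) (Ls X k)).Nonempty)
    (h2 : ¬ U ⊆ Metric.ball (loc X k a) (3 * Ls X k)) : w ∈ Bad X B k a := by
  induction k generalizing a with
  | zero => exact h0 a h1
  | succ k ih =>
    refine mem_iInter.2 fun m => ?_
    obtain ⟨y, hyU, hy⟩ := h1
    obtain ⟨z, hzU, hz⟩ := Set.not_subset.1 h2
    rw [Metric.mem_closedBall] at hy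
    rw [Metric.mem_ball, not_lt] at hz
    have hr := rad_le X k m
    have hr' := le_rad X k m
    have hL : (0 : ℝ) ≤ Ls X (k + 1) := by positivity
    have hcont : ContinuousOn (fun x : ℂ => dist x (loc X (k + 1) a)) U :=
      (continuous_id.dist continuous_const).continuousOn
    obtain ⟨x, hxU, hx⟩ : rad X k m ∈ (fun x : ℂ => dist x (loc X (k + 1) a)) '' U :=
      hU.intermediate_value hyU hzU hcont ⟨hy.trans hr', by linarith⟩
    refine mem_biUnion (geom_nearNode_mem_Circ hX k m a hx) ?_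
    have hd := geom_dist_nearNode hX k x
    refine ih _ ⟨x, hxU, hd⟩ fun hsub => ?_
    have hz' := hsub hzU
    rw [Metric.mem_ball] at hz'
    have hx' : dist x (loc X (k + 1) a) = rad X k m := hx
    have t1 := dist_triangle z (loc X k (nearNode X k x)) (loc X (k + 1) a)
    have t2 := dist_triangle (loc X k (nearNode X k x)) x (loc X (k + 1) a)
    rw [dist_comm (loc X k (nearNode X k x)) x] at t2
    have hb := big_le hX k
    have hk : (0 : ℝ) ≤ Ls X k := by positivity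
    nlinarith

end Pool.Agent.Lib.MP_3e2d90_pr
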