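import Mathlib
import Pool.Agent.Lib.MP_3e2d90_pr.Geom

/-!
# FINAL1: Borel-Cantelli
-/

open MeasureTheory ProbabilityTheory Set
open scoped NNReal ENNReal

namespace Pool.Agent.Lib.MP_3e2d90_pr

lemma fin_two_pow_le_xs {X : ℕ} (hX : 2 ≤ X) (k : ℕ) : 2 ^ k ≤ xs X k := by
  rw [xs]
  calc 2 ^ k ≤ X ^ k := Nat.pow_le_pow_left hX k
    _ ≤ X ^ (3 ^ k) := by
      refine Nat.pow_le_pow_right (by omega) ?_
      exact (Nat.lt_pow_self (by norm_num)).le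

lemma fin_one_le_xs {X : ℕ} (hX : 2 ≤ X) (k : ℕ) : 1 ≤ xs X k :=
  (Nat.one_le_two_pow).trans (fin_two_pow_le_xs hX k)

lemma fin_two_pow_le_Ls {X : ℕ} (hX : 2 ≤ X) (k : ℕ) : 2 ^ k ≤ Ls X k :=
  (fin_two_pow_le_xs hX k).trans (xs_le_Ls X k)

/-- the union of bad events of level `k` on the axis -/
def axisBad {Ω : Type*} (X : ℕ) (B : ℤ × ℤ → Set Ω) (k : ℕ) : Set Ω :=
  ⋃ i ∈ Finset.range (4 * Ls X k ^ 2 + 1), Bad X B k ((i : ℤ), 0)

lemma fin_measure_axisBad_le {Ω : Type*} [MeasurableSpace Ω] (μ : Measure Ω) {X : ℕ}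
    (hX : 100 ≤ X) {B : ℤ × ℤ → Set Ω}
    (hP : ∀ k a, μ (Bad X B k a) ≤ ((xs X k : ℝ≥0∞) ^ 81)⁻¹) (k : ℕ) :
    μ (axisBad X B k) ≤ 5 * (2⁻¹ : ℝ≥0∞) ^ k := by
  have h1 : μ (axisBad X B k) ≤ ∑ i ∈ Finset.range (4 * Ls X k ^ 2 + 1),
      μ (Bad X B k ((i : ℤ), 0)) := measure_biUnion_finset_le _ _
  have h2 : ∑ i ∈ Finset.range (4 * Ls X k ^ 2 + 1), μ (Bad X B k ((i : ℤ), 0)) ≤
      ∑ _i ∈ Finset.range (4 * Ls X k ^ 2 + 1), ((xs X k : ℝ≥0∞) ^ 81)⁻¹ :=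
    Finset.sum_le_sum fun i _ => hP k _
  rw [Finset.sum_const, Finset.card_range, nsmul_eq_mul] at h2
  refine h1.trans (h2.trans ?_)
  have hx1 : 1 ≤ xs X k := fin_one_le_xs (by omega) k
  have h3 : ((4 * Ls X k ^ 2 + 1 : ℕ) : ℝ≥0∞) ≤ 5 * (xs X k : ℝ≥0∞) ^ 80 := by
    have : 4 * Ls X k ^ 2 + 1 ≤ 5 * xs X k ^ 80 := by
      have e1 : Ls X k ^ 2 ≤ xs X k ^ 80 := by
        rw [Ls, ← pow_mul]
        exact Nat.pow_le_pow_right hx1 (by norm_num)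
      have e2 : 1 ≤ xs X k ^ 80 := Nat.one_le_pow _ _ hx1
      omega
    exact_mod_cast this
  have h4 : (2 : ℝ≥0∞) ^ k ≤ xs X k := by
    have := fin_two_pow_le_xs (X := X) (by omega) k
    exact_mod_cast this
  have hx0 : (xs X k : ℝ≥0∞) ≠ 0 := by
    exact_mod_cast (by omega : xs X k ≠ 0)
  have hxt : (xs X k : ℝ≥0∞) ≠ ∞ := ENNReal.natCast_ne_top _
  calc ((4 * Ls X k ^ 2 + 1 : ℕ) : ℝ≥0∞) * ((xs X k : ℝ≥0∞) ^ 81)⁻¹
      ≤ 5 * (xs X k : ℝ≥0∞) ^ 80 * ((xs X k : ℝ≥0∞) ^ 81)⁻¹ := by gcongr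
    _ = 5 * ((xs X k : ℝ≥0∞))⁻¹ := by
        rw [pow_succ (xs X k : ℝ≥0∞) 80, ENNReal.mul_inv (Or.inl (pow_ne_zero _ hx0))
          (Or.inr hx0), mul_assoc, ← mul_assoc ((xs X k : ℝ≥0∞) ^ 80),
          ENNReal.mul_inv_cancel (pow_ne_zero _ hx0) (ENNReal.pow_ne_top hxt), one_mul]
    _ ≤ 5 * (2⁻¹ : ℝ≥0∞) ^ k := by
        rw [← ENNReal.inv_pow]
        gcongr

lemma fin_ae_eventually {Ω : Type*} [MeasurableSpace Ω] (μ : Measure Ω) {X : ℕ}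
    (hX : 100 ≤ X) {B : ℤ × ℤ → Set Ω}
    (hP : ∀ k a, μ (Bad X B k a) ≤ ((xs X k : ℝ≥0∞) ^ 81)⁻¹) :
    ∀ᵐ w ∂μ, ∃ K, ∀ k ≥ K, w ∉ axisBad X B k := by
  have h : ∑' k, μ (axisBad X B k) ≠ ∞ := by
    refine ne_top_of_le_ne_top ?_ (ENNReal.tsum_le_tsum (fin_measure_axisBad_le μ hX hP))
    rw [ENNReal.tsum_mul_left, ENNReal.tsum_geometric, ENNReal.one_sub_inv_two, inv_inv]
    exact ENNReal.mul_ne_top (by norm_num) (by norm_num)
  filter_upwards [ae_eventually_notMem h] with w hw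
  exact Filter.eventually_atTop.1 hw

lemma fin_loc_zero (X k : ℕ) : loc X k ((0 : ℕ), 0) = 0 := by
  simp [loc, Complex.ext_iff]

theorem ae_bounded {Ω : Type*} [MeasurableSpace Ω] (μ : Measure Ω) {X : ℕ} (hX : 100 ≤ X)
    {B : ℤ × ℤ → Set Ω} (hP : ∀ k a, μ (Bad X B k a) ≤ ((xs X k : ℝ≥0∞) ^ 81)⁻¹) :
    ∀ᵐ w ∂μ, ∀ U : Set ℂ, IsPreconnected U →
      (∀ y, (U ∩ Metric.closedBall (loc X 0 y) (Ls X 0)).Nonempty → w ∈ B y) →
      Bornology.IsBounded U := by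
  filter_upwards [fin_ae_eventually μ hX hP] with w hw U hU h0
  by_contra hb
  obtain ⟨K, hK⟩ := hw
  obtain ⟨x, hx⟩ : U.Nonempty := by
    rw [Set.nonempty_iff_ne_empty]
    rintro rfl
    exact hb Bornology.isBounded_empty
  obtain ⟨N, hN⟩ := pow_unbounded_of_one_lt ‖x‖ (by norm_num : (1 : ℝ) < 2)
  set k := max K N with hk
  have hLk : ‖x‖ ≤ Ls X k := by
    have h1 : (2 : ℝ) ^ k ≤ Ls X k := by
      have := fin_two_pow_le_Ls (X := X) (by omega) k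
      exact_mod_cast this
    have h2 : (2 : ℝ) ^ N ≤ 2 ^ k := pow_le_pow_right₀ (by norm_num) (le_max_right _ _)
    linarith
  refine hK k (le_max_left _ _) ?_
  rw [axisBad, mem_iUnion₂]
  refine ⟨0, by simp, bad_of_connected hX hU h0 k _ ⟨x, hx, ?_⟩ fun hsub => ?_⟩
  · rw [fin_loc_zero, Metric.mem_closedBall, dist_zero_right]
    exact hLk
  · exact hb (Metric.isBounded_ball.subset hsub)

/-- the key geometric step: a connected set meeting the positive axis far away and the negative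
axis makes an axis node bad at a high level -/
lemma fin_axisBad_of_connected {Ω : Type*} {X : ℕ} (hX : 100 ≤ X) {B : ℤ × ℤ → Set Ω} {w : Ω}
    {U : Set ℂ} (hU : IsPreconnected U)
    (h0 : ∀ y, (U ∩ Metric.closedBall (loc X 0 y) (Ls X 0)).Nonempty → w ∈ B y) (K : ℕ)
    {P Q : ℝ} (hP : 4 * (Ls X K : ℝ) ≤ P) (hQ : 0 ≤ Q) (hPU : (P : ℂ) ∈ U)
    (hQU : ((-Q : ℝ) : ℂ) ∈ U) : ∃ k ≥ K, w ∈ axisBad X B k := by
  classical
  have hex : ∃ k, P < 4 * (Ls X k : ℝ) := by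
    obtain ⟨N, hN⟩ := pow_unbounded_of_one_lt P (by norm_num : (1 : ℝ) < 2)
    refine ⟨N, ?_⟩
    have h1 : (2 : ℝ) ^ N ≤ Ls X N := by
      have := fin_two_pow_le_Ls (X := X) (by omega) N
      exact_mod_cast this
    have h2 : (0 : ℝ) ≤ Ls X N := by positivity
    linarith
  have hmono : ∀ i j, i ≤ j → (Ls X i : ℝ) ≤ Ls X j := by
    intro i j hij
    induction j, hij using Nat.le_induction with
    | base => exact le_rfl
    | succ j _ ih =>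
      have := big_le hX j
      have h2 : (0 : ℝ) ≤ Ls X j := by positivity
      nlinarith
  have hk0 : Nat.find hex ≠ 0 := by
    intro h
    have h1 := Nat.find_spec hex
    rw [h] at h1
    have := hmono 0 K (Nat.zero_le _)
    linarith
  obtain ⟨k, hk⟩ := Nat.exists_eq_succ_of_ne_zero hk0
  have hlt : P < 4 * (Ls X (k + 1) : ℝ) := by
    have := Nat.find_spec hex
    rwa [hk] at this
  have hge : 4 * (Ls X k : ℝ) ≤ P := by
    have := Nat.find_min hex (m := k) (by omega)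
    exact not_lt.1 this
  have hkK : K ≤ k := by
    by_contra hlt'
    have h1 : k + 1 ≤ K := by omega
    have := hmono _ _ h1
    linarith
  refine ⟨k, hkK, ?_⟩
  have hLpos : (0 : ℝ) < Ls X k := lt_of_lt_of_le (by norm_num) (Ls_ge_real hX k)
  have hP0 : 0 ≤ P := by linarith
  set i := ⌊P / Ls X k⌋₊ with hi
  have hi1 : (i : ℝ) ≤ P / Ls X k := Nat.floor_le (by positivity)
  have hi2 : P / Ls X k < i + 1 := Nat.lt_floor_add_one _
  rw [le_div_iff₀ hLpos] at hi1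
  rw [div_lt_iff₀ hLpos] at hi2
  have hirange : i < 4 * Ls X k ^ 2 + 1 := by
    have h1 : (i : ℝ) * Ls X k < (4 * (Ls X k : ℝ) ^ 2) * Ls X k := by
      rw [Ls_succ_real] at hlt
      nlinarith
    have h2 : (i : ℝ) < 4 * (Ls X k : ℝ) ^ 2 := lt_of_mul_lt_mul_right h1 hLpos.le
    have h3 : i < 4 * Ls X k ^ 2 := by exact_mod_cast h2
    omega
  rw [axisBad, mem_iUnion₂]
  have hloc : loc X k ((i : ℤ), 0) = ((Ls X k * i : ℝ) : ℂ) := by
    simp [loc, Complex.ext_iff]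
  refine ⟨i, Finset.mem_range.2 hirange, bad_of_connected hX hU h0 k _
    ⟨P, hPU, ?_⟩ fun hsub => ?_⟩
  · rw [hloc, Metric.mem_closedBall, Complex.dist_eq, ← Complex.ofReal_sub, Complex.norm_real,
      Real.norm_eq_abs, abs_le]
    constructor <;> nlinarith
  · have := hsub hQU
    rw [hloc, Metric.mem_ball, Complex.dist_eq, ← Complex.ofReal_sub, Complex.norm_real,
      Real.norm_eq_abs, abs_lt] at this
    nlinarith [this.1]

/-- the broken line through the nodes of a chain is connected -/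
lemma fin_chain {X : ℕ} {R : ℤ × ℤ → ℤ × ℤ → Prop} {u v : ℤ × ℤ}
    (h : Relation.ReflTransGen R u v) :
    ∃ U : Set ℂ, IsPreconnected U ∧ loc X 0 u ∈ U ∧ loc X 0 v ∈ U ∧
      ∀ x ∈ U, x = loc X 0 u ∨ ∃ y y', R y y' ∧ x ∈ segment ℝ (loc X 0 y) (loc X 0 y') := by
  induction h with
  | refl => exact ⟨{loc X 0 u}, isPreconnected_singleton, rfl, rfl, fun x hx => Or.inl hx⟩
  | @tail b c _ hbc ih =>
    obtain ⟨U, hU, hu, hb, hx⟩ := ih
    refine ⟨U ∪ segment ℝ (loc X 0 b) (loc X 0 c), ?_, Or.inl hu,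
      Or.inr (right_mem_segment ℝ _ _), ?_⟩
    · exact IsPreconnected.union (loc X 0 b) hb (left_mem_segment ℝ _ _) hU
        (convex_segment _ _).isPreconnected
    · rintro x (h | h)
      · exact hx x h
      · exact Or.inr ⟨b, c, hbc, h⟩

/-- coordinates in a segment -/
lemma fin_segment_abs {X : ℕ} {y y' : ℤ × ℤ} (hyy' : starAdj y y') {x : ℂ}
    (hx : x ∈ segment ℝ (loc X 0 y) (loc X 0 y')) :
    (|x.re - (loc X 0 y).re| ≤ Ls X 0 / 2 ∧ |x.im - (loc X 0 y).im| ≤ Ls X 0 / 2) ∨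
    (|x.re - (loc X 0 y').re| ≤ Ls X 0 / 2 ∧ |x.im - (loc X 0 y').im| ≤ Ls X 0 / 2) := by
  obtain ⟨s, t, hs, ht, hst, rfl⟩ := hx
  have hL : (0 : ℝ) ≤ Ls X 0 := by positivity
  have h1 : |(y.1 : ℝ) - y'.1| ≤ 1 := by exact_mod_cast hyy'.1
  have h2 : |(y.2 : ℝ) - y'.2| ≤ 1 := by exact_mod_cast hyy'.2
  have hre : (s • loc X 0 y + t • loc X 0 y').re = s * (Ls X 0 * y.1) + t * (Ls X 0 * y'.1) := by
    simp [loc]
  have him : (s • loc X 0 y + t • loc X 0 y').im = s * (Ls X 0 * y.2) + t * (Ls X 0 * y'.2) := by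
    simp [loc]
  have aux : ∀ (r d : ℝ), 0 ≤ r → r ≤ 1 / 2 → |d| ≤ 1 → |r * (Ls X 0 * d)| ≤ Ls X 0 / 2 := by
    intro r d hr hr' hd
    rw [abs_mul, abs_mul, abs_of_nonneg hr, abs_of_nonneg hL]
    have : (Ls X 0 : ℝ) * |d| ≤ Ls X 0 := by nlinarith
    nlinarith [mul_nonneg hL (abs_nonneg d)]
  rcases le_total t (1 / 2) with h | h
  · left
    rw [hre, him]
    have e1 : s * (Ls X 0 * y.1) + t * (Ls X 0 * y'.1) - (loc X 0 y).re =
        t * (Ls X 0 * ((y'.1 : ℝ) - y.1)) := by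
      have : s = 1 - t := by linarith
      subst this; simp only [loc]; ring
    have e2 : s * (Ls X 0 * y.2) + t * (Ls X 0 * y'.2) - (loc X 0 y).im =
        t * (Ls X 0 * ((y'.2 : ℝ) - y.2)) := by
      have : s = 1 - t := by linarith
      subst this; simp only [loc]; ring
    rw [e1, e2]
    exact ⟨aux _ _ ht h (by rwa [abs_sub_comm]), aux _ _ ht h (by rwa [abs_sub_comm])⟩
  · right
    rw [hre, him]
    have e1 : s * (Ls X 0 * y.1) + t * (Ls X 0 * y'.1) - (loc X 0 y').re =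
        s * (Ls X 0 * ((y.1 : ℝ) - y'.1)) := by
      have : t = 1 - s := by linarith
      subst this; simp only [loc]; ring
    have e2 : s * (Ls X 0 * y.2) + t * (Ls X 0 * y'.2) - (loc X 0 y').im =
        s * (Ls X 0 * ((y.2 : ℝ) - y'.2)) := by
      have : t = 1 - s := by linarith
      subst this; simp only [loc]; ring
    rw [e1, e2]
    exact ⟨aux _ _ hs (by linarith) h1, aux _ _ hs (by linarith) h2⟩

/-- a node whose closed ball contains a point of the box of `y` is star-adjacent to `y` -/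
lemma fin_starAdj_of_box {X : ℕ} (hX : 100 ≤ X) {y z : ℤ × ℤ} {x : ℂ}
    (hx : |x.re - (loc X 0 y).re| ≤ Ls X 0 / 2 ∧ |x.im - (loc X 0 y).im| ≤ Ls X 0 / 2)
    (hz : x ∈ Metric.closedBall (loc X 0 z) (Ls X 0)) : starAdj y z := by
  have hL : (0 : ℝ) < Ls X 0 := lt_of_lt_of_le (by norm_num) (Ls_ge_real hX 0)
  rw [Metric.mem_closedBall, dist_eq_norm] at hz
  have h1 := (Complex.abs_re_le_norm _).trans hz
  have h2 := (Complex.abs_im_le_norm _).trans hz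
  rw [Complex.sub_re] at h1
  rw [Complex.sub_im] at h2
  have aux : ∀ (p : ℝ) (u v : ℤ), |p - Ls X 0 * u| ≤ Ls X 0 / 2 → |p - Ls X 0 * v| ≤ Ls X 0 →
      |u - v| ≤ 1 := by
    intro p u v hu hv
    have h3 : |(Ls X 0 : ℝ) * ((u : ℝ) - v)| ≤ 3 / 2 * Ls X 0 := by
      have e : (Ls X 0 : ℝ) * ((u : ℝ) - v) = (p - Ls X 0 * v) - (p - Ls X 0 * u) := by ring
      rw [e]
      refine (abs_sub _ _).trans ?_
      linarith
    rw [abs_mul, abs_of_pos hL] at h3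
    have h4 : |(u : ℝ) - v| ≤ 3 / 2 := by
      have : (Ls X 0 : ℝ) * |(u : ℝ) - v| ≤ Ls X 0 * (3 / 2) := by linarith
      exact le_of_mul_le_mul_left this hL
    have h5 : |(u : ℝ) - v| < 2 := by linarith
    have h6 : |u - v| < 2 := by exact_mod_cast h5
    omega
  exact ⟨aux x.re y.1 z.1 hx.1 h1, aux x.im y.2 z.2 hx.2 h2⟩

/-- `ae_infinite_cluster` with planar duality as a hypothesis -/
theorem ae_infinite_cluster_of {Ω : Type*} [MeasurableSpace Ω] (μ : Measure Ω) {X : ℕ}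
    (hX : 100 ≤ X) {B : ℤ × ℤ → Set Ω}
    (hP : ∀ k a, μ (Bad X B k a) ≤ ((xs X k : ℝ≥0∞) ^ 81)⁻¹)
    (hdual : ∀ (Op : Set (ℤ × ℤ)) (n : ℕ), (∃ S ⊆ Op, S.Infinite ∧ NNConn S) ∨
      ∃ a b : ℤ, (n : ℤ) < a ∧ (n : ℤ) < b ∧ (a, (0 : ℤ)) ∉ Op ∧ (-b, (0 : ℤ)) ∉ Op ∧
        Relation.ReflTransGen (fun x y => starAdj x y ∧ x ∉ Op ∧ y ∉ Op) (a, 0) (-b, 0)) :
    ∀ᵐ w ∂μ, ∀ Cl : Set (ℤ × ℤ), (∀ y ∈ Cl, ∀ y', starAdj y y' → w ∈ B y') →
      ∃ S ⊆ Clᶜ, S.Infinite ∧ NNConn S := by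
  filter_upwards [fin_ae_eventually μ hX hP] with w hw Cl hCl
  obtain ⟨K, hK⟩ := hw
  rcases hdual Clᶜ (4 * Ls X K) with h | ⟨a, b, ha, hb, haC, hbC, hchain⟩
  · exact h
  exfalso
  have haCl : (a, (0 : ℤ)) ∈ Cl := not_not.1 haC
  obtain ⟨U, hU, hau, hbu, hUx⟩ := fin_chain (X := X) hchain
  have hL1 : (1 : ℝ) ≤ Ls X 0 := le_trans (by norm_num) (Ls_ge_real hX 0)
  have h0 : ∀ y, (U ∩ Metric.closedBall (loc X 0 y) (Ls X 0)).Nonempty → w ∈ B y := by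
    rintro y ⟨x, hxU, hxy⟩
    rcases hUx x hxU with rfl | ⟨u, v, ⟨huv, hu, hv⟩, hxs⟩
    · refine hCl _ haCl y (fin_starAdj_of_box hX (x := loc X 0 (a, 0)) ?_ hxy)
      constructor <;> rw [sub_self, abs_zero] <;> positivity
    · rcases fin_segment_abs huv hxs with h | h
      · exact hCl _ (not_not.1 hu) y (fin_starAdj_of_box hX h hxy)
      · exact hCl _ (not_not.1 hv) y (fin_starAdj_of_box hX h hxy)
  have ha' : (4 * (Ls X K : ℝ)) < a := by exact_mod_cast ha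
  have hb' : (4 * (Ls X K : ℝ)) < b := by exact_mod_cast hb
  have hLK : (0 : ℝ) ≤ Ls X K := by positivity
  have hlocA : loc X 0 (a, 0) = (((Ls X 0 : ℝ) * a : ℝ) : ℂ) := by
    simp [loc, Complex.ext_iff]
  have hlocB : loc X 0 (-b, 0) = ((-((Ls X 0 : ℝ) * b) : ℝ) : ℂ) := by
    simp [loc, Complex.ext_iff]
  rw [hlocA] at hau
  rw [hlocB] at hbu
  obtain ⟨k, hkK, hk⟩ := fin_axisBad_of_connected hX hU h0 K (P := (Ls X 0 : ℝ) * a)
    (Q := (Ls X 0 : ℝ) * b) (by nlinarith) (by nlinarith) hau hbu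
  exact hK k hkK hk

end Pool.Agent.Lib.MP_3e2d90_pr
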