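import Mathlib
import Pool.Agent.Lib.MP_3e2d90_pr.Final1
import Pool.Agent.Lib.MP_3e2d90_pr.Dual

/-!
# FINAL1, second part: the infinite cluster
-/

open MeasureTheory ProbabilityTheory Set
open scoped NNReal ENNReal

namespace Pool.Agent.Lib.MP_3e2d90_pr

theorem ae_infinite_cluster {Ω : Type*} [MeasurableSpace Ω] (μ : Measure Ω) {X : ℕ}
    (hX : 100 ≤ X) {B : ℤ × ℤ → Set Ω}
    (hP : ∀ k a, μ (Bad X B k a) ≤ ((xs X k : ℝ≥0∞) ^ 81)⁻¹) :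
    ∀ᵐ w ∂μ, ∀ Cl : Set (ℤ × ℤ), (∀ y ∈ Cl, ∀ y', starAdj y y' → w ∈ B y') →
      ∃ S ⊆ Clᶜ, S.Infinite ∧ NNConn S :=
  ae_infinite_cluster_of μ hX hP planar_duality

end Pool.Agent.Lib.MP_3e2d90_pr
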