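import Mathlib
import Pool.Agent.Lib.MP_3e2d90_pr.Nodes
import Pool.Agent.Lib.MP_3e2d90_pr.DetLarge
import Pool.Agent.Lib.MP_3e2d90_pr.DetSmall
import Pool.Agent.Lib.MP_3e2d90_pr.Final1
import Pool.Agent.Lib.MP_3e2d90_pr.Final2
import Pool.Agent.Lib.MP_3e2d90_pr.Link
import Pool.Agent.Lib.MP_3e2d90_pr.ACFin
import Pool.Agent.Lib.MP_3e2d90_pr.BDFin

/-!
# Assembly
-/

open MeasureTheory ProbabilityTheory Set
open scoped NNReal ENNReal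

namespace Pool.Agent.Lib.MP_3e2d90_pr

section Main

instance (γ l : ℝ≥0) : IsProbabilityMeasure (coxLaw γ l) := by
  unfold coxLaw; infer_instance

lemma ae_coxLaw_mark (γ l : ℝ≥0) : ∀ᵐ w ∂(coxLaw γ l), ∀ (a : ℤ × ℕ × ℤ) r,
    ((w.2 a).2 r) ∈ Ico (a.2.2 : ℝ) (a.2.2 + 1) :=
  Measure.quasiMeasurePreserving_snd.ae (ae_markLaw l)

theorem main_small (γ : ℝ≥0) : ∃ l₀ : ℝ≥0, 0 < l₀ ∧ ∀ l ≤ l₀,
    (∀ᵐ w ∂(coxLaw γ l), ¬ Percolates (occupied w)) ∧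
    (∀ᵐ w ∂(coxLaw γ l), Percolates (vacant w)) := by
  obtain ⟨X₀, hX₀⟩ := AC_final γ
  have h100 : 100 ≤ max X₀ 100 := le_max_right _ _
  obtain ⟨l₀, hl₀, H⟩ := hX₀ (max X₀ 100) (le_max_left _ _)
  refine ⟨l₀, hl₀, fun l hl => ⟨?_, ?_⟩⟩
  · filter_upwards [ae_bounded _ h100 (H l hl), ae_coxLaw_mark γ l] with w h1 h2
    exact not_percolates_occupied h100 h2 h1
  · filter_upwards [ae_infinite_cluster _ h100 (H l hl), ae_coxLaw_mark γ l] with w h1 h2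
    exact percolates_vacant h100 h2 h1

theorem main_large {γ : ℝ≥0} (hγ : 0 < γ) : ∃ l₁ : ℝ≥0, ∀ l ≥ l₁,
    (∀ᵐ w ∂(coxLaw γ l), Percolates (occupied w)) ∧
    (∀ᵐ w ∂(coxLaw γ l), ¬ Percolates (vacant w)) := by
  obtain ⟨X₀, hX₀⟩ := BD_final hγ
  have h100 : 100 ≤ max X₀ 100 := le_max_right _ _
  obtain ⟨l₁, H⟩ := hX₀ (max X₀ 100) (le_max_left _ _)
  refine ⟨l₁, fun l hl => ⟨?_, ?_⟩⟩
  · filter_upwards [ae_infinite_cluster _ h100 (H l hl), ae_coxLaw_mark γ l] with w h1 h2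
    exact percolates_occupied h100 h2 h1
  · filter_upwards [ae_bounded _ h100 (H l hl), ae_coxLaw_mark γ l] with w h1 h2
    exact not_percolates_vacant h100 h2 h1

/-- Non-trivial phase transitions for both thresholds. -/
theorem thresholds {γ : ℝ≥0} (hγ : 0 < γ) :
    (0 < lambdaC γ ∧ lambdaC γ < ∞) ∧ (0 < lambdaCV γ ∧ lambdaCV γ < ∞) := by
  obtain ⟨l₀, hl₀, H0⟩ := main_small γ
  obtain ⟨l₁, H1⟩ := main_large hγ
  have hpos : ∀ {l : ℝ≥0} {P : LineConf × MarkConf → Prop}, (∀ᵐ w ∂(coxLaw γ l), P w) →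
      0 < coxLaw γ l {w | P w} := by
    intro l P h
    rw [pos_iff_ne_zero]
    intro h0
    have h1 : ∀ᵐ w ∂(coxLaw γ l), ¬ P w := by
      rw [ae_iff]
      simpa using h0
    have h2 : ∀ᵐ w ∂(coxLaw γ l), False := by
      filter_upwards [h, h1] with w a b using b a
    have h3 := ae_iff.1 h2
    simp at h3
  have hzero : ∀ {l : ℝ≥0} {P : LineConf × MarkConf → Prop}, (∀ᵐ w ∂(coxLaw γ l), ¬ P w) →
      coxLaw γ l {w | P w} = 0 := by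
    intro l P h
    have := ae_iff.1 h
    simpa using this
  refine ⟨⟨?_, ?_⟩, ⟨?_, ?_⟩⟩
  · refine lt_of_lt_of_le (b := (l₀ : ℝ≥0∞)) (by exact_mod_cast hl₀) (le_sInf ?_)
    rintro _ ⟨l', rfl, -, h⟩
    by_contra hlt
    push Not at hlt
    have : l' ≤ l₀ := by exact_mod_cast hlt.le
    exact h.ne' (hzero (H0 l' this).1)
  · refine lt_of_le_of_lt (sInf_le (a := ((l₁ + 1 : ℝ≥0) : ℝ≥0∞)) ⟨l₁ + 1, rfl, by positivity, ?_⟩)
      ENNReal.coe_lt_top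
    exact hpos (H1 (l₁ + 1) (by simp)).1
  · refine lt_of_lt_of_le (b := (l₀ : ℝ≥0∞)) (by exact_mod_cast hl₀) (le_sSup ?_)
    exact ⟨l₀, rfl, hl₀, hpos (H0 l₀ le_rfl).2⟩
  · refine lt_of_le_of_lt (b := (l₁ : ℝ≥0∞)) (sSup_le ?_) ENNReal.coe_lt_top
    rintro _ ⟨l', rfl, -, h⟩
    by_contra hlt
    push Not at hlt
    have : l₁ ≤ l' := by exact_mod_cast hlt.le
    exact h.ne' (hzero (H1 l' this).2)

end Main

end Pool.Agent.Lib.MP_3e2d90_pr
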